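import Mathlib

/-! EX project (helper22): exponential points on varieties over graphs of polynomial maps
(a generalisation of the theorem of Brownawell and Masser).  Definitions and exact statements of the
parts. -/

set_option autoImplicit false

namespace Pool.Agent.K3h22.EX

open MvPolynomial Filter Topology Metric Set

/-- the leading form of a polynomial -/
noncomputable def top {s : ℕ} (q : MvPolynomial (Fin s) ℂ) : MvPolynomial (Fin s) ℂ :=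
  homogeneousComponent q.totalDegree q

/-- the Jacobian matrix of the polynomials `Φ a` at the point `ζ` -/
noncomputable def jac {s : ℕ} (Φ : Fin s → MvPolynomial (Fin s) ℂ) (ζ : Fin s → ℂ) :
    Matrix (Fin s) (Fin s) ℂ :=
  Matrix.of fun a b => eval ζ (pderiv b (Φ a))

/-- the exponent `∑ m_b p_b` of the monomial `m` -/
noncomputable def expo {s : ℕ} {β : Type} [Fintype β] (p : β → MvPolynomial (Fin s) ℂ) (m : β →₀ ℕ) :
    MvPolynomial (Fin s) ℂ :=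
  ∑ b, (m b : MvPolynomial (Fin s) ℂ) * p b

/-- the value of `G(z, y)` at `y_b = exp (p_b(z) + c_b)` -/
noncomputable def val {s : ℕ} {β : Type} (p : β → MvPolynomial (Fin s) ℂ) (c : β → ℂ)
    (z : Fin s → ℂ) : MvPolynomial β (MvPolynomial (Fin s) ℂ) →+* ℂ :=
  eval₂Hom (eval z) fun b => Complex.exp (eval z (p b) + c b)

/-- the point `R v` -/
noncomputable def sc {s : ℕ} (R : ℝ) (v : Fin s → ℂ) : Fin s → ℂ := fun i => (R : ℂ) * v i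

/-- asymptotics of a polynomial -/
def S_TOP : Prop := ∀ (s : ℕ) (q : MvPolynomial (Fin s) ℂ) (ρ : ℝ), ∃ C : ℝ, 0 ≤ C ∧
  ∀ R : ℝ, 1 ≤ R → ∀ v : Fin s → ℂ, ‖v‖ ≤ ρ →
    ‖eval (sc R v) q - (R : ℂ) ^ q.totalDegree * eval v (top q)‖ ≤ C * R ^ q.totalDegree / R

/-- upper bound for exponential polynomials -/
def S_UPP : Prop := ∀ (s : ℕ) (β : Type) [Fintype β] (p : β → MvPolynomial (Fin s) ℂ) (c : β → ℂ)
  (G : MvPolynomial β (MvPolynomial (Fin s) ℂ)) (δ : ℕ),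
  (∀ m ∈ G.support, ∀ b, m b ≠ 0 → (p b).totalDegree ≤ δ) → ∀ ρ : ℝ, ∃ C : ℝ, 0 ≤ C ∧
  ∀ R : ℝ, 1 ≤ R → ∀ v : Fin s → ℂ, ‖v‖ ≤ ρ →
    ‖val p c (sc R v) G‖ ≤ Real.exp (C * (R ^ δ + Real.log R))

/-- lower bound for exponential polynomials in a direction in which one term dominates -/
def S_DOM : Prop := ∀ (s : ℕ) (β : Type) [Fintype β] (p : β → MvPolynomial (Fin s) ℂ) (c : β → ℂ)
  (ζ : Fin s → ℂ) (G : MvPolynomial β (MvPolynomial (Fin s) ℂ)), G ≠ 0 →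
  (∀ m ∈ G.support, eval ζ (top (coeff m G)) ≠ 0) →
  (∀ m ∈ G.support, ∀ m' ∈ G.support, m ≠ m' →
    0 < (expo p m - expo p m').totalDegree ∧ (eval ζ (top (expo p m - expo p m'))).re ≠ 0) →
  ∀ δ : ℕ, (∀ m ∈ G.support, ∀ b, m b ≠ 0 → (p b).totalDegree ≤ δ) →
  ∃ ε : ℝ, 0 < ε ∧ ∃ R₀ : ℝ, 1 ≤ R₀ ∧ ∃ C : ℝ, 0 ≤ C ∧
  ∀ R : ℝ, R₀ ≤ R → ∀ v ∈ ball ζ ε,
    Real.exp (-(C * (R ^ δ + Real.log R))) ≤ ‖val p c (sc R v) G‖

/-- a real direction can be moved off the zeros of a polynomial: `{Re Φ = 0}` is totally real of the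
maximal dimension at `ζ`.  (If `q` vanishes on it near `ζ` then so do the partial derivatives of
`q`; induction on the degree.) -/
def S_AVOID : Prop := ∀ (s : ℕ) (Φ : Fin s → MvPolynomial (Fin s) ℂ) (ζ : Fin s → ℂ),
  (∀ a, (eval ζ (Φ a)).re = 0) → (jac Φ ζ).det ≠ 0 → ∀ q : MvPolynomial (Fin s) ℂ, q ≠ 0 →
  ∀ ε : ℝ, 0 < ε → ∃ ζ' ∈ ball ζ ε, (∀ a, (eval ζ' (Φ a)).re = 0) ∧ eval ζ' q ≠ 0

/-- holomorphic logarithms -/
def S_LOG : Prop := ∀ (s : ℕ) (U : Set (Fin s → ℂ)) (f : (Fin s → ℂ) → ℂ), IsOpen U → Convex ℝ U →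
  DifferentiableOn ℂ f U → (∀ v ∈ U, f v ≠ 0) →
  ∃ L : (Fin s → ℂ) → ℂ, DifferentiableOn ℂ L U ∧ ∀ v ∈ U, Complex.exp (L v) = f v

/-- Lipschitz bound from a bound of the real part (Borel-Caratheodory and Schwarz) -/
def S_BC : Prop := ∀ (s : ℕ) (ζ : Fin s → ℂ) (ε η : ℝ) (L : (Fin s → ℂ) → ℂ), 0 < ε → 0 < η →
  DifferentiableOn ℂ L (ball ζ ε) → (∀ v ∈ ball ζ ε, |(L v).re| ≤ η) →
  ∀ v ∈ ball ζ (ε / 4), ∀ w ∈ ball ζ (ε / 4), ‖L v - L w‖ ≤ 100 * η / ε * ‖v - w‖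

/-- solution of the equations `Φ_a(R v) - L_a(v) ∈ 2 π i ℤ`, `L_a` of smaller growth -/
def S_SOLVE : Prop := ∀ (s : ℕ) (Φ : Fin s → MvPolynomial (Fin s) ℂ) (ζ : Fin s → ℂ) (ε : ℝ),
  0 < ε → (∀ a, (eval ζ (top (Φ a))).re = 0) → (jac (fun a => top (Φ a)) ζ).det ≠ 0 →
  ∃ κ : ℝ, 0 < κ ∧ ∃ R₀ : ℝ, 1 ≤ R₀ ∧ ∀ R : ℝ, R₀ ≤ R → ∀ L : Fin s → (Fin s → ℂ) → ℂ,
  (∀ a, DifferentiableOn ℂ (L a) (ball ζ ε)) →
  (∀ a, ∀ v ∈ ball ζ ε, |(L a v).re| ≤ κ * R ^ (Φ a).totalDegree) →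
  ∃ v ∈ ball ζ ε, ∀ a, ∃ N : ℤ,
    eval (sc R v) (Φ a) - L a v = 2 * Real.pi * Complex.I * (N : ℂ)

/-- a primitive element of finitely many algebraic elements, with denominators -/
def S_MODEL : Prop := ∀ (A K κ : Type) [CommRing A] [IsDomain A] [IsIntegrallyClosed A] [Field K]
  [CharZero K] [Algebra A K] [Finite κ], Function.Injective (algebraMap A K) → ∀ y : κ → K,
  (∀ j, IsAlgebraic A (y j)) → ∃ (θ : K) (D Δ : A) (N : κ → Polynomial A) (U W : Polynomial A),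
    IsIntegral A θ ∧ D ≠ 0 ∧ Δ ≠ 0 ∧
    (∀ j, algebraMap A K D * y j = Polynomial.aeval θ (N j)) ∧
    U * minpoly A θ + W * Polynomial.derivative (minpoly A θ) = Polynomial.C Δ

/-- a real point off the zeros of a polynomial and off all rational hyperplanes -/
def S_GENREAL : Prop := ∀ (s : ℕ) (q : MvPolynomial (Fin s) ℂ), q ≠ 0 →
  ∃ a : Fin s → ℝ, eval (fun i => (a i : ℂ)) q ≠ 0 ∧
    ∀ m : Fin s → ℤ, m ≠ 0 → ∑ i, (m i : ℝ) * a i ≠ 0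

end Pool.Agent.K3h22.EX
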