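import Pool.Agent.K3h22.EX.TH

/-! EX project, linear spaces in general position, all dimensions: the polynomials of one set of
coordinates. -/

set_option autoImplicit false

namespace Pool.Agent.K3h22.EX

open MvPolynomial

variable {s n : ℕ}

theorem em_rename (ι : Fin s → Fin n) (B : Finset (Fin n)) :
    (em (n := n) ι (id : Fin n → Fin n)).comp (rename (R := MvPolynomial (Fin s) ℂ)
      (Subtype.val : {i // i ∈ B} → Fin n)).toRingHom = em ι (Subtype.val : {i // i ∈ B} → Fin n) := by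
  apply MvPolynomial.ringHom_ext
  · intro r
    simp [em]
  · intro i
    simp [em]

theorem em_eval₂ (ι : Fin s → Fin n) (B : Finset (Fin n))
    (g : Polynomial (MvPolynomial {i // i ∈ B} (MvPolynomial (Fin s) ℂ)))
    (x : MvPolynomial (Fin n) (MvPolynomial (Fin s) ℂ)) :
    em ι (id : Fin n → Fin n) (g.eval₂ (rename (R := MvPolynomial (Fin s) ℂ)
      (Subtype.val : {i // i ∈ B} → Fin n)).toRingHom x) =
      g.eval₂ (em ι Subtype.val) (em ι id x) := by
  rw [Polynomial.hom_eval₂, em_rename]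

theorem monomial_weights (J : Fin s → Fin n) (m : Fin s → ℕ) :
    (monomial (∑ a, Finsupp.single (J a) (m a)) 1 : MvPolynomial (Fin n) (MvPolynomial (Fin s) ℂ)) =
      ∏ a, X (J a) ^ m a := by
  rw [monomial_sum_one]
  exact Finset.prod_congr rfl fun a _ => (X_pow_eq_monomial).symm

theorem pr_single (j : Fin n) (k : ℕ) (w : Fin n → ℝ) : pr (Finsupp.single j k) w = k * w j := by
  classical
  unfold pr
  rw [Finset.sum_eq_single j]
  · simp
  · intro i _ hi
    simp [Finsupp.single_apply, hi.symm]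
  · intro h
    exact absurd (Finset.mem_univ j) h

theorem pr_sum {κ : Type} (t : Finset κ) (f : κ → (Fin n →₀ ℕ)) (w : Fin n → ℝ) :
    pr (∑ a ∈ t, f a) w = ∑ a ∈ t, pr (f a) w := by
  classical
  induction t using Finset.induction_on with
  | empty => simp [pr]
  | insert a t ha ih =>
    rw [Finset.sum_insert ha, Finset.sum_insert ha, ← ih]
    unfold pr
    rw [← Finset.sum_add_distrib]
    refine Finset.sum_congr rfl fun i _ => ?_
    rw [Finsupp.add_apply]
    push_cast
    ring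

/-- the relations for one set `B` of coordinates -/
theorem local_B (hSUPP : S_SUPP) (P : Ideal (MvPolynomial (Fin n ⊕ Fin n) ℂ))
    (ι : Fin s → Fin n) (ℓ : Fin n → Fin s → ℂ) (μ c : Fin n → ℂ)
    (H : MvPolynomial (Fin n ⊕ Fin n) ℂ) (hs : 1 ≤ s)
    (B : Finset (Fin n)) (J : Fin s → Fin n) (hJ : Function.Injective J) (hJB : ∀ a, J a ∉ B)
    (hdata : Nonempty (Pk P ι ℓ μ c H B J) ∨
      ∃ G : MvPolynomial {i // i ∈ B} (MvPolynomial (Fin s) ℂ), G ≠ 0 ∧ em ι Subtype.val G ∈ P) :
    ∃ p : Option (Fin s) → MvPolynomial (Fin n) (MvPolynomial (Fin s) ℂ),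
      (∀ o, p o ≠ 0 ∧ em ι id (p o) ∈ P) ∧
      ∀ w : Fin n → ℝ, (∀ m : {i // i ∈ B} → ℤ, m ≠ 0 → ∑ b, (m b : ℝ) * w b ≠ 0) →
        (∀ o, Twice (p o).support w) →
        ∃ (pk : Pk P ι ℓ μ c H B J) (r : Fin s → {i // i ∈ B} → ℚ), (∀ a, r a ∈ pk.S a) ∧
          (∀ a, w (J a) = ∑ b, (r a b : ℝ) * w b) ∧
          ∃ j ∈ pk.qq.support, ∃ k ∈ pk.qq.support, j < k ∧ ∃ x ∈ (pk.qq.coeff j).support,
          ∃ y ∈ (pk.qq.coeff k).support,
          ∑ b, (x b : ℝ) * w b + j * ∑ b : {i // i ∈ B}, (∑ a, (pk.m a : ℝ) * r a b) * w b =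
            ∑ b, (y b : ℝ) * w b + k * ∑ b : {i // i ∈ B}, (∑ a, (pk.m a : ℝ) * r a b) * w b ∧
          ∀ l ∈ pk.qq.support, ∀ x' ∈ (pk.qq.coeff l).support,
            ∑ b, (x' b : ℝ) * w b + l * ∑ b : {i // i ∈ B}, (∑ a, (pk.m a : ℝ) * r a b) * w b ≤
            ∑ b, (x b : ℝ) * w b + j * ∑ b : {i // i ∈ B}, (∑ a, (pk.m a : ℝ) * r a b) * w b := by
  classical
  rcases hdata with ⟨⟨pk⟩⟩ | ⟨G, hG, hGP⟩
  · set μg : Fin s → (Fin n →₀ ℕ) := fun a => Finsupp.single (J a) 1 with hμg
    set μq : Fin n →₀ ℕ := ∑ a, Finsupp.single (J a) (pk.m a) with hμq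
    have hg1 : ∀ a, (∀ i ∈ B, μg a i = 0) ∧ μg a ≠ 0 := by
      intro a
      refine ⟨fun i hi => ?_, fun h => ?_⟩
      · have : J a ≠ i := fun h => hJB a (h ▸ hi)
        simp [hμg, Finsupp.single_apply, this]
      · have := DFunLike.congr_fun h (J a)
        simp [hμg] at this
    have hq1 : (∀ i ∈ B, μq i = 0) ∧ μq ≠ 0 := by
      refine ⟨fun i hi => ?_, fun h => ?_⟩
      · rw [hμq, Finsupp.finsetSum_apply]
        refine Finset.sum_eq_zero fun a _ => ?_
        have : J a ≠ i := fun h => hJB a (h ▸ hi)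
        simp [Finsupp.single_apply, this]
      · have h1 := DFunLike.congr_fun h (J ⟨0, hs⟩)
        rw [hμq, Finsupp.finsetSum_apply, Finset.sum_eq_single (⟨0, hs⟩ : Fin s)] at h1
        · have h2 := pk.hm0 ⟨0, hs⟩
          simp at h1
          omega
        · intro a _ ha
          have : J a ≠ J ⟨0, hs⟩ := fun h => ha (hJ h)
          simp [Finsupp.single_apply, this]
        · intro h
          exact absurd (Finset.mem_univ _) h
    refine ⟨fun o => match o with
      | some a => (pk.T.g a).eval₂ (rename (R := MvPolynomial (Fin s) ℂ)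
          (Subtype.val : {i // i ∈ B} → Fin n)).toRingHom (monomial (μg a) 1)
      | none => pk.qq.eval₂ (rename (R := MvPolynomial (Fin s) ℂ)
          (Subtype.val : {i // i ∈ B} → Fin n)).toRingHom (monomial μq 1), ?_, ?_⟩
    · rintro (_ | a)
      · refine ⟨((hSUPP n s B).1 pk.qq μq hq1.1 hq1.2 pk.hqq0).1, ?_⟩
        simp only
        rw [em_eval₂, hμq, monomial_weights, map_prod]
        have h1 : ∀ a, em ι (id : Fin n → Fin n) (X (J a) ^ pk.m a) =
            (X (Sum.inr (J a)) : MvPolynomial (Fin n ⊕ Fin n) ℂ) ^ pk.m a := by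
          intro a
          rw [map_pow]
          simp [em]
        simp only [h1]
        exact pk.hqqP
      · refine ⟨((hSUPP n s B).1 (pk.T.g a) (μg a) (hg1 a).1 (hg1 a).2 (pk.T.hg a)).1, ?_⟩
        simp only
        rw [em_eval₂, hμg]
        have h1 : em ι (id : Fin n → Fin n) (monomial (Finsupp.single (J a) 1) 1) =
            (X (Sum.inr (J a)) : MvPolynomial (Fin n ⊕ Fin n) ℂ) := by
          change em ι (id : Fin n → Fin n) (X (J a)) = _
          simp [em]
        simp only [h1]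
        exact pk.hgP a
    · intro w hw htw
      have hr : ∀ a, ∃ ra : {i // i ∈ B} → ℚ, ra ∈ pk.S a ∧ w (J a) = ∑ b, (ra b : ℝ) * w b := by
        intro a
        obtain ⟨j, hj, k, hk, hjk, x, hx, y, hy, hxy, -⟩ :=
          ((hSUPP n s B).1 (pk.T.g a) (μg a) (hg1 a).1 (hg1 a).2 (pk.T.hg a)).2 w hw (htw (some a))
        refine ⟨_, pk.hS a j hj k hk hjk x hx y hy, ?_⟩
        have h1 : pr (μg a) w = w (J a) := by
          rw [hμg, pr_single]
          simp
        rw [h1] at hxy
        have h2 : (0 : ℝ) < (k : ℝ) - j := by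
          rw [sub_pos]
          exact_mod_cast hjk
        have h3 : ∑ b : {i // i ∈ B}, ((((x b : ℚ) - y b) / ((k : ℚ) - j) : ℚ) : ℝ) * w b =
            (∑ b, (x b : ℝ) * w b - ∑ b, (y b : ℝ) * w b) / ((k : ℝ) - j) := by
          rw [← Finset.sum_sub_distrib, Finset.sum_div]
          refine Finset.sum_congr rfl fun b _ => ?_
          push_cast
          ring
        rw [h3, eq_div_iff h2.ne']
        linarith
      choose r hrS hrw using hr
      refine ⟨pk, r, hrS, hrw, ?_⟩
      have h1 := ((hSUPP n s B).1 pk.qq μq hq1.1 hq1.2 pk.hqq0).2 w hw (htw none)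
      have h2 : pr μq w = ∑ b : {i // i ∈ B}, (∑ a, (pk.m a : ℝ) * r a b) * w b := by
        rw [hμq, pr_sum]
        simp only [pr_single, hrw, Finset.mul_sum, Finset.sum_mul]
        rw [Finset.sum_comm]
        exact Finset.sum_congr rfl fun b _ => Finset.sum_congr rfl fun a _ => by ring
      rw [h2] at h1
      exact h1
  · refine ⟨fun _ => rename Subtype.val G, fun _ => ⟨?_, ?_⟩, fun w hw htw => ?_⟩
    · exact (map_ne_zero_iff _ (rename_injective _ Subtype.val_injective)).2 hG
    · have h1 := congrArg (fun φ => φ G) (em_rename ι B)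
      simp only [RingHom.comp_apply, AlgHom.toRingHom_eq_coe, RingHom.coe_coe] at h1
      rw [h1]
      exact hGP
    · exact absurd (htw none) ((hSUPP n s B).2 G w hw)

end Pool.Agent.K3h22.EX
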