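import Pool.Agent.K3h22.EX.Stm2

/-! EX project: algebraic part (models over a primitive element). -/

set_option autoImplicit false

namespace Pool.Agent.K3h22.EX

open MvPolynomial

variable {s n : ℕ}

theorem eval_em {β : Type} (ι : Fin s → Fin n) (b : β → Fin n) (q : Fin n ⊕ Fin n → ℂ)
    (g : MvPolynomial β (MvPolynomial (Fin s) ℂ)) :
    eval q (em ι b g) =
      eval₂Hom (eval fun a => q (Sum.inl (ι a))) (fun i => q (Sum.inr (b i))) g := by
  have h : (eval q).comp (em ι b) =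
      eval₂Hom (eval fun a => q (Sum.inl (ι a))) (fun i => q (Sum.inr (b i))) := by
    apply MvPolynomial.ringHom_ext
    · intro r
      simp only [em, RingHom.comp_apply, eval₂Hom_C, AlgHom.toRingHom_eq_coe, RingHom.coe_coe]
      rw [eval_rename]
      rfl
    · intro i
      simp [em]
  exact congrArg (fun φ => φ g) h

theorem em_sum {β : Type} (ι : Fin s → Fin n) (b : β → Fin n)
    (g : MvPolynomial (β ⊕ Fin s) ℂ) :
    em ι b (sumAlgEquiv ℂ β (Fin s) g) =
      rename (Sum.elim (fun i => Sum.inr (b i)) fun a => Sum.inl (ι a)) g := by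
  have h : (em ι b).comp (sumAlgEquiv ℂ β (Fin s)).toAlgHom.toRingHom =
      (rename (R := ℂ) (Sum.elim (fun i => Sum.inr (b i)) fun a =>
        (Sum.inl (ι a) : Fin n ⊕ Fin n))).toRingHom := by
    apply MvPolynomial.ringHom_ext
    · intro r
      simp [em]
    · rintro (i | a)
      · simp [em]
      · simp [em]
  exact congrArg (fun φ => φ g) h

theorem em_inj {β : Type} {ι : Fin s → Fin n} {b : β → Fin n} (hι : Function.Injective ι)
    (hb : Function.Injective b) : Function.Injective (em ι b) := by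
  have hρ : Function.Injective (Sum.elim (fun i => Sum.inr (b i)) fun a =>
      (Sum.inl (ι a) : Fin n ⊕ Fin n)) := by
    rintro (i | a) (j | c) h
    · exact congrArg _ (hb (by simpa using h))
    · simp at h
    · simp at h
    · exact congrArg _ (hι (by simpa using h))
  intro g g' h
  obtain ⟨g, rfl⟩ := (sumAlgEquiv ℂ β (Fin s)).surjective g
  obtain ⟨g', rfl⟩ := (sumAlgEquiv ℂ β (Fin s)).surjective g'
  rw [em_sum, em_sum] at h
  rw [rename_injective _ hρ h]

theorem vars_em {β : Type} (ι : Fin s → Fin n) (b : β → Fin n)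
    (g : MvPolynomial β (MvPolynomial (Fin s) ℂ)) :
    ((em ι b g).vars : Set (Fin n ⊕ Fin n)) ⊆
      {v | (∃ a, v = Sum.inl (ι a)) ∨ ∃ i, v = Sum.inr (b i)} := by
  classical
  obtain ⟨g, rfl⟩ := (sumAlgEquiv ℂ β (Fin s)).surjective g
  rw [em_sum]
  intro v hv
  have h := vars_rename _ g hv
  rw [Finset.mem_image] at h
  obtain ⟨(i | a), -, rfl⟩ := h
  · exact Or.inr ⟨i, rfl⟩
  · exact Or.inl ⟨a, rfl⟩

/-- representation of the elements of a ring by polynomials in a primitive element -/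
theorem rep {σ A K : Type} [CommRing A] [Field K] [Algebra A K]
    (ψ : MvPolynomial σ ℂ →+* K) (a0 : ℂ →+* A) (hψ : ∀ c, ψ (C c) = algebraMap A K (a0 c))
    (θ : K) (D : A) (Gv : σ → Polynomial A)
    (hG : ∀ v, algebraMap A K D * ψ (X v) = Polynomial.aeval θ (Gv v))
    (f : MvPolynomial σ ℂ) :
    ∃ (M : ℕ) (G : Polynomial A), algebraMap A K D ^ M * ψ f = Polynomial.aeval θ G ∧
      ∀ (χ : A →+* ℂ) (t : ℂ) (q : σ → ℂ), (∀ c, χ (a0 c) = c) →
        (∀ v, χ D * q v = ((Gv v).map χ).eval t) →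
        χ D ^ M * eval q f = (G.map χ).eval t := by
  induction f using MvPolynomial.induction_on with
  | C c =>
    refine ⟨0, Polynomial.C (a0 c), ?_, ?_⟩
    · rw [pow_zero, one_mul, hψ, Polynomial.aeval_C]
    · intro χ t q h1 _
      rw [pow_zero, one_mul, eval_C, Polynomial.map_C, Polynomial.eval_C, h1]
  | add f g hf hg =>
    obtain ⟨M, F, h1, h2⟩ := hf
    obtain ⟨M', G, h3, h4⟩ := hg
    refine ⟨M + M', Polynomial.C (D ^ M') * F + Polynomial.C (D ^ M) * G, ?_, ?_⟩
    · rw [map_add, map_add, map_mul, map_mul, Polynomial.aeval_C, Polynomial.aeval_C, ← h1, ← h3,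
        map_pow, map_pow, pow_add]
      ring
    · intro χ t q h5 h6
      rw [map_add, Polynomial.map_add, Polynomial.eval_add, Polynomial.map_mul, Polynomial.map_mul,
        Polynomial.eval_mul, Polynomial.eval_mul, ← h2 χ t q h5 h6, ← h4 χ t q h5 h6,
        Polynomial.map_C, Polynomial.map_C, Polynomial.eval_C, Polynomial.eval_C, map_pow, map_pow,
        pow_add]
      ring
  | mul_X f v hf =>
    obtain ⟨M, F, h1, h2⟩ := hf
    refine ⟨M + 1, F * Gv v, ?_, ?_⟩
    · rw [map_mul, map_mul, ← h1, ← hG, pow_succ]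
      ring
    · intro χ t q h5 h6
      rw [map_mul, eval_X, Polynomial.map_mul, Polynomial.eval_mul, ← h2 χ t q h5 h6, ← h6 v,
        pow_succ]
      ring

/-- the specialised point is on the variety -/
theorem vanish {σ A K : Type} [CommRing A] [IsDomain A] [IsIntegrallyClosed A] [Field K]
    [Algebra A K] (hinj : Function.Injective (algebraMap A K))
    (ψ : MvPolynomial σ ℂ →+* K) (a0 : ℂ →+* A) (hψ : ∀ c, ψ (C c) = algebraMap A K (a0 c))
    (θ : K) (hθ : IsIntegral A θ) (D : A) (Gv : σ → Polynomial A)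
    (hG : ∀ v, algebraMap A K D * ψ (X v) = Polynomial.aeval θ (Gv v))
    (f : MvPolynomial σ ℂ) (hf : ψ f = 0) (χ : A →+* ℂ) (t : ℂ) (q : σ → ℂ)
    (h1 : ∀ c, χ (a0 c) = c) (h2 : ∀ v, χ D * q v = ((Gv v).map χ).eval t) (hD : χ D ≠ 0)
    (ht : ((minpoly A θ).map χ).eval t = 0) : eval q f = 0 := by
  obtain ⟨M, G, h3, h4⟩ := rep ψ a0 hψ θ D Gv hG f
  have htf : Module.IsTorsionFree A K := Module.isTorsionFree_iff_algebraMap_injective.2 hinj
  rw [hf, mul_zero] at h3
  obtain ⟨G', hG'⟩ := minpoly.isIntegrallyClosed_dvd hθ h3.symm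
  have h5 := h4 χ t q h1 h2
  rw [hG', Polynomial.map_mul, Polynomial.eval_mul, ht, zero_mul] at h5
  exact (mul_eq_zero.1 h5).resolve_left (pow_ne_zero _ hD)

/-- nonvanishing at the specialised points -/
theorem nonvanish {σ A K : Type} [CommRing A] [IsDomain A] [IsIntegrallyClosed A] [Field K]
    [Algebra A K] (hinj : Function.Injective (algebraMap A K))
    (ψ : MvPolynomial σ ℂ →+* K) (a0 : ℂ →+* A) (hψ : ∀ c, ψ (C c) = algebraMap A K (a0 c))
    (θ : K) (hθ : IsIntegral A θ) (D : A) (hD0 : D ≠ 0) (Gv : σ → Polynomial A)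
    (hG : ∀ v, algebraMap A K D * ψ (X v) = Polynomial.aeval θ (Gv v))
    (f : MvPolynomial σ ℂ) (hf : ψ f ≠ 0) : ∃ g0 : A, g0 ≠ 0 ∧ ∀ (χ : A →+* ℂ) (t : ℂ) (q : σ → ℂ),
      (∀ c, χ (a0 c) = c) → (∀ v, χ D * q v = ((Gv v).map χ).eval t) →
      ((minpoly A θ).map χ).eval t = 0 → χ g0 ≠ 0 → eval q f ≠ 0 := by
  obtain ⟨M, G, h3, h4⟩ := rep ψ a0 hψ θ D Gv hG f
  have htf : Module.IsTorsionFree A K := Module.isTorsionFree_iff_algebraMap_injective.2 hinj
  have hne : Polynomial.aeval θ G ≠ 0 := by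
    rw [← h3]
    exact mul_ne_zero (pow_ne_zero _ ((map_ne_zero_iff _ hinj).2 hD0)) hf
  have hint : IsIntegral A (Polynomial.aeval θ G) := by
    refine IsIntegral.of_mem_of_fg (Algebra.adjoin A {θ}) hθ.fg_adjoin_singleton _ ?_
    exact Polynomial.aeval_mem_adjoin_singleton A θ
  have : Nontrivial A := inferInstance
  obtain ⟨h, hh0, hh⟩ := hint.isAlgebraic.exists_nonzero_coeff_and_aeval_eq_zero
    (mem_nonZeroDivisors_of_ne_zero hne)
  refine ⟨h.coeff 0, hh0, fun χ t q h1 h2 ht hg0 h0 => hg0 ?_⟩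
  have h5 := h4 χ t q h1 h2
  rw [h0, mul_zero] at h5
  have h6 : Polynomial.aeval θ (h.comp G) = 0 := by
    rw [Polynomial.aeval_comp]
    exact hh
  obtain ⟨G', hG'⟩ := minpoly.isIntegrallyClosed_dvd hθ h6
  have h7 : ((h.comp G).map χ).eval t = 0 := by
    rw [hG', Polynomial.map_mul, Polynomial.eval_mul, ht, zero_mul]
  rw [Polynomial.map_comp, Polynomial.eval_comp, ← h5, ← Polynomial.coeff_zero_eq_eval_zero,
    Polynomial.coeff_map] at h7
  exact h7

end Pool.Agent.K3h22.EX
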