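import Pool.Agent.K3h22.EX.Core3
import Pool.Agent.K3h74.EX.TopUpp
import Pool.Agent.K3h33.EX.Avoid
import Pool.Agent.K3h60.EX.LogBC
import Pool.Agent.K3h60.EX.Der
import Pool.Agent.K3h30.EX.Model
import Pool.Agent.K3h76.EX.Dom
import Pool.Agent.K3h67.EX.Solve
import Pool.Agent.K3h91.EX.Prep
import Pool.Agent.K3h43.EX.Rowb
import Pool.Agent.K3h43.EX.Hroot
import Pool.Agent.K3h87.EX.Dompt
import Pool.Agent.K3h87.EX.Baire
import Pool.Agent.K3h70.EX.Reg

/-! EX project: exponential points on translates of varieties over graphs of polynomial maps. -/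

set_option autoImplicit false

namespace Pool.Agent.K3h22.EX

open MvPolynomial

variable {s n : ℕ}

theorem tTOP : S_TOP := Pool.Agent.K3h74.EX.t_TOP

theorem tPREP : S_PREP := Pool.Agent.K3h91.EX.t_PREP (Pool.Agent.K3h76.EX.t_DOM tTOP)

theorem tROWB : S_ROWB := Pool.Agent.K3h43.EX.t_ROWB Pool.Agent.K3h74.EX.t_UPP

theorem tSOLVE : S_SOLVE := Pool.Agent.K3h67.EX.t_SOLVE tTOP Pool.Agent.K3h60.EX.t_BC

/-- the rows with index in the complement of `J` -/
def compl (J : Fin s → Fin n) : Finset (Fin n) := Finset.univ.filter fun i => ∀ a, J a ≠ i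

theorem mem_compl {J : Fin s → Fin n} {i : Fin n} : i ∈ compl J ↔ ∀ a, J a ≠ i := by
  simp [compl]

/-- transport to a translate -/
theorem transport (P : Ideal (MvPolynomial (Fin n ⊕ Fin n) ℂ)) (V : Set (Fin n ⊕ Fin n → ℂ))
    (hV : V = {p | (∀ f ∈ P, eval p f = 0) ∧ ∀ j : Fin n, p (Sum.inr j) ≠ 0})
    (p : Fin n → MvPolynomial (Fin s) ℂ)
    (hcore : ∀ (c : Fin n → ℂ) (H : MvPolynomial (Fin n ⊕ Fin n) ℂ), H ∉ P →
      ∃ z : Fin s → ℂ,
        (∀ F ∈ P, eval (Sum.elim (fun i => eval z (p i))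
          fun i => Complex.exp (eval z (p i) + c i)) F = 0) ∧
        eval (Sum.elim (fun i => eval z (p i)) fun i => Complex.exp (eval z (p i) + c i)) H ≠ 0)
    (c : Fin n ⊕ Fin n → ℂ) (hc : ∀ i, c (Sum.inr i) ≠ 0)
    (H : MvPolynomial (Fin n ⊕ Fin n) ℂ)
    (hH : ∃ u ∈ V, eval (Sum.elim (fun i => u (Sum.inl i) + c (Sum.inl i))
      (fun i => c (Sum.inr i) * u (Sum.inr i))) H ≠ 0) :
    ∃ z : Fin n → ℂ, (∃ u ∈ V, (Sum.elim z fun i => Complex.exp (z i) : Fin n ⊕ Fin n → ℂ) =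
      Sum.elim (fun i => u (Sum.inl i) + c (Sum.inl i))
        (fun i => c (Sum.inr i) * u (Sum.inr i))) ∧
      eval (Sum.elim z fun i => Complex.exp (z i)) H ≠ 0 := by
  set H' : MvPolynomial (Fin n ⊕ Fin n) ℂ := bind₁ (Sum.elim
    (fun i => X (Sum.inl i) + C (c (Sum.inl i))) (fun i => C (c (Sum.inr i)) * X (Sum.inr i))) H
    with hH'
  have hev : ∀ u : Fin n ⊕ Fin n → ℂ, eval u H' =
      eval (Sum.elim (fun i => u (Sum.inl i) + c (Sum.inl i))
        (fun i => c (Sum.inr i) * u (Sum.inr i))) H := by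
    intro u
    have h : (fun i => eval u ((Sum.elim (fun i => X (Sum.inl i) + C (c (Sum.inl i)))
        (fun i => C (c (Sum.inr i)) * X (Sum.inr i)) :
          Fin n ⊕ Fin n → MvPolynomial (Fin n ⊕ Fin n) ℂ) i)) =
        Sum.elim (fun i => u (Sum.inl i) + c (Sum.inl i))
          (fun i => c (Sum.inr i) * u (Sum.inr i)) := by
      funext i
      rcases i with i | i <;> simp
    rw [← h, hH']
    change (eval u) (bind₁ _ H) = _
    rw [← coe_aeval_eq_eval, ← AlgHom.toRingHom_eq_coe, AlgHom.toRingHom_eq_coe, RingHom.coe_coe,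
      aeval_bind₁]
    rfl
  obtain ⟨u, hu, hu'⟩ := hH
  have hHP : H' ∉ P := by
    intro h
    rw [hV] at hu
    rw [← hev] at hu'
    exact hu' (hu.1 _ h)
  obtain ⟨z, hz1, hz2⟩ := hcore (fun i => c (Sum.inl i) - Complex.log (c (Sum.inr i))) H' hHP
  set q : Fin n ⊕ Fin n → ℂ := Sum.elim (fun i => eval z (p i))
    fun i => Complex.exp (eval z (p i) + (c (Sum.inl i) - Complex.log (c (Sum.inr i)))) with hq
  have h1 : (Sum.elim (fun i => eval z (p i) + c (Sum.inl i))
      fun i => Complex.exp (eval z (p i) + c (Sum.inl i)) : Fin n ⊕ Fin n → ℂ) =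
      Sum.elim (fun i => q (Sum.inl i) + c (Sum.inl i))
        (fun i => c (Sum.inr i) * q (Sum.inr i)) := by
    funext i
    rcases i with i | i
    · simp [hq]
    · simp only [hq, Sum.elim_inr]
      have h2 : eval z (p i) + (c (Sum.inl i) - Complex.log (c (Sum.inr i))) =
          (eval z (p i) + c (Sum.inl i)) - Complex.log (c (Sum.inr i)) := by ring
      rw [h2, Complex.exp_sub, Complex.exp_log (hc i), mul_div_cancel₀ _ (hc i)]
  refine ⟨fun i => eval z (p i) + c (Sum.inl i), ⟨q, ?_, h1⟩, ?_⟩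
  · rw [hV]
    exact ⟨hz1, fun j => Complex.exp_ne_zero _⟩
  · rw [h1, ← hev]
    exact hz2

/-- the parametrisation has the coordinates as components -/
theorem p_iota (P : Ideal (MvPolynomial (Fin n ⊕ Fin n) ℂ)) (ι : Fin s → Fin n)
    (p : Fin n → MvPolynomial (Fin s) ℂ) (B : Finset (Fin n))
    (h2 : ∀ i, X (Sum.inl i) - rename (fun a => Sum.inl (ι a)) (p i) ∈ P)
    (h4 : ∀ g : MvPolynomial {i // i ∈ B} (MvPolynomial (Fin s) ℂ),
      em ι Subtype.val g ∈ P → g = 0) (a : Fin s) : p (ι a) = X a := by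
  have h := h4 (C (X a - p (ι a))) (by
    have h1 : em (n := n) ι (Subtype.val : {i // i ∈ B} → Fin n) (C (X a - p (ι a))) =
        X (Sum.inl (ι a)) - rename (fun a => Sum.inl (ι a)) (p (ι a)) := by
      simp [em]
    rw [h1]
    exact h2 (ι a))
  have h1 := (C_eq_zero (σ := {i // i ∈ B})).1 h
  exact (sub_eq_zero.1 h1).symm

/-- existence of exponential points, with a regular direction -/
theorem main1 (P : Ideal (MvPolynomial (Fin n ⊕ Fin n) ℂ)) (V : Set (Fin n ⊕ Fin n → ℂ))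
    (hP : P.IsPrime)
    (hV : V = {p | (∀ f ∈ P, eval p f = 0) ∧ ∀ j : Fin n, p (Sum.inr j) ≠ 0})
    (hne : V.Nonempty) (ι : Fin s → Fin n) (hι : Function.Injective ι)
    (p : Fin n → MvPolynomial (Fin s) ℂ)
    (hp : ∀ u ∈ V, ∀ i, u (Sum.inl i) = eval (fun a => u (Sum.inl (ι a))) (p i))
    (J : Fin s → Fin n) (hJ : Function.Injective J)
    (hind : Indep V (coords ι (compl J)))
    (halg : ∀ a, ¬ Indep V (insert (Sum.inr (J a)) (coords ι ((compl J).filter
      fun i => (p i).totalDegree < (p (J a)).totalDegree))))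
    (ζ : Fin s → ℂ) (hζ1 : ∀ a, (eval ζ (top (p (J a)))).re = 0)
    (hζ2 : (jac (fun a => top (p (J a))) ζ).det ≠ 0)
    (hζ3 : ∀ m : Fin n → ℤ, m ≠ 0 → (∀ a, m (J a) = 0) →
      0 < (∑ i, (m i : MvPolynomial (Fin s) ℂ) * p i).totalDegree ∧
      (eval ζ (top (∑ i, (m i : MvPolynomial (Fin s) ℂ) * p i))).re ≠ 0)
    (c : Fin n ⊕ Fin n → ℂ) (hc : ∀ i, c (Sum.inr i) ≠ 0)
    (H : MvPolynomial (Fin n ⊕ Fin n) ℂ)
    (hH : ∃ u ∈ V, eval (Sum.elim (fun i => u (Sum.inl i) + c (Sum.inl i))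
      (fun i => c (Sum.inr i) * u (Sum.inr i))) H ≠ 0) :
    ∃ z : Fin n → ℂ, (∃ u ∈ V, (Sum.elim z fun i => Complex.exp (z i) : Fin n ⊕ Fin n → ℂ) =
      Sum.elim (fun i => u (Sum.inl i) + c (Sum.inl i))
        (fun i => c (Sum.inr i) * u (Sum.inr i))) ∧
      eval (Sum.elim z fun i => Complex.exp (z i)) H ≠ 0 := by
  classical
  obtain ⟨-, d2, d3, d4, d5⟩ := Pool.Agent.K3h60.EX.t_DER n s P V hP hV hne ι hι
  have h2 : ∀ i, X (Sum.inl i) - rename (fun a => Sum.inl (ι a)) (p i) ∈ P := fun i =>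
    d2 i (p i) fun u hu => hp u hu i
  have h4 := d4 (compl J) hind
  have hreg : Reg (fun i : {i // i ∈ compl J} => p i) ζ := by
    intro m hm
    let m' : Fin n → ℤ := fun i => if h : i ∈ compl J then m ⟨i, h⟩ else 0
    have hm' : m' ≠ 0 := by
      obtain ⟨i, hi⟩ := Function.ne_iff.1 hm
      refine Function.ne_iff.2 ⟨i.1, ?_⟩
      have : m' i.1 = m i := dif_pos i.2
      rw [this]
      exact hi
    have hmJ : ∀ a, m' (J a) = 0 := fun a => dif_neg fun h => mem_compl.1 h a rfl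
    have h := hζ3 m' hm' hmJ
    have hsum : (∑ i, (m' i : MvPolynomial (Fin s) ℂ) * p i) =
        ∑ b : {i // i ∈ compl J}, (m b : MvPolynomial (Fin s) ℂ) * p b := by
      have h1 : (∑ b : {i // i ∈ compl J}, (m b : MvPolynomial (Fin s) ℂ) * p b) =
          ∑ i ∈ compl J, (m' i : MvPolynomial (Fin s) ℂ) * p i := by
        rw [← Finset.sum_coe_sort (compl J)]
        refine Finset.sum_congr rfl fun i _ => ?_
        have : m' i.1 = m i := dif_pos i.2
        rw [this]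
      rw [h1]
      refine (Finset.sum_subset (Finset.subset_univ _) fun i _ hi => ?_).symm
      have : m' i = 0 := dif_neg hi
      rw [this, Int.cast_zero, zero_mul]
    rw [hsum] at h
    exact h
  refine transport P V hV p (fun c H hH => ?_) c hc H hH
  exact core tPREP tROWB Pool.Agent.K3h43.EX.t_HROOT Pool.Agent.K3h43.EX.t_VALHOL
    Pool.Agent.K3h30.EX.t_MODEL Pool.Agent.K3h33.EX.t_AVOID Pool.Agent.K3h60.EX.t_LOG tSOLVE
    P hP ι p (p_iota P ι p (compl J) h2 h4) J hJ (compl J)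
    (fun a h => mem_compl.1 h a rfl)
    (fun i hi => by
      rw [mem_compl] at hi
      push Not at hi
      exact hi)
    h2 (fun a => d3 (J a)) h4
    (fun a => (compl J).filter fun i => (p i).totalDegree < (p (J a)).totalDegree)
    (fun a => Finset.filter_subset _ _) (fun a i hi => (Finset.mem_filter.1 hi).2)
    (fun a => d5 _ (J a) (halg a)) ζ hζ1 hζ2 hreg c H hH

end Pool.Agent.K3h22.EX
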