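import Pool.Agent.K3h22.EX.Stm5

/-! EX project (helper22), sixth part: varieties over linear spaces in general position for all
dimensions; exact statements of the parts. -/

set_option autoImplicit false

namespace Pool.Agent.K3h22.EX

open MvPolynomial Filter Topology Metric Set

/-- the exponent of growth of the monomial with exponents `a` in the direction `w` -/
def pr {n : ℕ} (a : Fin n →₀ ℕ) (w : Fin n → ℝ) : ℝ := ∑ i, (a i : ℝ) * w i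

/-- the largest growth of the monomials with exponents in `S` is attained at least twice -/
def Twice {n : ℕ} (S : Finset (Fin n →₀ ℕ)) (w : Fin n → ℝ) : Prop :=
  ∃ a ∈ S, ∃ b ∈ S, a ≠ b ∧ pr a w = pr b w ∧ ∀ e ∈ S, pr e w ≤ pr a w

/-- the directions in which `a k`, `b k` have the largest growth in `S k` -/
def Sec {n : ℕ} {κ : Type} (a b : κ → (Fin n →₀ ℕ)) (S : κ → Finset (Fin n →₀ ℕ)) :
    Set (Fin n → ℝ) :=
  {w | ∀ k, pr (a k) w = pr (b k) w ∧ ∀ e ∈ S k, pr e w ≤ pr (a k) w}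

/-- for each rational subspace `N = ker M`: `Q ∩ N = 0` or `Q + N = ℝ^n` -/
def GQ {n : ℕ} (Q : Submodule ℝ (Fin n → ℝ)) : Prop :=
  ∀ (k : ℕ) (M : Fin k → Fin n → ℤ),
    (∀ x ∈ Q, (∀ i, ∑ j, (M i j : ℝ) * x j = 0) → x = 0) ∨
    ∀ x : Fin n → ℝ, ∃ q ∈ Q, ∀ i, ∑ j, (M i j : ℝ) * q j = ∑ j, (M i j : ℝ) * x j

/-- `dim L = s`, and `L` lies in no hyperplane `∑ c_i x_i = d` with real coefficients which span a
rational vector space of dimension `≤ 2 s`, or with complex coefficients which span a rational vector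
space of dimension `≤ s` -/
def GenPos2 {n : ℕ} (s : ℕ) (L : AffineSubspace ℂ (Fin n → ℂ)) : Prop :=
  Module.finrank ℂ L.direction = s ∧
  (∀ c : Fin n → ℝ, c ≠ 0 → Module.finrank ℚ (Submodule.span ℚ (Set.range c)) ≤ 2 * s →
    ∃ v ∈ L.direction, ∑ i, (c i : ℂ) * v i ≠ 0) ∧
  ∀ c : Fin n → ℂ, c ≠ 0 → Module.finrank ℚ (Submodule.span ℚ (Set.range c)) ≤ s →
    ∃ v ∈ L.direction, ∑ i, c i * v i ≠ 0

/-- a slope of the Newton polygon is attained by a root -/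
def S_ROOTEX : Prop := ∀ (g : Polynomial ℂ) (E : ℕ → ℝ) (K x : ℝ), 0 ≤ K →
  (∀ k ∈ g.support, |Real.log ‖g.coeff k‖ - E k| ≤ K) →
  ∀ j ∈ g.support, ∀ k ∈ g.support, j ≠ k → E j + j * x = E k + k * x →
  (∀ l ∈ g.support, E l + l * x ≤ E j + j * x) →
  ∃ t : ℂ, g.eval t = 0 ∧ t ≠ 0 ∧ |Real.log ‖t‖ - x| ≤ 2 * K + 2 * (g.natDegree + 1)

/-- weights which separate finitely many vectors -/
def S_SEP : Prop := ∀ (s : ℕ) (β : Type) [Fintype β] (S : Fin s → Finset (β → ℚ)),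
  ∃ m : Fin s → ℕ, (∀ a, 0 < m a) ∧ ∀ x y : Fin s → β → ℚ, (∀ a, x a ∈ S a) → (∀ a, y a ∈ S a) →
    (∀ b, ∑ a, (m a : ℚ) * x a b = ∑ a, (m a : ℚ) * y a b) → x = y

/-- the polynomial with roots `∏ (N_a(u) / D)^{m_a}`, `u` the roots of `f` (resultant) -/
def S_RESQ : Prop := ∀ (A F : Type) [CommRing A] [IsDomain A] [Field F] [Algebra A F] (s : ℕ)
  (f : Polynomial A) (θ : F) (D : A) (N : Fin s → Polynomial A) (y : Fin s → F) (m : Fin s → ℕ),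
  Function.Injective (algebraMap A F) → f.Monic → Polynomial.aeval θ f = 0 → D ≠ 0 →
  (∀ a, algebraMap A F D * y a = Polynomial.aeval θ (N a)) →
  ∃ q : Polynomial A, q ≠ 0 ∧ Polynomial.aeval (∏ a, y a ^ m a) q = 0 ∧
    ∀ χ : A →+* ℂ, χ D ≠ 0 → ∀ t : ℂ, (q.map χ).eval t = 0 →
      ∃ u : ℂ, (f.map χ).eval u = 0 ∧ t = ∏ a, (((N a).map χ).eval u / χ D) ^ m a

/-- a valuation ring with `t_0 ≪ t_1 ≪ ... ≪ t_{d-1} ≪ 1` (lexicographic), trivial on `K` -/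
def S_VAL : Prop := ∀ (K F : Type) [Field K] [Field F] [Algebra K F] (d : ℕ) (t : Fin d → F),
  AlgebraicIndependent K t → ∃ O : ValuationSubring F, (∀ x : K, algebraMap K F x ∈ O) ∧
    ∀ e : Fin d → ℤ, (∃ i, (∀ j < i, e j = 0) ∧ 0 < e i) → O.valuation (∏ i, t i ^ e i) < 1

/-- a transcendence basis of monomials in `y` such that the given monomials are algebraic over the
last `d` elements -/
def S_TRM : Prop := ∀ (K F : Type) [Field K] [Field F] [Algebra K F] (n d c : ℕ) (y : Fin n → F),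
  (∀ j, y j ≠ 0) →
  (∃ B : Finset (Fin n), B.card = d + 1 ∧ AlgebraicIndependent K (fun b : {i // i ∈ B} => y b)) →
  (∀ B : Finset (Fin n), B.card = d + 2 →
    ¬ AlgebraicIndependent K (fun b : {i // i ∈ B} => y b)) → c ≤ d →
  ∀ m : Fin c → Fin n → ℤ, ∃ u : Fin (d + 1) → Fin n → ℤ,
    AlgebraicIndependent K (fun i => ∏ j, y j ^ u i j) ∧
    (∀ j, IsAlgebraic (Algebra.adjoin K (Set.range fun i => ∏ j, y j ^ u i j)) (y j)) ∧
    ∀ i, IsAlgebraic (Algebra.adjoin K (Set.range fun i : Fin d => ∏ j, y j ^ u i.succ j))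
      (∏ j, y j ^ m i j)

/-- flags of directions in which all relations have at least two dominant monomials -/
def S_FLAG : Prop := ∀ (A F : Type) [CommRing A] [IsDomain A] [Field F] [Algebra A F]
  (n d c : ℕ) (y : Fin n → F), Function.Injective (algebraMap A F) → (∀ j, y j ≠ 0) →
  (∃ B : Finset (Fin n), B.card = d + 1 ∧ AlgebraicIndependent A (fun b : {i // i ∈ B} => y b)) →
  (∀ B : Finset (Fin n), B.card = d + 2 →
    ¬ AlgebraicIndependent A (fun b : {i // i ∈ B} => y b)) → c ≤ d →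
  ∀ (m : Fin c → Fin n → ℤ) (κ : Type) [Finite κ] (p : κ → MvPolynomial (Fin n) A),
  (∀ k, p k ≠ 0 ∧ aeval y (p k) = 0) →
  ∃ w : Fin (d + 1) → Fin n → ℚ, LinearIndependent ℚ w ∧
    (∀ i, ∑ j, (m i j : ℚ) * w 0 j = 0) ∧ ∃ ε₀ : ℝ, 0 < ε₀ ∧ ∀ ε : ℝ, 0 < ε → ε < ε₀ → ∀ k,
      Twice (p k).support (fun j => ∑ i : Fin (d + 1), ε ^ (i : ℕ) * (w i j : ℝ))

/-- from flags over all rational subspaces to one sector over a real subspace -/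
def S_CONE1 : Prop := ∀ (n d c : ℕ) (N : Fin c → Fin n → ℝ) (κ : Type) [Finite κ]
  (S : κ → Finset (Fin n →₀ ℕ)),
  (∀ m : Fin c → Fin n → ℤ, ∃ w : Fin (d + 1) → Fin n → ℚ, LinearIndependent ℚ w ∧
    (∀ i, ∑ j, (m i j : ℚ) * w 0 j = 0) ∧ ∃ ε₀ : ℝ, 0 < ε₀ ∧ ∀ ε : ℝ, 0 < ε → ε < ε₀ → ∀ k,
      Twice (S k) (fun j => ∑ i : Fin (d + 1), ε ^ (i : ℕ) * (w i j : ℝ))) →
  ∃ a b : κ → (Fin n →₀ ℕ), (∀ k, a k ∈ S k ∧ b k ∈ S k ∧ a k ≠ b k) ∧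
    ∃ w₀ ∈ Sec a b S, w₀ ≠ 0 ∧ (∀ i, ∑ j, N i j * w₀ j = 0) ∧
    ∃ W : Fin (d + 1) → Fin n → ℝ, LinearIndependent ℝ W ∧
      ∀ i, W i ∈ Submodule.span ℝ (Sec a b S)

/-- a point of `Q` in a rational cone can be moved to one of large rational rank -/
def S_CONE2 : Prop := ∀ (n d : ℕ) (Q : Submodule ℝ (Fin n → ℝ)), GQ Q →
  ∀ (I : Type) [Finite I] (p : I → Fin n → ℤ) (w₀ : Fin n → ℝ), w₀ ∈ Q → w₀ ≠ 0 →
  (∀ i, 0 ≤ ∑ j, (p i j : ℝ) * w₀ j) →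
  (∃ W : Fin d → Fin n → ℝ, LinearIndependent ℝ W ∧
    ∀ i, W i ∈ Submodule.span ℝ {w | ∀ i, 0 ≤ ∑ j, (p i j : ℝ) * w j}) →
  ∃ w ∈ Q, (∀ i, 0 ≤ ∑ j, (p i j : ℝ) * w j) ∧ ∃ B : Finset (Fin n), B.card = d ∧
    ∀ m : {i // i ∈ B} → ℤ, m ≠ 0 → ∑ b, (m b : ℝ) * w b ≠ 0

/-- the real parts of the points of a complex subspace in general position -/
def S_GPQ : Prop := ∀ (s n : ℕ) (ℓ : Fin n → Fin s → ℂ),
  (∀ (k : ℕ) (M : Fin k → Fin n → ℚ) (c : Fin k → ℝ), k ≤ 2 * s → LinearIndependent ℚ M →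
    (∀ a, ∑ i, (c i : ℂ) * ∑ j, (M i j : ℂ) * ℓ j a = 0) → c = 0) →
  ∃ (Q : Submodule ℝ (Fin n → ℝ)) (N : Fin (n - 2 * s) → Fin n → ℝ), GQ Q ∧
    (∀ w ∈ Q, ∃ ζ : Fin s → ℂ, ∀ i, (dot (ℓ i) ζ).re = w i) ∧
    ∀ w, (∀ i, ∑ j, N i j * w j = 0) → w ∈ Q

/-- coordinates on `L` -/
def S_COORD2 : Prop := ∀ (n s : ℕ) (V : Set (Fin n ⊕ Fin n → ℂ))
  (L : AffineSubspace ℂ (Fin n → ℂ)), GenPos2 s L → V.Nonempty →
  (∀ u ∈ V, (fun i => u (Sum.inl i)) ∈ L) →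
  (∀ f : MvPolynomial (Fin n) ℂ, (∀ u ∈ V, eval (fun i => u (Sum.inl i)) f = 0) →
    ∀ x ∈ L, eval x f = 0) →
  ∃ (ι : Fin s → Fin n) (ℓ : Fin n → Fin s → ℂ) (μ : Fin n → ℂ), Function.Injective ι ∧
    (∀ u ∈ V, ∀ i, u (Sum.inl i) = ∑ a, ℓ i a * u (Sum.inl (ι a)) + μ i) ∧
    Indep V (coords ι ∅) ∧
    (∀ (k : ℕ) (M : Fin k → Fin n → ℚ) (c : Fin k → ℝ), k ≤ 2 * s → LinearIndependent ℚ M →
      (∀ a, ∑ i, (c i : ℂ) * ∑ j, (M i j : ℂ) * ℓ j a = 0) → c = 0) ∧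
    ∀ M : Matrix (Fin s) (Fin n) ℚ, LinearIndependent ℚ (fun a => M a) →
      (Matrix.of fun a j => ∑ i, (M a i : ℂ) * ℓ i j).det ≠ 0

/-- the old condition implies the new one -/
def S_HYP2 : Prop := ∀ (n s : ℕ) (L : AffineSubspace ℂ (Fin n → ℂ)), GenPos s L → GenPos2 s L

/-- linear spaces with algebraically independent coefficients are in general position -/
def S_GENA : Prop := ∀ (n s : ℕ) (L : AffineSubspace ℂ (Fin n → ℂ)) (A : Fin n → Fin s → ℂ)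
  (u : Fin n → ℂ), s ≤ n →
  (∀ x, x ∈ L ↔ ∃ z : Fin s → ℂ, ∀ i, x i = u i + ∑ a, A i a * z a) →
  AlgebraicIndependent ℚ (Sum.elim (fun p : Fin n × Fin s => (A p.1 p.2).re)
    (fun p : Fin n × Fin s => (A p.1 p.2).im)) → GenPos2 s L

/-- two dominant monomials of a polynomial relation -/
def S_SUPP : Prop := ∀ (n s : ℕ) (B : Finset (Fin n)),
  (∀ (g : Polynomial (MvPolynomial {i // i ∈ B} (MvPolynomial (Fin s) ℂ))) (μ : Fin n →₀ ℕ),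
    (∀ i ∈ B, μ i = 0) → μ ≠ 0 → g ≠ 0 →
    g.eval₂ (rename (R := MvPolynomial (Fin s) ℂ)
      (Subtype.val : {i // i ∈ B} → Fin n)).toRingHom (monomial μ 1) ≠ 0 ∧
    ∀ w : Fin n → ℝ, (∀ m : {i // i ∈ B} → ℤ, m ≠ 0 → ∑ b, (m b : ℝ) * w b ≠ 0) →
      Twice (g.eval₂ (rename (R := MvPolynomial (Fin s) ℂ)
        (Subtype.val : {i // i ∈ B} → Fin n)).toRingHom (monomial μ 1)).support w →
      ∃ j ∈ g.support, ∃ k ∈ g.support, j < k ∧ ∃ e ∈ (g.coeff j).support,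
        ∃ e' ∈ (g.coeff k).support,
        ∑ b, (e b : ℝ) * w b + j * pr μ w = ∑ b, (e' b : ℝ) * w b + k * pr μ w ∧
        ∀ l ∈ g.support, ∀ e'' ∈ (g.coeff l).support,
          ∑ b, (e'' b : ℝ) * w b + l * pr μ w ≤ ∑ b, (e b : ℝ) * w b + j * pr μ w) ∧
  ∀ (G : MvPolynomial {i // i ∈ B} (MvPolynomial (Fin s) ℂ)) (w : Fin n → ℝ),
    (∀ m : {i // i ∈ B} → ℤ, m ≠ 0 → ∑ b, (m b : ℝ) * w b ≠ 0) →
    ¬ Twice (rename (R := MvPolynomial (Fin s) ℂ)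
      (Subtype.val : {i // i ∈ B} → Fin n) G).support w

end Pool.Agent.K3h22.EX
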