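import Pool.Agent.K3h22.EX.TF
import Pool.Agent.K3h22.EX.TG

/-! EX project, linear spaces in general position, all dimensions: the direction. -/

set_option autoImplicit false

namespace Pool.Agent.K3h22.EX

open MvPolynomial

/-- a direction of large rational rank in `Q` -/
theorem cone_all (h1 : S_CONE1) (h2 : S_CONE2) (n d c : ℕ) (Q : Submodule ℝ (Fin n → ℝ)) (hQ : GQ Q)
    (N : Fin c → Fin n → ℝ) (hN : ∀ w, (∀ i, ∑ j, N i j * w j = 0) → w ∈ Q)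
    (κ : Type) [Finite κ] (S : κ → Finset (Fin n →₀ ℕ))
    (hflag : ∀ m : Fin c → Fin n → ℤ, ∃ w : Fin (d + 1) → Fin n → ℚ, LinearIndependent ℚ w ∧
      (∀ i, ∑ j, (m i j : ℚ) * w 0 j = 0) ∧ ∃ ε₀ : ℝ, 0 < ε₀ ∧ ∀ ε : ℝ, 0 < ε → ε < ε₀ → ∀ k,
        Twice (S k) (fun j => ∑ i : Fin (d + 1), ε ^ (i : ℕ) * (w i j : ℝ))) :
    ∃ w ∈ Q, (∀ k, Twice (S k) w) ∧ ∃ B : Finset (Fin n), B.card = d + 1 ∧
      ∀ m : {i // i ∈ B} → ℤ, m ≠ 0 → ∑ b, (m b : ℝ) * w b ≠ 0 := by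
  classical
  obtain ⟨a, b, hab, w₀, hw₀, hw₀0, hNw₀, W, hW, hWs⟩ := h1 n d c N κ S hflag
  let p : (Σ k, {e // e ∈ S k}) ⊕ κ → Fin n → ℤ := Sum.elim
    (fun x j => (a x.1 j : ℤ) - (x.2.1 j : ℤ)) (fun k j => (b k j : ℤ) - (a k j : ℤ))
  have hp1 : ∀ (x : Σ k, {e // e ∈ S k}) (w : Fin n → ℝ),
      ∑ j, ((p (Sum.inl x) j : ℤ) : ℝ) * w j = pr (a x.1) w - pr x.2.1 w := by
    intro x w
    simp only [p, Sum.elim_inl, pr, ← Finset.sum_sub_distrib]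
    refine Finset.sum_congr rfl fun j _ => ?_
    push_cast
    ring
  have hp2 : ∀ (k : κ) (w : Fin n → ℝ),
      ∑ j, ((p (Sum.inr k) j : ℤ) : ℝ) * w j = pr (b k) w - pr (a k) w := by
    intro k w
    simp only [p, Sum.elim_inr, pr, ← Finset.sum_sub_distrib]
    refine Finset.sum_congr rfl fun j _ => ?_
    push_cast
    ring
  have hset : {w : Fin n → ℝ | ∀ i, 0 ≤ ∑ j, ((p i j : ℤ) : ℝ) * w j} = Sec a b S := by
    ext w
    constructor
    · intro h k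
      have h3 := h (Sum.inr k)
      rw [hp2] at h3
      have h4 : ∀ e ∈ S k, pr e w ≤ pr (a k) w := by
        intro e he
        have h5 := h (Sum.inl ⟨k, ⟨e, he⟩⟩)
        rw [hp1] at h5
        simp only at h5
        linarith
      exact ⟨le_antisymm (by linarith) (h4 _ (hab k).2.1), h4⟩
    · rintro h (⟨k, e⟩ | k)
      · rw [hp1]
        have := (h k).2 e.1 e.2
        simp only
        linarith
      · rw [hp2]
        have := (h k).1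
        linarith
  have hmem : ∀ w : Fin n → ℝ, (∀ i, 0 ≤ ∑ j, ((p i j : ℤ) : ℝ) * w j) ↔ w ∈ Sec a b S := by
    intro w
    rw [← hset]
    rfl
  obtain ⟨w, hwQ, hw, B, hB, hBw⟩ := h2 n (d + 1) Q hQ _ p w₀ (hN w₀ hNw₀) hw₀0
    ((hmem w₀).2 hw₀) ⟨W, hW, fun i => by
      rw [hset]
      exact hWs i⟩
  have hw' := (hmem w).1 hw
  refine ⟨w, hwQ, fun k => ?_, B, hB, hBw⟩
  exact ⟨a k, (hab k).1, b k, (hab k).2.1, (hab k).2.2, (hw' k).1, (hw' k).2⟩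

variable {s n : ℕ}

/-- the data of an independent set `B` of coordinates -/
structure Pk (P : Ideal (MvPolynomial (Fin n ⊕ Fin n) ℂ)) (ι : Fin s → Fin n)
    (ℓ : Fin n → Fin s → ℂ) (μ c : Fin n → ℂ) (H : MvPolynomial (Fin n ⊕ Fin n) ℂ)
    (B : Finset (Fin n)) (J : Fin s → Fin n) where
  T : TData s {i // i ∈ B}
  hℓ : T.ℓ = fun b : {i // i ∈ B} => ℓ b
  hμ : T.μ = fun b : {i // i ∈ B} => μ b
  hc : T.c = fun b : {i // i ∈ B} => c b
  hgP : ∀ a, (T.g a).eval₂ (em ι Subtype.val) (X (Sum.inr (J a))) ∈ P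
  hfin : ∀ (z : Fin s → ℂ) (t : ℂ), val (fun b => lin (T.ℓ b) (T.μ b)) T.c z T.D ≠ 0 →
      val (fun b => lin (T.ℓ b) (T.μ b)) T.c z T.g0 ≠ 0 →
      (T.f.map (val (fun b => lin (T.ℓ b) (T.μ b)) T.c z)).eval t = 0 →
      (∀ a, ((T.N a).map (val (fun b => lin (T.ℓ b) (T.μ b)) T.c z)).eval t /
        val (fun b => lin (T.ℓ b) (T.μ b)) T.c z T.D =
        Complex.exp (eval z (lin (ℓ (J a)) (μ (J a))) + c (J a))) →
      (∀ F ∈ P, eval (Sum.elim (fun i => eval z (lin (ℓ i) (μ i)))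
        fun i => Complex.exp (eval z (lin (ℓ i) (μ i)) + c i)) F = 0) ∧
      eval (Sum.elim (fun i => eval z (lin (ℓ i) (μ i)))
        fun i => Complex.exp (eval z (lin (ℓ i) (μ i)) + c i)) H ≠ 0
  S : Fin s → Finset ({i // i ∈ B} → ℚ)
  hS : ∀ a, ∀ j ∈ (T.g a).support, ∀ k ∈ (T.g a).support, j < k →
      ∀ x ∈ ((T.g a).coeff j).support, ∀ y ∈ ((T.g a).coeff k).support,
      (fun b => ((x b : ℚ) - y b) / ((k : ℚ) - j)) ∈ S a
  m : Fin s → ℕ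
  hm0 : ∀ a, 0 < m a
  hm : ∀ x y : Fin s → {i // i ∈ B} → ℚ, (∀ a, x a ∈ S a) → (∀ a, y a ∈ S a) →
      (∀ b, ∑ a, (m a : ℚ) * x a b = ∑ a, (m a : ℚ) * y a b) → x = y
  qq : Polynomial (MvPolynomial {i // i ∈ B} (MvPolynomial (Fin s) ℂ))
  hqq0 : qq ≠ 0
  hqqP : qq.eval₂ (em ι Subtype.val) (∏ a, X (Sum.inr (J a)) ^ m a) ∈ P
  hqq : ∀ (z : Fin s → ℂ) (t : ℂ), val (fun b => lin (T.ℓ b) (T.μ b)) T.c z T.D ≠ 0 →
      (qq.map (val (fun b => lin (T.ℓ b) (T.μ b)) T.c z)).eval t = 0 →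
      ∃ u, (T.f.map (val (fun b => lin (T.ℓ b) (T.μ b)) T.c z)).eval u = 0 ∧
        t = ∏ a, (((T.N a).map (val (fun b => lin (T.ℓ b) (T.μ b)) T.c z)).eval u /
          val (fun b => lin (T.ℓ b) (T.μ b)) T.c z T.D) ^ m a

theorem exists_pk (hMODEL : S_MODEL) (hRESQ : S_RESQ) (hSEP : S_SEP)
    (P : Ideal (MvPolynomial (Fin n ⊕ Fin n) ℂ)) (hP : P.IsPrime)
    (ι : Fin s → Fin n) (ℓ : Fin n → Fin s → ℂ) (μ : Fin n → ℂ)
    (hι : ∀ a, lin (ℓ (ι a)) (μ (ι a)) = X a)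
    (J : Fin s → Fin n) (hJ : Function.Injective J) (B : Finset (Fin n)) (hJB : ∀ a, J a ∉ B)
    (hcov : ∀ i, i ∉ B → ∃ a, J a = i)
    (h2 : ∀ i, X (Sum.inl i) - rename (fun a => Sum.inl (ι a)) (lin (ℓ i) (μ i)) ∈ P)
    (h3 : ∀ a, X (Sum.inr (J a)) ∉ P)
    (h4 : ∀ g : MvPolynomial {i // i ∈ B} (MvPolynomial (Fin s) ℂ),
      em ι Subtype.val g ∈ P → g = 0)
    (h5 : ∀ a, ∃ g : Polynomial (MvPolynomial {i // i ∈ B} (MvPolynomial (Fin s) ℂ)),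
      g ≠ 0 ∧ g.eval₂ (em ι Subtype.val) (X (Sum.inr (J a))) ∈ P)
    (c : Fin n → ℂ) (H : MvPolynomial (Fin n ⊕ Fin n) ℂ) (hH : H ∉ P) :
    Nonempty (Pk P ι ℓ μ c H B J) := by
  classical
  obtain ⟨f, U, W, D, Δ, g0, N, hf, hfd, hD, hΔ, hg0, hUW, hQ, hM⟩ := algmodel2
    hMODEL hRESQ P hP ι (fun i => lin (ℓ i) (μ i)) J B hcov
    h2 h4 (fun a => ⟨B, Finset.Subset.refl _, h5 a⟩) H hH
  choose g hg hgc hgP using fun a => rowpoly P hP _ _ (h3 a) (h5 a)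
  let T : TData s {i // i ∈ B} :=
    { ℓ := fun b => ℓ b
      μ := fun b => μ b
      c := fun b => c b
      f := f
      U := U
      W := W
      D := D
      Δ := Δ
      g0 := g0
      N := N
      g := g
      monic := hf
      deg := hfd
      hD := hD
      hΔ := hΔ
      hg0 := hg0
      hUW := hUW
      hg := hg
      hgc := hgc
      row := fun z t h6 h7 a => kill_row P ι (fun i => lin (ℓ i) (μ i)) hι J hJ B hJB hcov f D g0 N
        H hM g hgP c z t h6 h7 a }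
  let S : Fin s → Finset ({i // i ∈ B} → ℚ) := fun a =>
    ((g a).support ×ˢ (g a).support).biUnion fun jk =>
      (((g a).coeff jk.1).support ×ˢ ((g a).coeff jk.2).support).image fun xy =>
        (fun b => ((xy.1 b : ℚ) - xy.2 b) / ((jk.2 : ℚ) - jk.1))
  have hS : ∀ a, ∀ j ∈ (g a).support, ∀ k ∈ (g a).support, j < k →
      ∀ x ∈ ((g a).coeff j).support, ∀ y ∈ ((g a).coeff k).support,
      (fun b => ((x b : ℚ) - y b) / ((k : ℚ) - j)) ∈ S a := by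
    intro a j hj k hk _ x hx y hy
    rw [Finset.mem_biUnion]
    refine ⟨(j, k), Finset.mem_product.2 ⟨hj, hk⟩, ?_⟩
    rw [Finset.mem_image]
    exact ⟨(x, y), Finset.mem_product.2 ⟨hx, hy⟩, rfl⟩
  obtain ⟨m, hm0, hm⟩ := hSEP s {i // i ∈ B} S
  obtain ⟨qq, hq0, hqP, hq⟩ := hQ m
  exact ⟨{ T := T
           hℓ := rfl
           hμ := rfl
           hc := rfl
           hgP := hgP
           hfin := fun z t h6 h7 h8 h9 => kill_point P (fun i => lin (ℓ i) (μ i)) J B hcov f D g0 N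
             H hM c z t h6 h7 h8 h9
           S := S
           hS := hS
           m := m
           hm0 := hm0
           hm := hm
           qq := qq
           hqq0 := hq0
           hqqP := hqP
           hqq := fun z t h6 h7 => hq _ h6 t h7 }⟩

end Pool.Agent.K3h22.EX
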