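import Pool.Agent.K3h22.EX.Alg

/-! EX project: the model of the variety over the exponential polynomials. -/

set_option autoImplicit false

namespace Pool.Agent.K3h22.EX

open MvPolynomial

variable {s n : ℕ}

/-- division by a power of the variable -/
theorem rowpoly {A : Type} [CommRing A] [IsDomain A] {σ : Type} (P : Ideal (MvPolynomial σ ℂ))
    (hP : P.IsPrime) (e : A →+* MvPolynomial σ ℂ) (x : MvPolynomial σ ℂ) (hx : x ∉ P)
    (h : ∃ g : Polynomial A, g ≠ 0 ∧ g.eval₂ e x ∈ P) :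
    ∃ g : Polynomial A, g ≠ 0 ∧ g.coeff 0 ≠ 0 ∧ g.eval₂ e x ∈ P := by
  obtain ⟨g, hg, hgP⟩ := h
  obtain ⟨q, hq, hq'⟩ := Polynomial.exists_eq_pow_rootMultiplicity_mul_and_not_dvd g hg 0
  rw [Polynomial.C_0, sub_zero] at hq hq'
  refine ⟨q, ?_, ?_, ?_⟩
  · rintro rfl
    exact hq' (dvd_zero _)
  · intro h0
    exact hq' (Polynomial.X_dvd_iff.2 h0)
  · rw [hq, Polynomial.eval₂_mul, Polynomial.eval₂_pow, Polynomial.eval₂_X] at hgP
    rcases hP.mem_or_mem hgP with h1 | h1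
    · exact absurd (hP.mem_of_pow_mem _ h1) hx
    · exact h1

/-- the model -/
theorem algmodel (hMODEL : S_MODEL) (P : Ideal (MvPolynomial (Fin n ⊕ Fin n) ℂ)) (hP : P.IsPrime)
    (ι : Fin s → Fin n) (p : Fin n → MvPolynomial (Fin s) ℂ) (J : Fin s → Fin n)
    (B : Finset (Fin n)) (hcov : ∀ i, i ∉ B → ∃ a, J a = i)
    (h2 : ∀ i, X (Sum.inl i) - rename (fun a => Sum.inl (ι a)) (p i) ∈ P)
    (h4 : ∀ g : MvPolynomial {i // i ∈ B} (MvPolynomial (Fin s) ℂ),
      em ι Subtype.val g ∈ P → g = 0)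
    (h5 : ∀ a, ∃ B' : Finset (Fin n), B' ⊆ B ∧
      ∃ g : Polynomial (MvPolynomial {i // i ∈ B'} (MvPolynomial (Fin s) ℂ)),
      g ≠ 0 ∧ g.eval₂ (em ι Subtype.val) (X (Sum.inr (J a))) ∈ P)
    (H : MvPolynomial (Fin n ⊕ Fin n) ℂ) (hH : H ∉ P) :
    ∃ (f U W : Polynomial (MvPolynomial {i // i ∈ B} (MvPolynomial (Fin s) ℂ)))
      (D Δ g0 : MvPolynomial {i // i ∈ B} (MvPolynomial (Fin s) ℂ))
      (N : Fin s → Polynomial (MvPolynomial {i // i ∈ B} (MvPolynomial (Fin s) ℂ))),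
      f.Monic ∧ 0 < f.natDegree ∧ D ≠ 0 ∧ Δ ≠ 0 ∧ g0 ≠ 0 ∧
      U * f + W * Polynomial.derivative f = Polynomial.C Δ ∧
      ∀ (χ : MvPolynomial {i // i ∈ B} (MvPolynomial (Fin s) ℂ) →+* ℂ) (t : ℂ) (z : Fin s → ℂ)
        (Y : Fin n → ℂ), (∀ g : MvPolynomial (Fin s) ℂ, χ (C g) = eval z g) →
        (∀ i (h : i ∈ B), Y i = χ (X ⟨i, h⟩)) →
        (∀ a, χ D * Y (J a) = ((N a).map χ).eval t) → χ D ≠ 0 → (f.map χ).eval t = 0 →
        (∀ F ∈ P, eval (Sum.elim (fun i => eval z (p i)) Y) F = 0) ∧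
        (χ g0 ≠ 0 → eval (Sum.elim (fun i => eval z (p i)) Y) H ≠ 0) := by
  classical
  have := hP
  let A := MvPolynomial {i // i ∈ B} (MvPolynomial (Fin s) ℂ)
  let K := FractionRing (MvPolynomial (Fin n ⊕ Fin n) ℂ ⧸ P)
  let ψ : MvPolynomial (Fin n ⊕ Fin n) ℂ →+* K :=
    (algebraMap (MvPolynomial (Fin n ⊕ Fin n) ℂ ⧸ P) K).comp (Ideal.Quotient.mk P)
  have hψ0 : ∀ F, ψ F = 0 ↔ F ∈ P := by
    intro F
    rw [← Ideal.Quotient.eq_zero_iff_mem]
    exact map_eq_zero_iff _ (IsFractionRing.injective (MvPolynomial (Fin n ⊕ Fin n) ℂ ⧸ P) K)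
  letI : Algebra A K := (ψ.comp (em ι Subtype.val)).toAlgebra
  have halg : ∀ g : A, algebraMap A K g = ψ (em ι Subtype.val g) := fun g => rfl
  have hinj : Function.Injective (algebraMap A K) := by
    rw [injective_iff_map_eq_zero]
    intro g hg
    rw [halg, hψ0] at hg
    exact h4 g hg
  have : CharZero K := charZero_of_injective_ringHom (f := ψ.comp C) (RingHom.injective _)
  have hy : ∀ a : Fin s, IsAlgebraic A (ψ (X (Sum.inr (J a)))) := by
    intro a
    obtain ⟨B', hB', g, hg, hgP⟩ := h5 a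
    let ρ : MvPolynomial {i // i ∈ B'} (MvPolynomial (Fin s) ℂ) →+* A :=
      (rename (R := MvPolynomial (Fin s) ℂ) fun i : {i // i ∈ B'} =>
        (⟨i.1, hB' i.2⟩ : {i // i ∈ B})).toRingHom
    have hρi : Function.Injective ρ := by
      apply rename_injective
      intro i j h
      exact Subtype.ext (congrArg (fun x => x.1) h)
    have hρ : (em (n := n) ι (Subtype.val : {i // i ∈ B} → Fin n)).comp ρ =
        em ι (Subtype.val : {i // i ∈ B'} → Fin n) := by
      apply MvPolynomial.ringHom_ext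
      · intro r
        simp [ρ, em]
      · intro i
        simp [ρ, em]
    refine ⟨g.map ρ, ?_, ?_⟩
    · exact (Polynomial.map_ne_zero_iff hρi).2 hg
    · rw [Polynomial.aeval_def, Polynomial.eval₂_map]
      have h6 : (algebraMap A K).comp ρ = ψ.comp (em ι (Subtype.val : {i // i ∈ B'} → Fin n)) := by
        rw [← hρ]
        rfl
      rw [h6, ← Polynomial.hom_eval₂, hψ0]
      exact hgP
  obtain ⟨θ, D, Δ, N, U, W, hθ, hD, hΔ, hN, hUW⟩ := hMODEL A K (Fin s) hinj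
    (fun a => ψ (X (Sum.inr (J a)))) hy
  let Gv : Fin n ⊕ Fin n → Polynomial A := Sum.elim (fun i => Polynomial.C (D * C (p i)))
    fun i => if h : i ∈ B then Polynomial.C (D * X ⟨i, h⟩) else N (Classical.choose (hcov i h))
  have hG : ∀ v, algebraMap A K D * ψ (X v) = Polynomial.aeval θ (Gv v) := by
    rintro (i | i)
    · simp only [Gv, Sum.elim_inl, Polynomial.aeval_C, map_mul]
      congr 1
      have h6 := (hψ0 _).2 (h2 i)
      rw [map_sub, sub_eq_zero] at h6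
      rw [h6, halg]
      congr 1
      simp [em]
    · by_cases h : i ∈ B
      · simp only [Gv, Sum.elim_inr, dif_pos h, Polynomial.aeval_C, map_mul]
        congr 1
        rw [halg]
        congr 1
        simp [em]
      · simp only [Gv, Sum.elim_inr, dif_neg h]
        rw [← hN]
        simp only [Classical.choose_spec (hcov i h)]
  have hψC : ∀ c : ℂ, ψ (C c) = algebraMap A K (C (C c)) := by
    intro c
    rw [halg]
    congr 1
    simp [em]
  obtain ⟨g0, hg0, hg0'⟩ := nonvanish hinj ψ (RingHom.comp C C) hψC θ hθ D hD Gv hG H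
    (fun h => hH ((hψ0 _).1 h))
  refine ⟨minpoly A θ, U, W, D, Δ, g0, N, minpoly.monic hθ, minpoly.natDegree_pos hθ, hD, hΔ, hg0,
    hUW, ?_⟩
  intro χ t z Y hχ hYB hYJ hχD ht
  have hq : ∀ v, χ D * (Sum.elim (fun i => eval z (p i)) Y : Fin n ⊕ Fin n → ℂ) v =
      ((Gv v).map χ).eval t := by
    rintro (i | i)
    · change χ D * eval z (p i) = ((Polynomial.C (D * C (p i))).map χ).eval t
      rw [Polynomial.map_C, Polynomial.eval_C, map_mul, hχ]
    · by_cases h : i ∈ B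
      · have h6 : Gv (Sum.inr i) = Polynomial.C (D * X ⟨i, h⟩) := dif_pos h
        rw [h6, Polynomial.map_C, Polynomial.eval_C, map_mul, ← hYB i h]
        rfl
      · have h6 : Gv (Sum.inr i) = N (Classical.choose (hcov i h)) := dif_neg h
        rw [h6, ← hYJ, Classical.choose_spec (hcov i h)]
        rfl
  have hc : ∀ c : ℂ, χ ((RingHom.comp C C : ℂ →+* A) c) = c := by
    intro c
    rw [RingHom.comp_apply, hχ, eval_C]
  refine ⟨fun F hF => ?_, fun h0 => ?_⟩
  · exact vanish hinj ψ (RingHom.comp C C) hψC θ hθ D Gv hG F ((hψ0 F).2 hF) χ t _ hc hq hχD ht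
  · exact hg0' χ t _ hc hq ht h0

end Pool.Agent.K3h22.EX
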