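import Pool.Agent.K3h22.EX.Core1

/-! EX project: properties which hold near a point off a hypersurface, and properties which hold
for large `R` and points near a point. -/

set_option autoImplicit false

namespace Pool.Agent.K3h22.EX

open MvPolynomial Filter Topology Metric Set

variable {s : ℕ}

/-- the property holds near `ζ` off a hypersurface -/
def Ev (ζ : Fin s → ℂ) (Q : (Fin s → ℂ) → Prop) : Prop :=
  ∃ ε : ℝ, 0 < ε ∧ ∃ q : MvPolynomial (Fin s) ℂ, q ≠ 0 ∧ ∀ ζ' ∈ ball ζ ε, eval ζ' q ≠ 0 → Q ζ'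

theorem exists_lower {κ : Type} [Finite κ] (f : κ → ℝ) (hf : ∀ j, 0 < f j) :
    ∃ ε : ℝ, 0 < ε ∧ ∀ j, ε ≤ f j := by
  have h : ∀ᶠ ε in 𝓝[>] (0 : ℝ), ∀ j, ε ≤ f j := by
    rw [eventually_all]
    intro j
    filter_upwards [Ioc_mem_nhdsGT (hf j)] with x hx using hx.2
  obtain ⟨ε, h1, h2⟩ := (h.and self_mem_nhdsWithin).exists
  exact ⟨ε, h2, h1⟩

theorem exists_upper {κ : Type} [Finite κ] (f : κ → ℝ) (a : ℝ) :
    ∃ R : ℝ, a ≤ R ∧ ∀ j, f j ≤ R := by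
  have h : ∀ᶠ R in atTop, ∀ j, f j ≤ R := by
    rw [eventually_all]
    intro j
    exact eventually_ge_atTop (f j)
  obtain ⟨R, h1, h2⟩ := (h.and (eventually_ge_atTop a)).exists
  exact ⟨R, h2, h1⟩

theorem Ev.all {κ : Type} [Finite κ] {ζ : Fin s → ℂ} {Q : κ → (Fin s → ℂ) → Prop}
    (h : ∀ j, Ev ζ (Q j)) : Ev ζ fun v => ∀ j, Q j v := by
  have : Fintype κ := Fintype.ofFinite κ
  choose ε hε q hq h using h
  obtain ⟨e, he, he'⟩ := exists_lower ε hε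
  refine ⟨e, he, ∏ j, q j, Finset.prod_ne_zero_iff.2 fun j _ => hq j, fun v hv hne j => ?_⟩
  refine h j v (ball_subset_ball (he' j) hv) fun h0 => hne ?_
  rw [map_prod]
  exact Finset.prod_eq_zero (Finset.mem_univ j) h0

theorem Ev.and {ζ : Fin s → ℂ} {Q Q' : (Fin s → ℂ) → Prop} (h : Ev ζ Q) (h' : Ev ζ Q') :
    Ev ζ fun v => Q v ∧ Q' v := by
  have h1 : Ev ζ fun v => ∀ j : Bool, (fun (j : Bool) v => if j then Q v else Q' v) j v := by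
    apply Ev.all
    rintro (_ | _)
    · simpa using h'
    · simpa using h
  obtain ⟨ε, hε, q, hq, h2⟩ := h1
  refine ⟨ε, hε, q, hq, fun v hv hne => ?_⟩
  have h3 := h2 v hv hne
  exact ⟨by simpa using h3 true, by simpa using h3 false⟩

/-- the property holds for large `R` and `v` near `ζ` -/
def Lo (ζ : Fin s → ℂ) (T : ℝ → (Fin s → ℂ) → Prop) : Prop :=
  ∃ ε : ℝ, 0 < ε ∧ ∃ R₀ : ℝ, 1 ≤ R₀ ∧ ∀ R : ℝ, R₀ ≤ R → ∀ v ∈ ball ζ ε, T R v

theorem Lo.all {κ : Type} [Finite κ] {ζ : Fin s → ℂ} {Q : κ → ℝ → (Fin s → ℂ) → Prop}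
    (h : ∀ j, Lo ζ (Q j)) : Lo ζ fun R v => ∀ j, Q j R v := by
  choose ε hε R₀ hR₀ h using h
  obtain ⟨e, he, he'⟩ := exists_lower ε hε
  obtain ⟨R, hR, hR'⟩ := exists_upper R₀ 1
  exact ⟨e, he, R, hR, fun R1 hR1 v hv j =>
    h j R1 ((hR' j).trans hR1) v (ball_subset_ball (he' j) hv)⟩

theorem Lo.and {ζ : Fin s → ℂ} {Q Q' : ℝ → (Fin s → ℂ) → Prop} (h : Lo ζ Q) (h' : Lo ζ Q') :
    Lo ζ fun R v => Q R v ∧ Q' R v := by
  obtain ⟨ε, hε, R₀, hR₀, h⟩ := h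
  obtain ⟨ε', hε', R₀', hR₀', h'⟩ := h'
  exact ⟨min ε ε', lt_min hε hε', max R₀ R₀', hR₀.trans (le_max_left _ _), fun R hR v hv =>
    ⟨h R ((le_max_left _ _).trans hR) v (ball_subset_ball (min_le_left _ _) hv),
      h' R ((le_max_right _ _).trans hR) v (ball_subset_ball (min_le_right _ _) hv)⟩⟩

theorem Lo.mono {ζ : Fin s → ℂ} {Q Q' : ℝ → (Fin s → ℂ) → Prop} (h : Lo ζ Q)
    (h' : ∀ R : ℝ, 1 ≤ R → ∀ v, Q R v → Q' R v) : Lo ζ Q' := by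
  obtain ⟨ε, hε, R₀, hR₀, h⟩ := h
  exact ⟨ε, hε, R₀, hR₀, fun R hR v hv => h' R (hR₀.trans hR) v (h R hR v hv)⟩

/-- comparison of growth -/
theorem grow (δ d : ℕ) (h : δ < d) (C C' κ : ℝ) (hκ : 0 < κ) :
    ∃ R₀ : ℝ, 1 ≤ R₀ ∧ ∀ R : ℝ, R₀ ≤ R → C * (R ^ δ + Real.log R) + C' ≤ κ * R ^ d := by
  have h1 : (fun R : ℝ => C * (R ^ δ + Real.log R) + C') =o[atTop] fun R : ℝ => R ^ d := by
    have hd : d ≠ 0 := by omega
    refine Asymptotics.IsLittleO.add ?_ ?_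
    · refine Asymptotics.IsLittleO.const_mul_left ?_ C
      refine Asymptotics.IsLittleO.add ?_ ?_
      · exact Asymptotics.isLittleO_pow_pow_atTop_of_lt h
      · refine Real.isLittleO_log_id_atTop.trans_isBigO (Asymptotics.IsBigO.of_bound 1 ?_)
        filter_upwards [eventually_ge_atTop (1 : ℝ)] with R hR
        rw [id, Real.norm_of_nonneg (by positivity), Real.norm_of_nonneg (by positivity), one_mul]
        exact le_self_pow₀ hR hd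
    · exact Asymptotics.isLittleO_const_left.2 (Or.inr (by
        have := (tendsto_pow_atTop (α := ℝ) hd)
        exact tendsto_norm_atTop_atTop.comp this))
  have h2 := h1.bound hκ
  obtain ⟨R, hR⟩ := ((h2.and (eventually_ge_atTop (1 : ℝ))).exists_forall_of_atTop)
  refine ⟨max R 1, le_max_right _ _, fun R' hR' => ?_⟩
  obtain ⟨h3, h4⟩ := hR R' ((le_max_left _ _).trans hR')
  rw [Real.norm_of_nonneg (by positivity : (0 : ℝ) ≤ R' ^ d)] at h3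
  exact (le_abs_self _).trans h3

/-- consequence of `S_PREP` -/
theorem ev_lower (hPREP : S_PREP) {β : Type} [Fintype β] (p : β → MvPolynomial (Fin s) ℂ)
    (ζ : Fin s → ℂ) (hζ : Reg p ζ) (G : MvPolynomial β (MvPolynomial (Fin s) ℂ)) (hG : G ≠ 0) :
    Ev ζ fun ζ' => ∀ (c : β → ℂ) (δ : ℕ), (∀ b, (p b).totalDegree ≤ δ) → ∃ C : ℝ, 0 ≤ C ∧
      Lo ζ' fun R v => Real.exp (-(C * (R ^ δ + Real.log R))) ≤ ‖val p c (sc R v) G‖ := by
  obtain ⟨ε, hε, q, hq, h⟩ := hPREP s β p ζ hζ G hG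
  refine ⟨ε, hε, q, hq, fun ζ' h1 h2 c δ hδ => ?_⟩
  obtain ⟨ε', hε', R₀, hR₀, C, hC, h3⟩ := h ζ' h1 h2 c δ hδ
  exact ⟨C, hC, ε', hε', R₀, hR₀, h3⟩

theorem ev_ne (hPREP : S_PREP) {β : Type} [Fintype β] (p : β → MvPolynomial (Fin s) ℂ)
    (ζ : Fin s → ℂ) (hζ : Reg p ζ) (c : β → ℂ) (G : MvPolynomial β (MvPolynomial (Fin s) ℂ))
    (hG : G ≠ 0) :
    Ev ζ fun ζ' => Lo ζ' fun R v => val p c (sc R v) G ≠ 0 := by
  obtain ⟨ε, hε, q, hq, h⟩ := ev_lower hPREP p ζ hζ G hG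
  refine ⟨ε, hε, q, hq, fun ζ' h1 h2 => ?_⟩
  obtain ⟨C, hC, h3⟩ := h ζ' h1 h2 c (Finset.univ.sup fun b => (p b).totalDegree)
    fun b => Finset.le_sup (f := fun b => (p b).totalDegree) (Finset.mem_univ b)
  refine h3.mono fun R hR v h4 h0 => ?_
  rw [h0, norm_zero] at h4
  exact absurd h4 (not_le.2 (Real.exp_pos _))

/-- the bounds of the roots -/
theorem ev_row (hPREP : S_PREP) (hROWB : S_ROWB) {β : Type} [Fintype β]
    (p : β → MvPolynomial (Fin s) ℂ) (ζ : Fin s → ℂ) (hζ : Reg p ζ) (c : β → ℂ) (δ : ℕ)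
    (hδ : ∀ b, (p b).totalDegree ≤ δ) (g : Polynomial (MvPolynomial β (MvPolynomial (Fin s) ℂ)))
    (hg : g ≠ 0) (hg0 : g.coeff 0 ≠ 0) :
    Ev ζ fun ζ' => ∃ C : ℝ, Lo ζ' fun R v => ∀ t : ℂ, (g.map (val p c (sc R v))).eval t = 0 →
      t ≠ 0 ∧ |Real.log ‖t‖| ≤ C * (R ^ δ + Real.log R) := by
  have h1 := (ev_lower hPREP p ζ hζ (g.coeff 0) hg0).and
    (ev_lower hPREP p ζ hζ g.leadingCoeff (Polynomial.leadingCoeff_ne_zero.2 hg))
  obtain ⟨ε, hε, q, hq, h⟩ := h1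
  refine ⟨ε, hε, q, hq, fun ζ' h1 h2 => ?_⟩
  obtain ⟨h3, h4⟩ := h ζ' h1 h2
  obtain ⟨C, hC, h5⟩ := h3 c δ hδ
  obtain ⟨C', hC', h6⟩ := h4 c δ hδ
  have h7 : Lo ζ' fun R v =>
      Real.exp (-(max C C' * (R ^ δ + Real.log R))) ≤ ‖val p c (sc R v) (g.coeff 0)‖ ∧
      Real.exp (-(max C C' * (R ^ δ + Real.log R))) ≤ ‖val p c (sc R v) g.leadingCoeff‖ := by
    refine (h5.and h6).mono fun R hR v h => ⟨le_trans ?_ h.1, le_trans ?_ h.2⟩
    all_goals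
      have h8 : 0 ≤ R ^ δ + Real.log R := add_nonneg (by positivity) (Real.log_nonneg hR)
      apply Real.exp_le_exp.2
      apply neg_le_neg
      apply mul_le_mul_of_nonneg_right _ h8
    · exact le_max_left _ _
    · exact le_max_right _ _
  obtain ⟨ε', hε', R₀, hR₀, h8⟩ := h7
  obtain ⟨R₁, C₁, hR₁, hC₁, h9⟩ := hROWB s β p c δ hδ g ζ' ε' R₀ (max C C') h8
  exact ⟨C₁, ε', hε', R₁, hR₁, h9⟩

end Pool.Agent.K3h22.EX
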