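import Pool.Agent.K3h22.EX.Core2

/-! EX project: the core theorem. -/

set_option autoImplicit false

namespace Pool.Agent.K3h22.EX

open MvPolynomial Filter Topology Metric Set

variable {s n : ℕ}

theorem val_C {β : Type} (p : β → MvPolynomial (Fin s) ℂ) (c : β → ℂ) (z : Fin s → ℂ)
    (g : MvPolynomial (Fin s) ℂ) : val p c z (C g) = eval z g := by
  simp [val]

theorem val_X {β : Type} (p : β → MvPolynomial (Fin s) ℂ) (c : β → ℂ) (z : Fin s → ℂ) (b : β) :
    val p c z (X b) = Complex.exp (eval z (p b) + c b) := by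
  simp [val]

theorem differentiableOn_eval_map (hVAL : S_VALHOL) {β : Type} [Fintype β]
    (p : β → MvPolynomial (Fin s) ℂ) (c : β → ℂ)
    (N : Polynomial (MvPolynomial β (MvPolynomial (Fin s) ℂ))) (R : ℝ) (Z : (Fin s → ℂ) → ℂ)
    (U : Set (Fin s → ℂ)) (hZ : DifferentiableOn ℂ Z U) :
    DifferentiableOn ℂ (fun v => (N.map (val p c (sc R v))).eval (Z v)) U := by
  have h : (fun v => (N.map (val p c (sc R v))).eval (Z v)) =
      fun v => ∑ k ∈ Finset.range (N.natDegree + 1), val p c (sc R v) (N.coeff k) * Z v ^ k := by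
    funext v
    rw [Polynomial.eval_eq_sum_range' (lt_of_le_of_lt Polynomial.natDegree_map_le
      (Nat.lt_succ_self _))]
    simp only [Polynomial.coeff_map]
  rw [h]
  refine DifferentiableOn.fun_sum fun k _ => DifferentiableOn.mul ?_ (hZ.pow k)
  exact ((hVAL s β p c (N.coeff k) R).differentiable one_ne_zero).differentiableOn

/-- the choice of the regular direction in general position and the lower bounds -/
theorem core1 (hPREP : S_PREP) (hROWB : S_ROWB) (hAVOID : S_AVOID)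
    (p : Fin n → MvPolynomial (Fin s) ℂ) (J : Fin s → Fin n) (B : Finset (Fin n))
    (D Δ g0 : MvPolynomial {i // i ∈ B} (MvPolynomial (Fin s) ℂ)) (hD : D ≠ 0) (hΔ : Δ ≠ 0)
    (hg0 : g0 ≠ 0) (B' : Fin s → Finset (Fin n)) (hB' : ∀ a, B' a ⊆ B)
    (hB'd : ∀ a, ∀ i ∈ B' a, (p i).totalDegree < (p (J a)).totalDegree)
    (g : ∀ a, Polynomial (MvPolynomial {i // i ∈ B' a} (MvPolynomial (Fin s) ℂ)))
    (hg : ∀ a, g a ≠ 0) (hgc : ∀ a, (g a).coeff 0 ≠ 0)
    (ζ : Fin s → ℂ) (hζ1 : ∀ a, (eval ζ (top (p (J a)))).re = 0)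
    (hζ2 : (jac (fun a => top (p (J a))) ζ).det ≠ 0)
    (hζ3 : Reg (fun i : {i // i ∈ B} => p i) ζ) (c : Fin n → ℂ) :
    ∃ ζ' : Fin s → ℂ, (∀ a, (eval ζ' (top (p (J a)))).re = 0) ∧
      (jac (fun a => top (p (J a))) ζ').det ≠ 0 ∧ ∃ C : Fin s → ℝ, Lo ζ' fun R v =>
        (val (fun i : {i // i ∈ B} => p i) (fun i => c i) (sc R v) D ≠ 0 ∧
          val (fun i : {i // i ∈ B} => p i) (fun i => c i) (sc R v) Δ ≠ 0 ∧
          val (fun i : {i // i ∈ B} => p i) (fun i => c i) (sc R v) g0 ≠ 0) ∧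
        ∀ a, ∀ t : ℂ, ((g a).map (val (fun i : {i // i ∈ B' a} => p i) (fun i => c i)
            (sc R v))).eval t = 0 →
          t ≠ 0 ∧ |Real.log ‖t‖| ≤ C a * (R ^ ((p (J a)).totalDegree - 1) + Real.log R) := by
  classical
  have hreg : ∀ a, Reg (fun i : {i // i ∈ B' a} => p i) ζ := by
    intro a m hm
    let m' : {i // i ∈ B} → ℤ := fun i => if h : i.1 ∈ B' a then m ⟨i.1, h⟩ else 0
    have hm' : m' ≠ 0 := by
      obtain ⟨i, hi⟩ := Function.ne_iff.1 hm
      refine Function.ne_iff.2 ⟨⟨i.1, hB' a i.2⟩, ?_⟩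
      simpa [m'] using hi
    have h := hζ3 m' hm'
    have hsum : (∑ b : {i // i ∈ B}, (m' b : MvPolynomial (Fin s) ℂ) * p b) =
        ∑ b : {i // i ∈ B' a}, (m b : MvPolynomial (Fin s) ℂ) * p b := by
      have h1 : (∑ b : {i // i ∈ B}, (m' b : MvPolynomial (Fin s) ℂ) * p b) =
          ∑ i ∈ B, ((if h : i ∈ B' a then m ⟨i, h⟩ else 0 : ℤ) : MvPolynomial (Fin s) ℂ) * p i := by
        rw [← Finset.sum_coe_sort B]
      have h2 : (∑ b : {i // i ∈ B' a}, (m b : MvPolynomial (Fin s) ℂ) * p b) =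
          ∑ i ∈ B' a, ((if h : i ∈ B' a then m ⟨i, h⟩ else 0 : ℤ) :
            MvPolynomial (Fin s) ℂ) * p i := by
        rw [← Finset.sum_coe_sort (B' a)]
        refine Finset.sum_congr rfl fun i _ => ?_
        rw [dif_pos i.2]
      rw [h1, h2]
      refine (Finset.sum_subset (hB' a) fun i _ hi => ?_).symm
      rw [dif_neg hi, Int.cast_zero, zero_mul]
    rw [hsum] at h
    exact h
  have hδ : ∀ a, ∀ b : {i // i ∈ B' a}, (p b).totalDegree ≤ (p (J a)).totalDegree - 1 := by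
    intro a b
    have := hB'd a b b.2
    omega
  have hev := ((ev_ne hPREP (fun i : {i // i ∈ B} => p i) ζ hζ3 (fun i => c i) D hD).and
    ((ev_ne hPREP (fun i : {i // i ∈ B} => p i) ζ hζ3 (fun i => c i) Δ hΔ).and
    (ev_ne hPREP (fun i : {i // i ∈ B} => p i) ζ hζ3 (fun i => c i) g0 hg0))).and
    (Ev.all fun a => ev_row hPREP hROWB (fun i : {i // i ∈ B' a} => p i) ζ (hreg a)
      (fun i => c i) _ (hδ a) (g a) (hg a) (hgc a))
  obtain ⟨ε, hε, q, hq, h⟩ := hev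
  set dt : MvPolynomial (Fin s) ℂ :=
    (Matrix.of fun a b => pderiv b (top (p (J a)))).det with hdt
  have hdte : ∀ v, eval v dt = (jac (fun a => top (p (J a))) v).det := by
    intro v
    rw [hdt, RingHom.map_det]
    rfl
  have hdt0 : dt ≠ 0 := by
    intro h0
    apply hζ2
    rw [← hdte, h0, map_zero]
  obtain ⟨ζ', h1, h2, h3⟩ := hAVOID s (fun a => top (p (J a))) ζ hζ1 hζ2 (q * dt)
    (mul_ne_zero hq hdt0) ε hε
  rw [map_mul] at h3
  obtain ⟨⟨h4, h5, h6⟩, h7⟩ := h ζ' h1 (left_ne_zero_of_mul h3)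
  refine ⟨ζ', h2, ?_, ?_⟩
  · rw [← hdte]
    exact right_ne_zero_of_mul h3
  choose C h8 using h7
  exact ⟨C, (h4.and (h5.and h6)).and (Lo.all h8)⟩

/-- the core theorem -/
theorem core (hPREP : S_PREP) (hROWB : S_ROWB) (hHROOT : S_HROOT) (hVAL : S_VALHOL)
    (hMODEL : S_MODEL) (hAVOID : S_AVOID) (hLOG : S_LOG) (hSOLVE : S_SOLVE)
    (P : Ideal (MvPolynomial (Fin n ⊕ Fin n) ℂ)) (hP : P.IsPrime)
    (ι : Fin s → Fin n) (p : Fin n → MvPolynomial (Fin s) ℂ) (hι : ∀ a, p (ι a) = X a)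
    (J : Fin s → Fin n) (hJ : Function.Injective J) (B : Finset (Fin n)) (hJB : ∀ a, J a ∉ B)
    (hcov : ∀ i, i ∉ B → ∃ a, J a = i)
    (h2 : ∀ i, X (Sum.inl i) - rename (fun a => Sum.inl (ι a)) (p i) ∈ P)
    (h3 : ∀ a, X (Sum.inr (J a)) ∉ P)
    (h4 : ∀ g : MvPolynomial {i // i ∈ B} (MvPolynomial (Fin s) ℂ),
      em ι Subtype.val g ∈ P → g = 0)
    (B' : Fin s → Finset (Fin n)) (hB' : ∀ a, B' a ⊆ B)
    (hB'd : ∀ a, ∀ i ∈ B' a, (p i).totalDegree < (p (J a)).totalDegree)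
    (h5 : ∀ a, ∃ g : Polynomial (MvPolynomial {i // i ∈ B' a} (MvPolynomial (Fin s) ℂ)),
      g ≠ 0 ∧ g.eval₂ (em ι Subtype.val) (X (Sum.inr (J a))) ∈ P)
    (ζ : Fin s → ℂ) (hζ1 : ∀ a, (eval ζ (top (p (J a)))).re = 0)
    (hζ2 : (jac (fun a => top (p (J a))) ζ).det ≠ 0)
    (hζ3 : Reg (fun i : {i // i ∈ B} => p i) ζ) (c : Fin n → ℂ)
    (H : MvPolynomial (Fin n ⊕ Fin n) ℂ) (hH : H ∉ P) :
    ∃ z : Fin s → ℂ,
      (∀ F ∈ P, eval (Sum.elim (fun i => eval z (p i))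
        fun i => Complex.exp (eval z (p i) + c i)) F = 0) ∧
      eval (Sum.elim (fun i => eval z (p i)) fun i => Complex.exp (eval z (p i) + c i)) H ≠ 0 := by
  classical
  obtain ⟨f, U, W, D, Δ, g0, N, hf, hfd, hD, hΔ, hg0, hUW, hM⟩ := algmodel hMODEL P hP ι p J B hcov
    h2 h4 (fun a => ⟨B' a, hB' a, h5 a⟩) H hH
  choose g hg hgc hgP using fun a => rowpoly P hP _ _ (h3 a) (h5 a)
  obtain ⟨ζ', hz1, hz2, C, ε, hε, R₁, hR₁, hlo⟩ := core1 hPREP hROWB hAVOID p J B D Δ g0 hD hΔ hg0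
    B' hB' hB'd g hg hgc ζ hζ1 hζ2 hζ3 c
  obtain ⟨κ, hκ, R₂, hR₂, hsol⟩ := hSOLVE s (fun a => p (J a)) ζ' ε hε hz1 hz2
  -- the degrees of the rows are positive
  have hdeg : ∀ a, 0 < (p (J a)).totalDegree := by
    intro a
    by_contra h0
    apply hz2
    apply Matrix.det_eq_zero_of_row_eq_zero a
    intro b
    have h6 : top (p (J a)) = MvPolynomial.C (coeff 0 (p (J a))) := by
      unfold top
      rw [show (p (J a)).totalDegree = 0 by omega, homogeneousComponent_zero]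
    change eval ζ' (pderiv b (top (p (J a)))) = 0
    rw [h6, pderiv_C, map_zero]
  choose R₃ hR₃ hgr using fun a => grow ((p (J a)).totalDegree - 1) (p (J a)).totalDegree
    (by have := hdeg a; omega) (C a) ‖c (J a)‖ κ hκ
  obtain ⟨R, hR, hR3⟩ := exists_upper R₃ (max R₁ R₂)
  have hRR₁ : R₁ ≤ R := (le_max_left _ _).trans hR
  have hRR₂ : R₂ ≤ R := (le_max_right _ _).trans hR
  have hlo' := hlo R hRR₁
  obtain ⟨Z, hZd, hZ⟩ := hHROOT s {i // i ∈ B} (fun i => p i) (fun i => c i) f U W Δ hf hfd hUW R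
    ζ' ε hε fun v hv => (hlo' v hv).1.2.1
  set χ : (Fin s → ℂ) → MvPolynomial {i // i ∈ B} (MvPolynomial (Fin s) ℂ) →+* ℂ := fun v =>
    val (fun i : {i // i ∈ B} => p i) (fun i => c i) (sc R v) with hχ
  set y : Fin s → (Fin s → ℂ) → ℂ := fun a v => ((N a).map (χ v)).eval (Z v) / χ v D with hy
  have hyd : ∀ a, DifferentiableOn ℂ (y a) (ball ζ' ε) := by
    intro a
    have h6 : DifferentiableOn ℂ (fun v => ((N a).map (χ v)).eval (Z v)) (ball ζ' ε) :=
      differentiableOn_eval_map hVAL _ _ (N a) R Z _ hZd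
    have h7 : DifferentiableOn ℂ (fun v => χ v D) (ball ζ' ε) :=
      ((hVAL s _ _ _ D R).differentiable one_ne_zero).differentiableOn
    simp only [hy, div_eq_mul_inv]
    exact h6.mul (h7.inv fun v hv => (hlo' v hv).1.1)
  set Y : (Fin s → ℂ) → Fin n → ℂ := fun v i =>
    if h : i ∈ B then Complex.exp (eval (sc R v) (p i) + c i)
    else y (Classical.choose (hcov i h)) v with hY
  have hYB : ∀ v i, i ∈ B → Y v i = Complex.exp (eval (sc R v) (p i) + c i) := by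
    intro v i hi
    simp only [hY, dif_pos hi]
  have hYJ : ∀ v a, Y v (J a) = y a v := by
    intro v a
    simp only [hY, dif_neg (hJB a)]
    rw [hJ (Classical.choose_spec (hcov (J a) (hJB a)))]
  have hkill : ∀ v ∈ ball ζ' ε,
      (∀ F ∈ P, eval (Sum.elim (fun i => eval (sc R v) (p i)) (Y v)) F = 0) ∧
      eval (Sum.elim (fun i => eval (sc R v) (p i)) (Y v)) H ≠ 0 := by
    intro v hv
    obtain ⟨⟨hDv, hΔv, hg0v⟩, -⟩ := hlo' v hv
    have h6 := hM (χ v) (Z v) (sc R v) (Y v) (fun g => val_C _ _ _ g)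
      (fun i hi => (hYB v i hi).trans (val_X (fun i : {i // i ∈ B} => p i) (fun i => c i) (sc R v)
        ⟨i, hi⟩).symm)
      (fun a => by rw [hYJ v a, hy]; exact mul_div_cancel₀ _ hDv) hDv (hZ v hv)
    exact ⟨h6.1, h6.2 hg0v⟩
  have hrow : ∀ v ∈ ball ζ' ε, ∀ a, y a v ≠ 0 ∧
      |Real.log ‖y a v‖| ≤ C a * (R ^ ((p (J a)).totalDegree - 1) + Real.log R) := by
    intro v hv a
    refine (hlo' v hv).2 a (y a v) ?_
    have h6 := (hkill v hv).1 _ (hgP a)
    rw [Polynomial.hom_eval₂, eval_X, Sum.elim_inr, hYJ v a] at h6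
    rw [Polynomial.eval_map, ← h6]
    congr 1
    apply MvPolynomial.ringHom_ext
    · intro r
      rw [val_C, RingHom.comp_apply, eval_em, coe_eval₂Hom, eval₂_C]
      congr 2
      funext b
      rw [Sum.elim_inl, hι, eval_X]
    · intro i
      rw [val_X, RingHom.comp_apply, eval_em, coe_eval₂Hom, eval₂_X, Sum.elim_inr,
        hYB v i.1 (hB' a i.2)]
  choose L hL hLe using fun a => hLOG s (ball ζ' ε) (y a) isOpen_ball (convex_ball ζ' ε) (hyd a)
    fun v hv => (hrow v hv a).1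
  have hLre : ∀ a, ∀ v ∈ ball ζ' ε, (L a v).re = Real.log ‖y a v‖ := by
    intro a v hv
    rw [← hLe a v hv, Complex.norm_exp, Real.log_exp]
  obtain ⟨v, hv, hv'⟩ := hsol R hRR₂ (fun a v => L a v - c (J a))
    (fun a => (hL a).sub_const _) (by
      intro a v hv
      have h6 := (hrow v hv a).2
      rw [← hLre a v hv] at h6
      have h7 := hgr a R (hR3 a)
      have h8 : |(L a v - c (J a)).re| ≤ |(L a v).re| + ‖c (J a)‖ := by
        rw [Complex.sub_re]
        refine (abs_sub _ _).trans ?_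
        gcongr
        exact Complex.abs_re_le_norm _
      exact h8.trans ((add_le_add_left h6 _).trans h7))
  have hYv : Y v = fun i => Complex.exp (eval (sc R v) (p i) + c i) := by
    funext i
    by_cases hi : i ∈ B
    · exact hYB v i hi
    · obtain ⟨a, rfl⟩ := hcov i hi
      obtain ⟨M, hM'⟩ := hv' a
      rw [hYJ v a, ← hLe a v hv]
      have h6 : eval (sc R v) (p (J a)) + c (J a) = L a v + M * (2 * Real.pi * Complex.I) := by
        linear_combination hM'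
      rw [h6, Complex.exp_add, Complex.exp_int_mul_two_pi_mul_I, mul_one]
  have h6 := hkill v hv
  rw [hYv] at h6
  exact ⟨sc R v, h6⟩

end Pool.Agent.K3h22.EX
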