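import Pool.Agent.K3h22.EX.Stm

/-! EX project (helper22), second part: exact statements of the remaining parts. -/

set_option autoImplicit false

namespace Pool.Agent.K3h22.EX

open MvPolynomial Filter Topology Metric Set

/-- `ζ` is a regular direction for the exponents `p_b` -/
def Reg {s : ℕ} {β : Type} [Fintype β] (p : β → MvPolynomial (Fin s) ℂ) (ζ : Fin s → ℂ) : Prop :=
  ∀ m : β → ℤ, m ≠ 0 → 0 < (∑ b, (m b : MvPolynomial (Fin s) ℂ) * p b).totalDegree ∧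
    (eval ζ (top (∑ b, (m b : MvPolynomial (Fin s) ℂ) * p b))).re ≠ 0

/-- `S_DOM` near a regular direction (to be proved from `S_DOM`): `q` is the product of the leading
forms of the coefficients, and the conditions on the pairs are open -/
def S_PREP : Prop := ∀ (s : ℕ) (β : Type) [Fintype β] (p : β → MvPolynomial (Fin s) ℂ)
  (ζ : Fin s → ℂ), Reg p ζ → ∀ G : MvPolynomial β (MvPolynomial (Fin s) ℂ), G ≠ 0 →
  ∃ ε : ℝ, 0 < ε ∧ ∃ q : MvPolynomial (Fin s) ℂ, q ≠ 0 ∧ ∀ ζ' ∈ ball ζ ε, eval ζ' q ≠ 0 →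
  ∀ (c : β → ℂ) (δ : ℕ), (∀ b, (p b).totalDegree ≤ δ) →
  ∃ ε' : ℝ, 0 < ε' ∧ ∃ R₀ : ℝ, 1 ≤ R₀ ∧ ∃ C : ℝ, 0 ≤ C ∧
  ∀ R : ℝ, R₀ ≤ R → ∀ v ∈ ball ζ' ε',
    Real.exp (-(C * (R ^ δ + Real.log R))) ≤ ‖val p c (sc R v) G‖

/-- bounds for the roots of a polynomial whose coefficients are exponential polynomials (to be
proved from `S_UPP`) -/
def S_ROWB : Prop := ∀ (s : ℕ) (β : Type) [Fintype β] (p : β → MvPolynomial (Fin s) ℂ) (c : β → ℂ)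
  (δ : ℕ), (∀ b, (p b).totalDegree ≤ δ) →
  ∀ (g : Polynomial (MvPolynomial β (MvPolynomial (Fin s) ℂ))) (ζ : Fin s → ℂ) (ε R₀ C : ℝ),
  (∀ R : ℝ, R₀ ≤ R → ∀ v ∈ ball ζ ε,
    Real.exp (-(C * (R ^ δ + Real.log R))) ≤ ‖val p c (sc R v) (g.coeff 0)‖ ∧
    Real.exp (-(C * (R ^ δ + Real.log R))) ≤ ‖val p c (sc R v) g.leadingCoeff‖) →
  ∃ R₁ C' : ℝ, 1 ≤ R₁ ∧ 0 ≤ C' ∧ ∀ R : ℝ, R₁ ≤ R → ∀ v ∈ ball ζ ε, ∀ t : ℂ,
    (g.map (val p c (sc R v))).eval t = 0 → t ≠ 0 ∧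
      |Real.log ‖t‖| ≤ C' * (R ^ δ + Real.log R)

/-- holomorphic roots on balls (from `Pool.Agent.H713R3.ZA.ROOT.main`) -/
def S_HROOT : Prop := ∀ (s : ℕ) (β : Type) [Fintype β] (p : β → MvPolynomial (Fin s) ℂ) (c : β → ℂ)
  (f U W : Polynomial (MvPolynomial β (MvPolynomial (Fin s) ℂ)))
  (Δ : MvPolynomial β (MvPolynomial (Fin s) ℂ)), f.Monic → 0 < f.natDegree →
  U * f + W * Polynomial.derivative f = Polynomial.C Δ →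
  ∀ (R : ℝ) (ζ : Fin s → ℂ) (ε : ℝ), 0 < ε → (∀ v ∈ ball ζ ε, val p c (sc R v) Δ ≠ 0) →
  ∃ Z : (Fin s → ℂ) → ℂ, DifferentiableOn ℂ Z (ball ζ ε) ∧
    ∀ v ∈ ball ζ ε, (f.map (val p c (sc R v))).eval (Z v) = 0

/-- values are holomorphic -/
def S_VALHOL : Prop := ∀ (s : ℕ) (β : Type) [Fintype β] (p : β → MvPolynomial (Fin s) ℂ)
  (c : β → ℂ) (G : MvPolynomial β (MvPolynomial (Fin s) ℂ)) (R : ℝ),
  ContDiff ℂ 1 fun v : Fin s → ℂ => val p c (sc R v) G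

/-- a dominant polynomial map takes purely imaginary values at points which are not critical -/
def S_DOMPT : Prop := ∀ (s : ℕ) (Φ : Fin s → MvPolynomial (Fin s) ℂ) (ζ₀ : Fin s → ℂ),
  (jac Φ ζ₀).det ≠ 0 → ∃ ζ : Fin s → ℂ, (∀ a, (eval ζ (Φ a)).re = 0) ∧ (jac Φ ζ).det ≠ 0

/-- regular matrix pencils of size `s` have at most `s` eigenvalues -/
def S_PENCIL : Prop := ∀ (s g : ℕ) (A : Matrix (Fin s) (Fin s) ℂ), A.det ≠ 0 → s < g →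
  ∀ m : Fin g → Fin s → ℝ, (∀ k, m k ≠ 0) → ∃ (k : Fin g) (j : Fin s),
    (Complex.exp (Real.pi * (k : ℕ) / g * Complex.I) * ∑ i, (m k i : ℂ) * A i j).re ≠ 0

/-- Baire's theorem in the manifold `Re Φ = 0` and differentiation -/
def S_BAIRE : Prop := ∀ (s : ℕ) (Φ : Fin s → MvPolynomial (Fin s) ℂ) (ζ : Fin s → ℂ),
  (∀ a, (eval ζ (Φ a)).re = 0) → (jac Φ ζ).det ≠ 0 → ∀ (g : ℕ) (ω : Fin g → ℂ),
  (∀ ζ' : Fin s → ℂ, (∀ a, (eval ζ' (Φ a)).re = 0) → (jac Φ ζ').det ≠ 0 →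
    ∀ k, ∃ m : Fin s → ℤ, m ≠ 0 ∧ (ω k * ∑ i, (m i : ℂ) * ζ' i).re = 0) →
  ∃ (A : Matrix (Fin s) (Fin s) ℂ) (m : Fin g → Fin s → ℤ), A.det ≠ 0 ∧ (∀ k, m k ≠ 0) ∧
    ∀ k j, (ω k * ∑ i, (m k i : ℂ) * A i j).re = 0

/-- existence of regular directions, first case (from `S_DOMPT`, `S_PENCIL`, `S_BAIRE`) -/
def S_REGDIR : Prop := ∀ (s g : ℕ) (Φ : Fin s → MvPolynomial (Fin s) ℂ) (e : Fin s → ℕ)
  (ζ₀ : Fin s → ℂ), s < g → (∀ a, (Φ a).IsHomogeneous (g * e a)) → (jac Φ ζ₀).det ≠ 0 →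
  ∃ ζ : Fin s → ℂ, (∀ a, (eval ζ (Φ a)).re = 0) ∧ (jac Φ ζ).det ≠ 0 ∧
    ∀ m : Fin s → ℤ, m ≠ 0 → (∑ i, (m i : ℂ) * ζ i).re ≠ 0

/-- existence of regular directions, second case: real forms (from `S_GENREAL`; `ζ = e^{iπ/(2g)} a`
with `a` real) -/
def S_REALREG : Prop := ∀ (s g : ℕ) (Φ : Fin s → MvPolynomial (Fin s) ℂ) (e : Fin s → ℕ)
  (ζ₀ : Fin s → ℂ), 2 ≤ g → (∀ a, (Φ a).IsHomogeneous (g * (2 * e a + 1))) →
  (∀ a m, (coeff m (Φ a)).im = 0) → (jac Φ ζ₀).det ≠ 0 →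
  ∃ ζ : Fin s → ℂ, (∀ a, (eval ζ (Φ a)).re = 0) ∧ (jac Φ ζ).det ≠ 0 ∧
    ∀ m : Fin s → ℤ, m ≠ 0 → (∑ i, (m i : ℂ) * ζ i).re ≠ 0

/-- the polynomial in `x, y` given by a polynomial in `z` and some of the `y` -/
noncomputable def em {s n : ℕ} {β : Type} (ι : Fin s → Fin n) (b : β → Fin n) :
    MvPolynomial β (MvPolynomial (Fin s) ℂ) →+* MvPolynomial (Fin n ⊕ Fin n) ℂ :=
  eval₂Hom (rename (R := ℂ) fun a => (Sum.inl (ι a) : Fin n ⊕ Fin n)).toRingHom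
    (fun i => X (Sum.inr (b i)))

/-- the coordinates `x_{ι a}` and `y_i`, `i ∈ B` -/
def coords {s n : ℕ} (ι : Fin s → Fin n) (B : Finset (Fin n)) : Finset (Fin n ⊕ Fin n) :=
  (Finset.univ.image fun a => Sum.inl (ι a)) ∪ B.image Sum.inr

/-- the coordinates with index in `J` are algebraically independent on `V` -/
def Indep {n : ℕ} (V : Set (Fin n ⊕ Fin n → ℂ)) (J : Finset (Fin n ⊕ Fin n)) : Prop :=
  ∀ f : MvPolynomial (Fin n ⊕ Fin n) ℂ, f.vars ⊆ J → (∀ p ∈ V, eval p f = 0) → f = 0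

/-- translation of the hypotheses on `V` to hypotheses on `P` -/
def S_DER : Prop := ∀ (n s : ℕ) (P : Ideal (MvPolynomial (Fin n ⊕ Fin n) ℂ))
  (V : Set (Fin n ⊕ Fin n → ℂ)), P.IsPrime →
  V = {p | (∀ f ∈ P, eval p f = 0) ∧ ∀ j : Fin n, p (Sum.inr j) ≠ 0} → V.Nonempty →
  ∀ ι : Fin s → Fin n, Function.Injective ι →
  (∀ f : MvPolynomial (Fin n ⊕ Fin n) ℂ, (∀ p ∈ V, eval p f = 0) → f ∈ P) ∧
  (∀ (i : Fin n) (p : MvPolynomial (Fin s) ℂ),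
    (∀ u ∈ V, u (Sum.inl i) = eval (fun a => u (Sum.inl (ι a))) p) →
    X (Sum.inl i) - rename (fun a => Sum.inl (ι a)) p ∈ P) ∧
  (∀ i : Fin n, X (Sum.inr i) ∉ P) ∧
  (∀ B : Finset (Fin n), Indep V (coords ι B) →
    ∀ g : MvPolynomial {i // i ∈ B} (MvPolynomial (Fin s) ℂ), em ι Subtype.val g ∈ P → g = 0) ∧
  (∀ (B : Finset (Fin n)) (j : Fin n), ¬ Indep V (insert (Sum.inr j) (coords ι B)) →
    ∃ g : Polynomial (MvPolynomial {i // i ∈ B} (MvPolynomial (Fin s) ℂ)), g ≠ 0 ∧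
      g.eval₂ (em ι Subtype.val) (X (Sum.inr j)) ∈ P)

end Pool.Agent.K3h22.EX
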