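import Pool.Agent.K3h22.EX.Stm2

/-! EX project (helper22), third part: exact statements for the case of linear exponents and rows of
degree at least 3 (no condition on the direction). -/

set_option autoImplicit false

namespace Pool.Agent.K3h22.EX

open MvPolynomial Filter Topology Metric Set

/-- the point `M τ` of the totally real space `M ℝ^s` -/
noncomputable def mv {s : ℕ} (M : Matrix (Fin s) (Fin s) ℂ) (τ : Fin s → ℝ) : Fin s → ℂ :=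
  M.mulVec fun i => (τ i : ℂ)

/-- compactness: finitely many continuous functions which are linearly independent on `M [-1, 1]^s`
-/
def S_UNIT1 : Prop := ∀ (s : ℕ) (κ : Type) [Fintype κ] (f : κ → (Fin s → ℂ) → ℂ)
  (M : Matrix (Fin s) (Fin s) ℂ), (∀ j, Continuous (f j)) →
  (∀ a : κ → ℂ, a ≠ 0 → ∃ τ : Fin s → ℝ, ‖τ‖ ≤ 1 ∧ ∑ j, a j * f j (mv M τ) ≠ 0) →
  ∃ c₀ : ℝ, 0 < c₀ ∧ ∀ a : κ → ℂ, ∃ τ : Fin s → ℝ, ‖τ‖ ≤ 1 ∧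
    ∀ w ∈ ball (mv M τ) c₀, c₀ * ‖a‖ ≤ ‖∑ j, a j * f j w‖

/-- exponential monomials are linearly independent on `M [-1, 1]^s` -/
def S_UNIT2 : Prop := ∀ (s : ℕ) (S : Finset ((Fin s → ℂ) × (Fin s →₀ ℕ)))
  (M : Matrix (Fin s) (Fin s) ℂ), M.det ≠ 0 → ∀ a : {x // x ∈ S} → ℂ, a ≠ 0 →
  ∃ τ : Fin s → ℝ, ‖τ‖ ≤ 1 ∧
    ∑ j, a j * ((∏ i, mv M τ i ^ (j.1.2 i)) * Complex.exp (∑ i, j.1.1 i * mv M τ i)) ≠ 0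

/-- zero-free balls for exponential polynomials with linear exponents (to be proved from `S_UNIT1`
and `S_UNIT2`) -/
def S_UNIT : Prop := ∀ (s : ℕ) (β : Type) [Fintype β] (p : β → MvPolynomial (Fin s) ℂ)
  (c : β → ℂ), (∀ b, (p b).totalDegree ≤ 1) →
  (∀ m : β → ℤ, m ≠ 0 → 0 < (∑ b, (m b : MvPolynomial (Fin s) ℂ) * p b).totalDegree) →
  ∀ G : MvPolynomial β (MvPolynomial (Fin s) ℂ), G ≠ 0 →
  ∀ M : Matrix (Fin s) (Fin s) ℂ, M.det ≠ 0 →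
  ∃ c₀ C : ℝ, 0 < c₀ ∧ 0 ≤ C ∧ ∀ z₀ : Fin s → ℂ, ∃ τ : Fin s → ℝ, ‖τ‖ ≤ 1 ∧
    ∀ w ∈ ball (z₀ + mv M τ) c₀, Real.exp (-(C * (‖z₀‖ + 1))) ≤ ‖val p c w G‖

/-- expansion of a polynomial at `R ζ + w`, `w` bounded -/
def S_EXPB : Prop := ∀ (s : ℕ) (q : MvPolynomial (Fin s) ℂ) (ζ : Fin s → ℂ) (ρ : ℝ),
  1 ≤ q.totalDegree → ∃ C : ℝ, 0 ≤ C ∧ ∀ R : ℝ, 1 ≤ R →
  ‖eval (sc R ζ) q - (R : ℂ) ^ q.totalDegree * eval ζ (top q) -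
    (R : ℂ) ^ (q.totalDegree - 1) * eval ζ (homogeneousComponent (q.totalDegree - 1) q)‖ ≤
    C * R ^ q.totalDegree / R ^ 2 ∧
  ∀ w w' : Fin s → ℂ, ‖w‖ ≤ ρ → ‖w'‖ ≤ ρ →
    ‖eval (sc R ζ + w) q - eval (sc R ζ + w') q -
      (R : ℂ) ^ (q.totalDegree - 1) * ∑ j, eval ζ (pderiv j (top q)) * (w j - w' j)‖ ≤
      C * R ^ q.totalDegree / R ^ 2 * ‖w - w'‖

/-- solution of the equations `Φ_a(v) - L_a(v) ∈ 2 π i ℤ` in balls of fixed radius near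
`R ζ + u + M ℝ^s` (to be proved from `S_EXPB` and `S_BC`) -/
def S_SOLVEB : Prop := ∀ (s : ℕ) (Φ : Fin s → MvPolynomial (Fin s) ℂ) (ζ : Fin s → ℂ),
  (∀ a, 3 ≤ (Φ a).totalDegree) → (∀ a, (eval ζ (top (Φ a))).re = 0) →
  (jac (fun a => top (Φ a)) ζ).det ≠ 0 →
  ∃ (M : Matrix (Fin s) (Fin s) ℂ) (u : Fin s → ℂ), M.det ≠ 0 ∧
  ∀ c₀ C : ℝ, 0 < c₀ → ∃ R₀ : ℝ, 1 ≤ R₀ ∧ ∀ R : ℝ, R₀ ≤ R → ∀ τ : Fin s → ℝ, ‖τ‖ ≤ 1 →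
  ∀ L : Fin s → (Fin s → ℂ) → ℂ,
  (∀ a, DifferentiableOn ℂ (L a) (ball (sc R ζ + u + mv M τ) c₀)) →
  (∀ a, ∀ v ∈ ball (sc R ζ + u + mv M τ) c₀, |(L a v).re| ≤ C * R) →
  ∃ v ∈ ball (sc R ζ + u + mv M τ) c₀, ∀ a, ∃ N : ℤ,
    eval v (Φ a) - L a v = 2 * Real.pi * Complex.I * (N : ℂ)

end Pool.Agent.K3h22.EX
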