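import Pool.Agent.K3h22.EX.Stm3

/-! EX project (helper22), fourth part: varieties over linear spaces in general position; exact
statements of the parts. -/

set_option autoImplicit false

namespace Pool.Agent.K3h22.EX

open MvPolynomial Filter Topology Metric Set

/-- the linear form `∑ ℓ_i z_i` -/
def dot {s : ℕ} (ℓ z : Fin s → ℂ) : ℂ := ∑ i, ℓ i * z i

/-- the polynomial `∑ ℓ_i X_i + μ` -/
noncomputable def lin {s : ℕ} (ℓ : Fin s → ℂ) (μ : ℂ) : MvPolynomial (Fin s) ℂ :=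
  ∑ i, C (ℓ i) * X i + C μ

/-- two-sided bounds for exponential polynomials with linear exponents, near the directions `ζ`
whose values `Re ℓ_b(ζ)` are close to numbers `ω_b` linearly independent over `ℚ` -/
def S_DOM2 : Prop := ∀ (s : ℕ) (β : Type) [Fintype β] (ℓ : β → Fin s → ℂ) (μ c : β → ℂ)
  (ω : β → ℝ), (∀ m : β → ℤ, m ≠ 0 → ∑ b, (m b : ℝ) * ω b ≠ 0) →
  ∀ G : MvPolynomial β (MvPolynomial (Fin s) ℂ), G ≠ 0 → ∃ e ∈ G.support, ∃ η : ℝ, 0 < η ∧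
  ∀ ζ : Fin s → ℂ, (∀ b, |(dot (ℓ b) ζ).re - ω b| ≤ η) → eval ζ (top (coeff e G)) ≠ 0 →
  ∃ ε : ℝ, 0 < ε ∧ ∃ R₀ : ℝ, 1 ≤ R₀ ∧ ∃ C : ℝ, 0 ≤ C ∧
  ∀ R : ℝ, R₀ ≤ R → ∀ v ∈ ball ζ ε, val (fun b => lin (ℓ b) (μ b)) c (sc R v) G ≠ 0 ∧
    |Real.log ‖val (fun b => lin (ℓ b) (μ b)) c (sc R v) G‖ -
      R * ∑ b, (e b : ℝ) * (dot (ℓ b) v).re| ≤ C * Real.log R

/-- the size of a root of a polynomial is given by a slope -/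
def S_SLOPE : Prop := ∀ (g : Polynomial ℂ) (E : ℕ → ℝ) (K : ℝ) (t : ℂ), 0 ≤ K →
  (∀ k ∈ g.support, |Real.log ‖g.coeff k‖ - E k| ≤ K) → g.coeff 0 ≠ 0 → g.eval t = 0 →
  t ≠ 0 ∧ ∃ j ∈ g.support, ∃ k ∈ g.support, j < k ∧
    |Real.log ‖t‖ - (E j - E k) / ((k : ℝ) - j)| ≤ 2 * K + Real.log (g.natDegree + 1)

/-- uniformity on compact sets -/
def S_TUBE : Prop := ∀ (s : ℕ) (K : Set (Fin s → ℂ)) (T : ℝ → (Fin s → ℂ) → Prop)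
  (F : ℝ → (Fin s → ℂ) → ℝ), IsCompact K →
  (∀ ξ ∈ K, ∃ ε : ℝ, 0 < ε ∧ ∃ R₀ C : ℝ, ∀ R : ℝ, R₀ ≤ R → ∀ v ∈ ball ξ ε,
    T R v ∧ F R v ≤ C * Real.log R) →
  ∃ ε : ℝ, 0 < ε ∧ ∃ R₀ : ℝ, 1 ≤ R₀ ∧ ∃ C : ℝ, 0 ≤ C ∧ ∀ R : ℝ, R₀ ≤ R →
    ∀ v ∈ thickening ε K, T R v ∧ F R v ≤ C * Real.log R

/-- a slope is constant on connected sets -/
def S_CONST : Prop := ∀ (s : ℕ) (U : Set (Fin s → ℂ)) (y : (Fin s → ℂ) → ℂ) (κ : Type) [Finite κ]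
  (S : κ → (Fin s → ℂ) → ℝ) (K : ℝ), IsPreconnected U → ContinuousOn y U → (∀ v ∈ U, y v ≠ 0) →
  (∀ j, ContinuousOn (S j) U) → (∀ v ∈ U, ∃ j, |Real.log ‖y v‖ - S j v| ≤ K) →
  (∀ i j, (∀ v ∈ U, S i v = S j v) ∨ ∀ v ∈ U, 2 * K < |S i v - S j v|) →
  ∀ v₀ ∈ U, ∀ j, |Real.log ‖y v₀‖ - S j v₀| ≤ K → ∀ v ∈ U, |Real.log ‖y v‖ - S j v| ≤ K

/-- holomorphic roots on convex open sets with a given value -/
def S_HROOT2 : Prop := ∀ (s : ℕ) (β : Type) [Fintype β] (p : β → MvPolynomial (Fin s) ℂ)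
  (c : β → ℂ) (f V W : Polynomial (MvPolynomial β (MvPolynomial (Fin s) ℂ)))
  (Δ : MvPolynomial β (MvPolynomial (Fin s) ℂ)), f.Monic →
  V * f + W * Polynomial.derivative f = Polynomial.C Δ →
  ∀ (R : ℝ) (U : Set (Fin s → ℂ)), IsOpen U → Convex ℝ U →
  (∀ v ∈ U, val p c (sc R v) Δ ≠ 0) → ∀ v₀ ∈ U, ∀ u : ℂ,
  (f.map (val p c (sc R v₀))).eval u = 0 → ∃ Z : (Fin s → ℂ) → ℂ, DifferentiableOn ℂ Z U ∧
    Z v₀ = u ∧ ∀ v ∈ U, (f.map (val p c (sc R v))).eval (Z v) = 0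

/-- two segments which avoid the zeros of a polynomial -/
def S_PATH : Prop := ∀ (s : ℕ) (q : MvPolynomial (Fin s) ℂ) (Ω : Set (Fin s → ℂ)), IsOpen Ω →
  Convex ℝ Ω → ∀ ζ₁ ∈ Ω, ∀ ζ₂ ∈ Ω, eval ζ₁ q ≠ 0 → eval ζ₂ q ≠ 0 →
  ∃ ζ ∈ Ω, (∀ v ∈ segment ℝ ζ₁ ζ, eval v q ≠ 0) ∧ ∀ v ∈ segment ℝ ζ ζ₂, eval v q ≠ 0

/-- real parts of linear forms which are linearly independent over the reals -/
def S_SURJ : Prop := ∀ (s n : ℕ) (ℓ : Fin n → Fin s → ℂ),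
  (∀ c : Fin n → ℝ, (∀ a, ∑ i, (c i : ℂ) * ℓ i a = 0) → c = 0) →
  ∀ ω : Fin n → ℝ, ∃ ζ : Fin s → ℂ, ∀ i, (dot (ℓ i) ζ).re = ω i

/-- completion of `x_ι` to a transcendence basis by some of the `y_j` -/
def S_TBASIS : Prop := ∀ (n s : ℕ) (P : Ideal (MvPolynomial (Fin n ⊕ Fin n) ℂ))
  (V : Set (Fin n ⊕ Fin n → ℂ)), P.IsPrime →
  V = {p | (∀ f ∈ P, eval p f = 0) ∧ ∀ j : Fin n, p (Sum.inr j) ≠ 0} → V.Nonempty →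
  ∀ ι : Fin s → Fin n, Function.Injective ι → Indep V (coords ι ∅) →
  (∀ i, ∃ p : MvPolynomial (Fin s) ℂ,
    ∀ u ∈ V, u (Sum.inl i) = eval (fun a => u (Sum.inl (ι a))) p) →
  (∃ J : Finset (Fin n ⊕ Fin n), J.card = n ∧ Indep V J) →
  (∀ J : Finset (Fin n ⊕ Fin n), J.card = n + 1 → ¬ Indep V J) →
  ∃ B : Finset (Fin n), B.card + s = n ∧ Indep V (coords ι B)

end Pool.Agent.K3h22.EX
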