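import Pool.Agent.K3h22.EX.Stm4

/-! EX project (helper22), fifth part: affine subspaces in general position. -/

set_option autoImplicit false

namespace Pool.Agent.K3h22.EX

open MvPolynomial

/-- `L` lies in no hyperplane `∑ c_i x_i = d` with real `c`, and `dim M(L) = s` for all rational
`s × n` matrices `M` of rank `s` -/
def GenPos {n : ℕ} (s : ℕ) (L : AffineSubspace ℂ (Fin n → ℂ)) : Prop :=
  Module.finrank ℂ L.direction = s ∧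
  (∀ c : Fin n → ℝ, c ≠ 0 → ∃ v ∈ L.direction, ∑ i, (c i : ℂ) * v i ≠ 0) ∧
  ∀ M : Matrix (Fin s) (Fin n) ℚ, M.rank = s → ∀ v ∈ L.direction,
    (∀ a, ∑ i, (M a i : ℂ) * v i = 0) → v = 0

/-- coordinates on `L` -/
def S_COORD : Prop := ∀ (n s : ℕ) (V : Set (Fin n ⊕ Fin n → ℂ))
  (L : AffineSubspace ℂ (Fin n → ℂ)), GenPos s L → V.Nonempty →
  (∀ u ∈ V, (fun i => u (Sum.inl i)) ∈ L) →
  (∀ f : MvPolynomial (Fin n) ℂ, (∀ u ∈ V, eval (fun i => u (Sum.inl i)) f = 0) →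
    ∀ x ∈ L, eval x f = 0) →
  ∃ (ι : Fin s → Fin n) (ℓ : Fin n → Fin s → ℂ) (μ : Fin n → ℂ), Function.Injective ι ∧
    (∀ u ∈ V, ∀ i, u (Sum.inl i) = ∑ a, ℓ i a * u (Sum.inl (ι a)) + μ i) ∧
    Indep V (coords ι ∅) ∧
    (∀ c : Fin n → ℝ, (∀ a, ∑ i, (c i : ℂ) * ℓ i a = 0) → c = 0) ∧
    ∀ M : Matrix (Fin s) (Fin n) ℚ, LinearIndependent ℚ (fun a => M a) →
      (Matrix.of fun a j => ∑ i, (M a i : ℂ) * ℓ i j).det ≠ 0

/-- hyperplanes -/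
def S_HYP : Prop := ∀ (n : ℕ) (L : AffineSubspace ℂ (Fin (n + 1) → ℂ)) (α : Fin (n + 1) → ℂ)
  (d : ℂ), (∀ x, x ∈ L ↔ ∑ i, α i * x i = d) → LinearIndependent ℚ α →
  (∀ t : ℂ, t ≠ 0 → ∃ i, (t * α i).im ≠ 0) → GenPos n L

end Pool.Agent.K3h22.EX
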