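import Pool.Agent.K3h22.EX.Stm6

/-! EX project (helper22), seventh part: varieties of larger dimension, almost all linear spaces;
exact statements of the parts. -/

set_option autoImplicit false

namespace Pool.Agent.K3h22.EX

open MvPolynomial MeasureTheory

/-- the variables with index in `J` are algebraically independent modulo `P` -/
def IndepI {σ : Type} (P : Ideal (MvPolynomial σ ℂ)) (J : Finset σ) : Prop :=
  ∀ f : MvPolynomial σ ℂ, f.vars ⊆ J → f ∈ P → f = 0

/-- a transcendence basis consisting of variables -/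
def BasisI {σ : Type} [DecidableEq σ] (P : Ideal (MvPolynomial σ ℂ)) (B : Finset σ) : Prop :=
  IndepI P B ∧ ∀ v, v ∉ B → ¬ IndepI P (insert v B)

/-- a hyperplane section `x_b = c` -/
def S_CUT1 : Prop := ∀ (σ : Type) [Fintype σ] [DecidableEq σ] (P : Ideal (MvPolynomial σ ℂ)),
  P.IsPrime → ∀ B : Finset σ, BasisI P B → ∀ b ∈ B, ∀ H : MvPolynomial σ ℂ, H ∉ P →
  ∃ P' : Ideal (MvPolynomial σ ℂ), P'.IsPrime ∧ P ≤ P' ∧ H ∉ P' ∧ BasisI P' (B.erase b)

/-- the matroid of algebraic independence -/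
def S_CUT2 : Prop := ∀ (σ : Type) [Fintype σ] [DecidableEq σ] (P : Ideal (MvPolynomial σ ℂ)),
  P.IsPrime → (∀ B J : Finset σ, BasisI P B → IndepI P J → J.card ≤ B.card) ∧
  ∀ T J : Finset σ, IndepI P T → IndepI P J → ∃ B : Finset σ, T ⊆ B ∧ J.card ≤ B.card ∧ BasisI P B

/-- almost all families of complex numbers have algebraically independent real and imaginary
parts -/
def S_AEA : Prop := ∀ n s : ℕ, ∀ᵐ A : Fin n → Fin s → ℂ,
  AlgebraicIndependent ℚ (Sum.elim (fun p : Fin n × Fin s => (A p.1 p.2).re)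
    (fun p : Fin n × Fin s => (A p.1 p.2).im))

end Pool.Agent.K3h22.EX
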