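import Pool.Agent.K3h22.EX.Core3
import Pool.Agent.K3h22.EX.Stm4

/-! EX project, linear spaces in general position: preparations. -/

set_option autoImplicit false

namespace Pool.Agent.K3h22.EX

open MvPolynomial Filter Topology Metric Set

variable {s n : ℕ}

theorem eval_lin (ℓ : Fin s → ℂ) (μ : ℂ) (z : Fin s → ℂ) : eval z (lin ℓ μ) = dot ℓ z + μ := by
  simp [lin, dot]

theorem eval_sc_lin (ℓ : Fin s → ℂ) (μ : ℂ) (R : ℝ) (v : Fin s → ℂ) :
    eval (sc R v) (lin ℓ μ) = R * dot ℓ v + μ := by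
  rw [eval_lin]
  congr 1
  simp only [dot, sc, Finset.mul_sum]
  exact Finset.sum_congr rfl fun i _ => by ring

theorem pderiv_lin (ℓ : Fin s → ℂ) (μ : ℂ) (j : Fin s) : pderiv j (lin ℓ μ) = C (ℓ j) := by
  classical
  simp only [lin, map_add, map_sum, Derivation.leibniz, pderiv_C, smul_zero, add_zero, pderiv_X,
    smul_eq_mul]
  rw [Finset.sum_eq_single j]
  · simp
  · intro i _ hi
    simp [Pi.single_apply, hi.symm]
  · simp

theorem lin_isHomogeneous (ℓ : Fin s → ℂ) : (lin ℓ 0).IsHomogeneous 1 := by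
  unfold lin
  rw [map_zero, add_zero]
  refine IsHomogeneous.sum _ _ _ fun i _ => ?_
  have h := (isHomogeneous_C (Fin s) (ℓ i)).mul (isHomogeneous_X ℂ i)
  simpa using h

theorem lin_ne_zero {ℓ : Fin s → ℂ} (hℓ : ℓ ≠ 0) : lin ℓ 0 ≠ 0 := by
  intro h
  apply hℓ
  funext j
  have h1 := pderiv_lin ℓ 0 j
  rw [h, map_zero] at h1
  simpa using (C_eq_zero.1 h1.symm)

theorem lin_eq (ℓ : Fin s → ℂ) (μ : ℂ) : lin ℓ μ = lin ℓ 0 + C μ := by
  simp [lin]

theorem totalDegree_lin {ℓ : Fin s → ℂ} (hℓ : ℓ ≠ 0) (μ : ℂ) : (lin ℓ μ).totalDegree = 1 := by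
  rw [lin_eq, totalDegree_add_eq_left_of_totalDegree_lt]
  · exact (lin_isHomogeneous ℓ).totalDegree (lin_ne_zero hℓ)
  · rw [(lin_isHomogeneous ℓ).totalDegree (lin_ne_zero hℓ), totalDegree_C]
    exact one_pos

theorem top_lin {ℓ : Fin s → ℂ} (hℓ : ℓ ≠ 0) (μ : ℂ) : top (lin ℓ μ) = lin ℓ 0 := by
  unfold top
  rw [totalDegree_lin hℓ, lin_eq, map_add]
  have h1 : homogeneousComponent 1 (lin ℓ 0) = lin ℓ 0 :=
    (homogeneousComponent_of_mem (lin_isHomogeneous ℓ)).trans (if_pos rfl)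
  have h2 : homogeneousComponent 1 (C μ : MvPolynomial (Fin s) ℂ) = 0 :=
    (homogeneousComponent_of_mem (isHomogeneous_C (Fin s) μ)).trans (if_neg (by norm_num))
  rw [h1, h2, add_zero]

theorem rat_indep {β : Type} [Fintype β] {ω : β → ℝ}
    (hω : ∀ m : β → ℤ, m ≠ 0 → ∑ b, (m b : ℝ) * ω b ≠ 0) (ρ : β → ℚ) (hρ : ρ ≠ 0) :
    ∑ b, (ρ b : ℝ) * ω b ≠ 0 := by
  classical
  set N : ℕ := ∏ b, (ρ b).den with hN
  have hN0 : N ≠ 0 := Finset.prod_ne_zero_iff.2 fun b _ => (ρ b).den_nz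
  have hd : ∀ b, ((ρ b).den : ℤ) ∣ (N : ℤ) := fun b => by
    exact_mod_cast Finset.dvd_prod_of_mem (fun b => (ρ b).den) (Finset.mem_univ b)
  choose k hk using hd
  have h1 : ∀ b, (((ρ b).num * k b : ℤ) : ℝ) = N * (ρ b : ℝ) := by
    intro b
    have h2 : ((N : ℤ) : ℝ) = ((ρ b).den : ℝ) * (k b : ℝ) := by
      rw [hk b]
      push_cast
      ring
    have h3 : ((N : ℕ) : ℝ) = ((ρ b).den : ℝ) * (k b : ℝ) := by
      rw [← h2]
      norm_cast
    have h4 : (ρ b : ℝ) * ((ρ b).den : ℝ) = ((ρ b).num : ℝ) := by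
      have := Rat.mul_den_eq_num (ρ b)
      exact_mod_cast this
    rw [h3, Int.cast_mul, ← h4]
    ring
  intro h0
  refine hω (fun b => (ρ b).num * k b) ?_ ?_
  · obtain ⟨b, hb⟩ := Function.ne_iff.1 hρ
    refine Function.ne_iff.2 ⟨b, ?_⟩
    intro h5
    have h6 := h1 b
    rw [show (ρ b).num * k b = 0 from h5, Int.cast_zero] at h6
    rcases mul_eq_zero.1 h6.symm with h7 | h7
    · exact hN0 (by exact_mod_cast h7)
    · exact hb (by exact_mod_cast h7)
  · simp only [h1]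
    rw [← mul_zero (N : ℝ), ← h0, Finset.mul_sum]
    exact Finset.sum_congr rfl fun b _ => by ring

/-- the relations for the rows at the points of the model -/
theorem kill_row (P : Ideal (MvPolynomial (Fin n ⊕ Fin n) ℂ))
    (ι : Fin s → Fin n) (p : Fin n → MvPolynomial (Fin s) ℂ) (hι : ∀ a, p (ι a) = X a)
    (J : Fin s → Fin n) (hJ : Function.Injective J) (B : Finset (Fin n)) (hJB : ∀ a, J a ∉ B)
    (hcov : ∀ i, i ∉ B → ∃ a, J a = i)
    (f : Polynomial (MvPolynomial {i // i ∈ B} (MvPolynomial (Fin s) ℂ)))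
    (D g0 : MvPolynomial {i // i ∈ B} (MvPolynomial (Fin s) ℂ))
    (N : Fin s → Polynomial (MvPolynomial {i // i ∈ B} (MvPolynomial (Fin s) ℂ)))
    (H : MvPolynomial (Fin n ⊕ Fin n) ℂ)
    (hM : ∀ (χ : MvPolynomial {i // i ∈ B} (MvPolynomial (Fin s) ℂ) →+* ℂ) (t : ℂ)
        (z : Fin s → ℂ) (Y : Fin n → ℂ), (∀ g : MvPolynomial (Fin s) ℂ, χ (C g) = eval z g) →
        (∀ i (h : i ∈ B), Y i = χ (X ⟨i, h⟩)) →
        (∀ a, χ D * Y (J a) = ((N a).map χ).eval t) → χ D ≠ 0 → (f.map χ).eval t = 0 →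
        (∀ F ∈ P, eval (Sum.elim (fun i => eval z (p i)) Y) F = 0) ∧
        (χ g0 ≠ 0 → eval (Sum.elim (fun i => eval z (p i)) Y) H ≠ 0))
    (g : ∀ _ : Fin s, Polynomial (MvPolynomial {i // i ∈ B} (MvPolynomial (Fin s) ℂ)))
    (hgP : ∀ a, (g a).eval₂ (em ι Subtype.val) (X (Sum.inr (J a))) ∈ P) (c : Fin n → ℂ)
    (z : Fin s → ℂ) (t : ℂ)
    (hD : val (fun i : {i // i ∈ B} => p i) (fun i => c i) z D ≠ 0)
    (ht : (f.map (val (fun i : {i // i ∈ B} => p i) (fun i => c i) z)).eval t = 0) (a : Fin s) :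
    ((g a).map (val (fun i : {i // i ∈ B} => p i) (fun i => c i) z)).eval
      (((N a).map (val (fun i : {i // i ∈ B} => p i) (fun i => c i) z)).eval t /
        val (fun i : {i // i ∈ B} => p i) (fun i => c i) z D) = 0 := by
  classical
  set χ := val (fun i : {i // i ∈ B} => p i) (fun i => c i) z with hχ
  set Y : Fin n → ℂ := fun i => if h : i ∈ B then Complex.exp (eval z (p i) + c i)
    else ((N (Classical.choose (hcov i h))).map χ).eval t / χ D with hY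
  have hYB : ∀ i, i ∈ B → Y i = Complex.exp (eval z (p i) + c i) := by
    intro i hi
    simp only [hY, dif_pos hi]
  have hYJ : ∀ a, Y (J a) = ((N a).map χ).eval t / χ D := by
    intro a
    simp only [hY, dif_neg (hJB a)]
    rw [hJ (Classical.choose_spec (hcov (J a) (hJB a)))]
  have h6 := (hM χ t z Y (fun g => val_C _ _ _ g)
    (fun i hi => (hYB i hi).trans (val_X (fun i : {i // i ∈ B} => p i) (fun i => c i) z
      ⟨i, hi⟩).symm)
    (fun a => by rw [hYJ a]; exact mul_div_cancel₀ _ hD) hD ht).1 _ (hgP a)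
  rw [Polynomial.hom_eval₂, eval_X, Sum.elim_inr, hYJ a] at h6
  rw [Polynomial.eval_map, ← h6]
  congr 1
  apply MvPolynomial.ringHom_ext
  · intro r
    rw [hχ, val_C, RingHom.comp_apply, eval_em, coe_eval₂Hom, eval₂_C]
    congr 2
    funext b
    rw [Sum.elim_inl, hι, eval_X]
  · intro i
    rw [hχ, val_X, RingHom.comp_apply, eval_em, coe_eval₂Hom, eval₂_X, Sum.elim_inr, hYB i.1 i.2]

/-- the point -/
theorem kill_point (P : Ideal (MvPolynomial (Fin n ⊕ Fin n) ℂ))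
    (p : Fin n → MvPolynomial (Fin s) ℂ)
    (J : Fin s → Fin n) (B : Finset (Fin n)) (hcov : ∀ i, i ∉ B → ∃ a, J a = i)
    (f : Polynomial (MvPolynomial {i // i ∈ B} (MvPolynomial (Fin s) ℂ)))
    (D g0 : MvPolynomial {i // i ∈ B} (MvPolynomial (Fin s) ℂ))
    (N : Fin s → Polynomial (MvPolynomial {i // i ∈ B} (MvPolynomial (Fin s) ℂ)))
    (H : MvPolynomial (Fin n ⊕ Fin n) ℂ)
    (hM : ∀ (χ : MvPolynomial {i // i ∈ B} (MvPolynomial (Fin s) ℂ) →+* ℂ) (t : ℂ)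
        (z : Fin s → ℂ) (Y : Fin n → ℂ), (∀ g : MvPolynomial (Fin s) ℂ, χ (C g) = eval z g) →
        (∀ i (h : i ∈ B), Y i = χ (X ⟨i, h⟩)) →
        (∀ a, χ D * Y (J a) = ((N a).map χ).eval t) → χ D ≠ 0 → (f.map χ).eval t = 0 →
        (∀ F ∈ P, eval (Sum.elim (fun i => eval z (p i)) Y) F = 0) ∧
        (χ g0 ≠ 0 → eval (Sum.elim (fun i => eval z (p i)) Y) H ≠ 0))
    (c : Fin n → ℂ) (z : Fin s → ℂ) (t : ℂ)
    (hD : val (fun i : {i // i ∈ B} => p i) (fun i => c i) z D ≠ 0)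
    (hg0 : val (fun i : {i // i ∈ B} => p i) (fun i => c i) z g0 ≠ 0)
    (ht : (f.map (val (fun i : {i // i ∈ B} => p i) (fun i => c i) z)).eval t = 0)
    (hrow : ∀ a, ((N a).map (val (fun i : {i // i ∈ B} => p i) (fun i => c i) z)).eval t /
        val (fun i : {i // i ∈ B} => p i) (fun i => c i) z D =
        Complex.exp (eval z (p (J a)) + c (J a))) :
    (∀ F ∈ P, eval (Sum.elim (fun i => eval z (p i))
      fun i => Complex.exp (eval z (p i) + c i)) F = 0) ∧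
    eval (Sum.elim (fun i => eval z (p i)) fun i => Complex.exp (eval z (p i) + c i)) H ≠ 0 := by
  have h := hM (val (fun i : {i // i ∈ B} => p i) (fun i => c i) z) t z
    (fun i => Complex.exp (eval z (p i) + c i)) (fun g => val_C _ _ _ g)
    (fun i hi => (val_X (fun i : {i // i ∈ B} => p i) (fun i => c i) z ⟨i, hi⟩).symm)
    (fun a => by rw [← hrow a]; exact mul_div_cancel₀ _ hD) hD ht
  exact ⟨h.1, h.2 hg0⟩

end Pool.Agent.K3h22.EX
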