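import Pool.Agent.K3h22.EX.TA
import Pool.Agent.K3h91.EX.Prep

/-! EX project, linear spaces in general position: slopes and tubes. -/

set_option autoImplicit false

namespace Pool.Agent.K3h22.EX

open MvPolynomial Filter Topology Metric Set

/-- the model with its data -/
structure TData (s : ℕ) (β : Type) [Fintype β] where
  ℓ : β → Fin s → ℂ
  μ : β → ℂ
  c : β → ℂ
  f : Polynomial (MvPolynomial β (MvPolynomial (Fin s) ℂ))
  U : Polynomial (MvPolynomial β (MvPolynomial (Fin s) ℂ))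
  W : Polynomial (MvPolynomial β (MvPolynomial (Fin s) ℂ))
  D : MvPolynomial β (MvPolynomial (Fin s) ℂ)
  Δ : MvPolynomial β (MvPolynomial (Fin s) ℂ)
  g0 : MvPolynomial β (MvPolynomial (Fin s) ℂ)
  N : Fin s → Polynomial (MvPolynomial β (MvPolynomial (Fin s) ℂ))
  g : Fin s → Polynomial (MvPolynomial β (MvPolynomial (Fin s) ℂ))
  monic : f.Monic
  deg : 0 < f.natDegree
  hD : D ≠ 0
  hΔ : Δ ≠ 0
  hg0 : g0 ≠ 0
  hUW : U * f + W * Polynomial.derivative f = Polynomial.C Δ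
  hg : ∀ a, g a ≠ 0
  hgc : ∀ a, (g a).coeff 0 ≠ 0
  row : ∀ (z : Fin s → ℂ) (t : ℂ), val (fun b => lin (ℓ b) (μ b)) c z D ≠ 0 →
    (f.map (val (fun b => lin (ℓ b) (μ b)) c z)).eval t = 0 → ∀ a,
    ((g a).map (val (fun b => lin (ℓ b) (μ b)) c z)).eval
      (((N a).map (val (fun b => lin (ℓ b) (μ b)) c z)).eval t /
        val (fun b => lin (ℓ b) (μ b)) c z D) = 0

variable {s : ℕ} {β : Type} [Fintype β]

/-- real part of the exponent with rational weights -/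
noncomputable def sr (ℓ : β → Fin s → ℂ) (ρ : β → ℚ) (v : Fin s → ℂ) : ℝ :=
  ∑ b, (ρ b : ℝ) * (dot (ℓ b) v).re

/-- the points at which the real parts of the forms are close to `ω` -/
def Om (ℓ : β → Fin s → ℂ) (ω : β → ℝ) (η : ℝ) : Set (Fin s → ℂ) :=
  {v | ∀ b, |(dot (ℓ b) v).re - ω b| < η}

theorem continuous_dot (ℓ : Fin s → ℂ) : Continuous (dot ℓ) := by
  unfold dot
  fun_prop

theorem continuous_sr (ℓ : β → Fin s → ℂ) (ρ : β → ℚ) : Continuous (sr ℓ ρ) := by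
  unfold sr
  exact continuous_finsetSum _ fun b _ =>
    continuous_const.mul (Complex.continuous_re.comp (continuous_dot _))

theorem isOpen_Om (ℓ : β → Fin s → ℂ) (ω : β → ℝ) (η : ℝ) : IsOpen (Om ℓ ω η) := by
  unfold Om
  simp only [Set.ofPred_forall]
  refine isOpen_iInter_of_finite fun b => ?_
  exact isOpen_lt (((Complex.continuous_re.comp (continuous_dot _)).sub continuous_const).abs)
    continuous_const

theorem dot_add (ℓ v w : Fin s → ℂ) : dot ℓ (v + w) = dot ℓ v + dot ℓ w := by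
  simp [dot, mul_add, Finset.sum_add_distrib]

theorem dot_smul (ℓ v : Fin s → ℂ) (t : ℝ) : dot ℓ (t • v) = t * dot ℓ v := by
  simp only [dot, Pi.smul_apply, Complex.real_smul, Finset.mul_sum]
  exact Finset.sum_congr rfl fun i _ => by ring

theorem convex_Om (ℓ : β → Fin s → ℂ) (ω : β → ℝ) (η : ℝ) : Convex ℝ (Om ℓ ω η) := by
  intro v hv w hw a b ha hb hab b'
  rw [dot_add, dot_smul, dot_smul, Complex.add_re, Complex.re_ofReal_mul, Complex.re_ofReal_mul]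
  have h1 : a * (dot (ℓ b') v).re + b * (dot (ℓ b') w).re - ω b' =
      a * ((dot (ℓ b') v).re - ω b') + b * ((dot (ℓ b') w).re - ω b') := by
    linear_combination ω b' * hab
  rw [h1]
  have hv' := abs_lt.1 (hv b')
  have hw' := abs_lt.1 (hw b')
  rw [abs_lt]
  rcases ha.eq_or_lt with rfl | ha'
  · have hb1 : b = 1 := by linarith
    subst hb1
    constructor <;> linarith
  · constructor <;> nlinarith

omit [Fintype β] in
theorem Om_mono (ℓ : β → Fin s → ℂ) (ω : β → ℝ) {η η' : ℝ} (h : η ≤ η') :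
    Om ℓ ω η ⊆ Om ℓ ω η' := fun _ hv b => (hv b).trans_le h

/-- different slopes stay apart -/
theorem exists_gap (ℓ : β → Fin s → ℂ) (ω : β → ℝ)
    (hω : ∀ m : β → ℤ, m ≠ 0 → ∑ b, (m b : ℝ) * ω b ≠ 0) {κ : Type} [Finite κ] (ρ : κ → β → ℚ) :
    ∃ η : ℝ, 0 < η ∧ ∃ γ : ℝ, 0 < γ ∧ ∀ j, ρ j ≠ 0 → ∀ v ∈ Om ℓ ω η, γ ≤ |sr ℓ (ρ j) v| := by
  classical
  have h1 : ∀ j, ∃ δ : ℝ, 0 < δ ∧ ∀ v ∈ Om ℓ ω δ, ρ j ≠ 0 → δ ≤ |sr ℓ (ρ j) v| := by
    intro j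
    by_cases hj : ρ j = 0
    · exact ⟨1, one_pos, fun v _ h => absurd hj h⟩
    set d := |∑ b, (ρ j b : ℝ) * ω b| with hd
    have hd0 : 0 < d := abs_pos.2 (rat_indep hω (ρ j) hj)
    set M := ∑ b, |(ρ j b : ℝ)| with hM
    have hM0 : 0 ≤ M := Finset.sum_nonneg fun b _ => abs_nonneg _
    refine ⟨d / (M + 2), by positivity, fun v hv _ => ?_⟩
    have h2 : |sr ℓ (ρ j) v - ∑ b, (ρ j b : ℝ) * ω b| ≤ M * (d / (M + 2)) := by
      unfold sr
      rw [← Finset.sum_sub_distrib, hM, Finset.sum_mul]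
      refine (Finset.abs_sum_le_sum_abs _ _).trans (Finset.sum_le_sum fun b _ => ?_)
      rw [← mul_sub, abs_mul]
      exact mul_le_mul_of_nonneg_left (hv b).le (abs_nonneg _)
    have h3 : d - |sr ℓ (ρ j) v| ≤ M * (d / (M + 2)) := by
      refine le_trans ?_ h2
      rw [hd, ← abs_neg (sr ℓ (ρ j) v - _), neg_sub]
      exact abs_sub_abs_le_abs_sub _ _
    have h4 : d = (M + 2) * (d / (M + 2)) := by
      field_simp
    have h5 : 0 < d / (M + 2) := by positivity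
    nlinarith
  choose δ hδ h1 using h1
  obtain ⟨η, hη, hη'⟩ := exists_lower δ hδ
  exact ⟨η, hη, η, hη, fun j hj v hv => (hη' j).trans (h1 j v (Om_mono ℓ ω (hη' j) hv) hj)⟩

namespace TData

variable (T : TData s β)

/-- the specialisation -/
noncomputable def χ (R : ℝ) (v : Fin s → ℂ) : MvPolynomial β (MvPolynomial (Fin s) ℂ) →+* ℂ :=
  val (fun b => lin (T.ℓ b) (T.μ b)) T.c (sc R v)

/-- the rows -/
noncomputable def Y (R : ℝ) (v : Fin s → ℂ) (t : ℂ) (a : Fin s) : ℂ :=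
  ((T.N a).map (T.χ R v)).eval t / T.χ R v T.D

/-- the index set of all the coefficients -/
abbrev Ix : Type := Fin 3 ⊕ Σ a : Fin s, {k // k ∈ (T.g a).support}

/-- all the coefficients -/
noncomputable def G : T.Ix → MvPolynomial β (MvPolynomial (Fin s) ℂ) :=
  Sum.elim ![T.D, T.Δ, T.g0] fun x => (T.g x.1).coeff x.2

theorem G_ne (j : T.Ix) : T.G j ≠ 0 := by
  rcases j with j | ⟨a, k, hk⟩
  · fin_cases j
    · exact T.hD
    · exact T.hΔ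
    · exact T.hg0
  · exact Polynomial.mem_support_iff.1 hk

/-- the indices of the slopes -/
abbrev Sl (a : Fin s) : Type :=
  {x : ℕ × ℕ // x ∈ ((T.g a).support ×ˢ (T.g a).support).filter fun x => x.1 < x.2}

/-- the exponent of the coefficient `k` of the row `a` -/
noncomputable def E (e : T.Ix → β →₀ ℕ) (a : Fin s) (k : ℕ) : β → ℚ :=
  if h : k ∈ (T.g a).support then fun b => (e (Sum.inr ⟨a, ⟨k, h⟩⟩) b : ℚ) else 0

/-- the slopes -/
noncomputable def sv (e : T.Ix → β →₀ ℕ) (a : Fin s) (x : T.Sl a) : β → ℚ :=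
  fun b => (T.E e a x.1.1 b - T.E e a x.1.2 b) / ((x.1.2 : ℚ) - x.1.1)

theorem sr_sv (e : T.Ix → β →₀ ℕ) (a : Fin s) (x : T.Sl a) (R : ℝ) (v : Fin s → ℂ) :
    R * sr T.ℓ (T.sv e a x) v =
      (R * sr T.ℓ (T.E e a x.1.1) v - R * sr T.ℓ (T.E e a x.1.2) v) /
        ((x.1.2 : ℝ) - x.1.1) := by
  unfold sr sv
  rw [← mul_sub, ← Finset.sum_sub_distrib, mul_div_assoc, Finset.sum_div]
  congr 1
  refine Finset.sum_congr rfl fun b _ => ?_
  push_cast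
  ring

/-- the estimates at the point `v` -/
def Est (e : T.Ix → β →₀ ℕ) (ω : β → ℝ) (η C : ℝ) (R : ℝ) (v : Fin s → ℂ) : Prop :=
  v ∈ Om T.ℓ ω η ∧ (∀ j, T.χ R v (T.G j) ≠ 0) ∧
    ∀ j, |Real.log ‖T.χ R v (T.G j)‖ - R * sr T.ℓ (fun b => (e j b : ℚ)) v| ≤ C * Real.log R

theorem exists_local (hDOM : S_DOM2) (ω : β → ℝ)
    (hω : ∀ m : β → ℤ, m ≠ 0 → ∑ b, (m b : ℝ) * ω b ≠ 0) :
    ∃ (e : T.Ix → β →₀ ℕ) (η₀ : ℝ), 0 < η₀ ∧ ∃ q : MvPolynomial (Fin s) ℂ, q ≠ 0 ∧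
      ∀ η, η ≤ η₀ → ∀ ξ ∈ Om T.ℓ ω η, eval ξ q ≠ 0 → ∃ ε : ℝ, 0 < ε ∧ ∃ R₀ C : ℝ,
        ∀ R : ℝ, R₀ ≤ R → ∀ v ∈ ball ξ ε, (v ∈ Om T.ℓ ω η ∧ ∀ j, T.χ R v (T.G j) ≠ 0) ∧
          ∑ j, |Real.log ‖T.χ R v (T.G j)‖ - R * sr T.ℓ (fun b => (e j b : ℚ)) v| ≤
            C * Real.log R := by
  classical
  choose e he η hη h using fun j => hDOM s β T.ℓ T.μ T.c ω hω (T.G j) (T.G_ne j)
  obtain ⟨η₀, hη₀, hη₀'⟩ := exists_lower η hη
  refine ⟨e, η₀, hη₀, ∏ j, top (coeff (e j) (T.G j)), ?_, ?_⟩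
  · refine Finset.prod_ne_zero_iff.2 fun j _ => ?_
    intro h0
    have h1 : coeff (e j) (T.G j) ≠ 0 := mem_support_iff.1 (he j)
    exact Pool.Agent.K3h91.EX.top_ne_zero h1 h0
  · intro η' hη' ξ hξ hq
    rw [map_prod] at hq
    have hq' : ∀ j, eval ξ (top (coeff (e j) (T.G j))) ≠ 0 := fun j =>
      (Finset.prod_ne_zero_iff.1 hq) j (Finset.mem_univ j)
    have h1 : ∀ j, ∀ b, |(dot (T.ℓ b) ξ).re - ω b| ≤ η j := fun j b =>
      (hξ b).le.trans (hη'.trans (hη₀' j))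
    choose ε hε R₀ hR₀ C hC h2 using fun j => h j ξ (h1 j) (hq' j)
    obtain ⟨ε₁, hε₁, hball⟩ := Metric.isOpen_iff.1 (isOpen_Om T.ℓ ω η') ξ hξ
    obtain ⟨ε₂, hε₂, hε₂'⟩ := exists_lower ε hε
    obtain ⟨R₁, hR₁, hR₁'⟩ := exists_upper R₀ 1
    refine ⟨min ε₁ ε₂, lt_min hε₁ hε₂, R₁, ∑ j, C j, fun R hR v hv => ⟨⟨?_, fun j => ?_⟩, ?_⟩⟩
    · exact hball (ball_subset_ball (min_le_left _ _) hv)
    · exact (h2 j R ((hR₁' j).trans hR) v
        (ball_subset_ball ((min_le_right _ _).trans (hε₂' j)) hv)).1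
    · rw [Finset.sum_mul]
      refine Finset.sum_le_sum fun j _ => ?_
      have h3 := (h2 j R ((hR₁' j).trans hR) v
        (ball_subset_ball ((min_le_right _ _).trans (hε₂' j)) hv)).2
      simpa [sr, χ] using h3

theorem exists_tube (hDOM : S_DOM2) (hTUBE : S_TUBE) (ω : β → ℝ)
    (hω : ∀ m : β → ℤ, m ≠ 0 → ∑ b, (m b : ℝ) * ω b ≠ 0) :
    ∃ (e : T.Ix → β →₀ ℕ) (η₀ : ℝ), 0 < η₀ ∧ ∃ q : MvPolynomial (Fin s) ℂ, q ≠ 0 ∧
      ∀ η, η ≤ η₀ → ∀ K : Set (Fin s → ℂ), IsCompact K → K ⊆ Om T.ℓ ω η →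
        (∀ ξ ∈ K, eval ξ q ≠ 0) → ∃ ε : ℝ, 0 < ε ∧ ∃ R₀ : ℝ, 1 ≤ R₀ ∧ ∃ C : ℝ, 0 ≤ C ∧
          ∀ R : ℝ, R₀ ≤ R → ∀ v ∈ thickening ε K, T.Est e ω η C R v := by
  obtain ⟨e, η₀, hη₀, q, hq, h⟩ := T.exists_local hDOM ω hω
  refine ⟨e, η₀, hη₀, q, hq, fun η hη K hK hKΩ hKq => ?_⟩
  obtain ⟨ε, hε, R₀, hR₀, C, hC, h1⟩ := hTUBE s K _ _ hK fun ξ hξ =>
    h η hη ξ (hKΩ hξ) (hKq ξ hξ)
  refine ⟨ε, hε, R₀, hR₀, C, hC, fun R hR v hv => ?_⟩
  obtain ⟨⟨h2, h3⟩, h4⟩ := h1 R hR v hv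
  refine ⟨h2, h3, fun j => le_trans ?_ h4⟩
  exact Finset.single_le_sum (f := fun j => |Real.log ‖T.χ R v (T.G j)‖ -
    R * sr T.ℓ (fun b => (e j b : ℚ)) v|) (fun _ _ => abs_nonneg _) (Finset.mem_univ j)

/-- the slopes at a point -/
theorem slope_at (hSLOPE : S_SLOPE) (e : T.Ix → β →₀ ℕ) (ω : β → ℝ) (η C R : ℝ) (hC : 0 ≤ C)
    (hR : 1 ≤ R) (v : Fin s → ℂ) (hE : T.Est e ω η C R v) (t : ℂ)
    (ht : (T.f.map (T.χ R v)).eval t = 0) (a : Fin s)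
    (hdeg : Real.log ((T.g a).natDegree + 1) ≤ Real.log R) :
    T.Y R v t a ≠ 0 ∧ ∃ x : T.Sl a,
      |Real.log ‖T.Y R v t a‖ - R * sr T.ℓ (T.sv e a x) v| ≤ (2 * C + 1) * Real.log R := by
  obtain ⟨-, h1, h2⟩ := hE
  have hlog : 0 ≤ Real.log R := Real.log_nonneg hR
  have hne : ∀ k ∈ (T.g a).support, T.χ R v ((T.g a).coeff k) ≠ 0 := fun k hk =>
    h1 (Sum.inr ⟨a, ⟨k, hk⟩⟩)
  have hroot : ((T.g a).map (T.χ R v)).eval (T.Y R v t a) = 0 :=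
    T.row (sc R v) t (h1 (Sum.inl 0)) ht a
  have h3 := hSLOPE ((T.g a).map (T.χ R v)) (fun k => R * sr T.ℓ (T.E e a k) v) (C * Real.log R)
    (T.Y R v t a) (by positivity) (by
      intro k hk
      have hk' : k ∈ (T.g a).support := Polynomial.support_map_subset _ _ hk
      rw [Polynomial.coeff_map]
      have h4 := h2 (Sum.inr ⟨a, ⟨k, hk'⟩⟩)
      have h5 : T.E e a k = fun b => (e (Sum.inr ⟨a, ⟨k, hk'⟩⟩) b : ℚ) := by
        unfold E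
        rw [dif_pos hk']
      rw [h5]
      exact h4) (by
      rw [Polynomial.coeff_map]
      exact hne 0 (Polynomial.mem_support_iff.2 (T.hgc a))) hroot
  obtain ⟨h4, j, hj, k, hk, hjk, h5⟩ := h3
  refine ⟨h4, ⟨(j, k), ?_⟩, ?_⟩
  · rw [Finset.mem_filter, Finset.mem_product]
    exact ⟨⟨Polynomial.support_map_subset _ _ hj, Polynomial.support_map_subset _ _ hk⟩, hjk⟩
  · rw [sr_sv]
    refine h5.trans ?_
    have h6 : Real.log ((((T.g a).map (T.χ R v)).natDegree : ℝ) + 1) ≤ Real.log R := by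
      refine le_trans (Real.log_le_log (by positivity) ?_) hdeg
      have : (((T.g a).map (T.χ R v)).natDegree : ℝ) ≤ (T.g a).natDegree := by
        exact_mod_cast Polynomial.natDegree_map_le
      linarith
    linarith

end TData

end Pool.Agent.K3h22.EX
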