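import Pool.Agent.K3h22.EX.TB

/-! EX project, linear spaces in general position: continuation of the roots and solution. -/

set_option autoImplicit false

namespace Pool.Agent.K3h22.EX

open MvPolynomial Filter Topology Metric Set

variable {s : ℕ} {β : Type} [Fintype β]

theorem sr_sub (ℓ : β → Fin s → ℂ) (ρ ρ' : β → ℚ) (v : Fin s → ℂ) :
    sr ℓ (ρ - ρ') v = sr ℓ ρ v - sr ℓ ρ' v := by
  unfold sr
  rw [← Finset.sum_sub_distrib]
  refine Finset.sum_congr rfl fun b _ => ?_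
  rw [Pi.sub_apply, Rat.cast_sub, sub_mul]

/-- nonvanishing near a point -/
theorem exists_ne_near (hAVOID : S_AVOID) (q : MvPolynomial (Fin s) ℂ) (hq : q ≠ 0)
    (U : Set (Fin s → ℂ)) (hU : IsOpen U) (ζ : Fin s → ℂ) (hζ : ζ ∈ U) :
    ∃ ζ' ∈ U, eval ζ' q ≠ 0 := by
  classical
  obtain ⟨ε, hε, hball⟩ := Metric.isOpen_iff.1 hU ζ hζ
  obtain ⟨ζ', h1, -, h2⟩ := hAVOID s (fun a => X a - C (ζ a)) ζ (fun a => by simp) (by
    have : jac (fun a => X a - C (ζ a)) ζ = 1 := by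
      ext a b
      simp [jac, pderiv_X, Matrix.one_apply, Pi.single_apply, eq_comm]
    rw [this, Matrix.det_one]
    exact one_ne_zero) q hq ε hε
  exact ⟨ζ', hball h1, h2⟩

namespace TData

variable (T : TData s β)

theorem tube_step (hHROOT2 : S_HROOT2) (hCONST : S_CONST) (hSLOPE : S_SLOPE) (hVAL : S_VALHOL)
    (e : T.Ix → β →₀ ℕ) (ω : β → ℝ) (η γ : ℝ) (hγ : 0 < γ)
    (hgap : ∀ a (x y : T.Sl a), T.sv e a x - T.sv e a y ≠ 0 → ∀ v ∈ Om T.ℓ ω η,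
      γ ≤ |sr T.ℓ (T.sv e a x - T.sv e a y) v|)
    (K : Set (Fin s → ℂ)) (hKc : Convex ℝ K) (ε R₀ C : ℝ) (hR₀ : 1 ≤ R₀) (hC : 0 ≤ C)
    (hEst : ∀ R : ℝ, R₀ ≤ R → ∀ v ∈ thickening ε K, T.Est e ω η C R v) (C' : ℝ) :
    ∃ R₁ C₁ : ℝ, R₀ ≤ R₁ ∧ 0 ≤ C₁ ∧ C' ≤ C₁ ∧ ∀ R : ℝ, R₁ ≤ R → ∀ v₀ ∈ thickening ε K, ∀ u₀ : ℂ,
      (T.f.map (T.χ R v₀)).eval u₀ = 0 → ∀ σ : (∀ a, T.Sl a),
      (∀ a, |Real.log ‖T.Y R v₀ u₀ a‖ - R * sr T.ℓ (T.sv e a (σ a)) v₀| ≤ C' * Real.log R) →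
      ∃ Z : (Fin s → ℂ) → ℂ, DifferentiableOn ℂ Z (thickening ε K) ∧ Z v₀ = u₀ ∧
        (∀ v ∈ thickening ε K, (T.f.map (T.χ R v)).eval (Z v) = 0) ∧
        (∀ a, DifferentiableOn ℂ (fun v => T.Y R v (Z v) a) (thickening ε K)) ∧
        ∀ v ∈ thickening ε K, ∀ a, T.Y R v (Z v) a ≠ 0 ∧
          |Real.log ‖T.Y R v (Z v) a‖ - R * sr T.ℓ (T.sv e a (σ a)) v| ≤ C₁ * Real.log R := by
  classical
  set C₁ := max C' (2 * C + 1) with hC₁
  have hC₁0 : 0 ≤ C₁ := le_trans (by positivity) (le_max_right _ _)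
  obtain ⟨Rg, hRg1, hRg⟩ := grow 0 1 one_pos (2 * C₁) 0 (γ / 2) (by positivity)
  obtain ⟨Rd, hRd1, hRd⟩ := exists_upper (fun a : Fin s => ((T.g a).natDegree : ℝ) + 1)
    (max R₀ Rg)
  refine ⟨Rd, C₁, (le_max_left _ _).trans hRd1, hC₁0, le_max_left _ _, ?_⟩
  intro R hR v₀ hv₀ u₀ hu₀ σ hσ
  have hRR₀ : R₀ ≤ R := ((le_max_left _ _).trans hRd1).trans hR
  have hR1 : 1 ≤ R := hR₀.trans hRR₀
  have hlog : 0 ≤ Real.log R := Real.log_nonneg hR1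
  have hE := hEst R hRR₀
  have hopen : IsOpen (thickening ε K) := isOpen_thickening
  have hconv : Convex ℝ (thickening ε K) := hKc.thickening ε
  obtain ⟨Z, hZd, hZ0, hZ⟩ := hHROOT2 s β (fun b => lin (T.ℓ b) (T.μ b)) T.c T.f T.U T.W T.Δ T.monic
    T.hUW R (thickening ε K) hopen hconv (fun v hv => (hE v hv).2.1 (Sum.inl 1)) v₀ hv₀ u₀ hu₀
  have hslope : ∀ v ∈ thickening ε K, ∀ a, T.Y R v (Z v) a ≠ 0 ∧ ∃ x : T.Sl a,
      |Real.log ‖T.Y R v (Z v) a‖ - R * sr T.ℓ (T.sv e a x) v| ≤ (2 * C + 1) * Real.log R := by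
    intro v hv a
    refine T.slope_at hSLOPE e ω η C R hC hR1 v (hE v hv) (Z v) (hZ v hv) a ?_
    exact Real.log_le_log (by positivity) ((hRd a).trans hR)
  have hYd : ∀ a, DifferentiableOn ℂ (fun v => T.Y R v (Z v) a) (thickening ε K) := by
    intro a
    have h6 : DifferentiableOn ℂ (fun v => ((T.N a).map (T.χ R v)).eval (Z v)) (thickening ε K) :=
      differentiableOn_eval_map hVAL _ _ (T.N a) R Z _ hZd
    have h7 : DifferentiableOn ℂ (fun v => T.χ R v T.D) (thickening ε K) :=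
      ((hVAL s _ _ _ T.D R).differentiable one_ne_zero).differentiableOn
    simp only [Y, div_eq_mul_inv]
    exact h6.mul (h7.inv fun v hv => (hE v hv).2.1 (Sum.inl 0))
  refine ⟨Z, hZd, hZ0, hZ, hYd, fun v hv a => ⟨(hslope v hv a).1, ?_⟩⟩
  refine hCONST s (thickening ε K) (fun v => T.Y R v (Z v) a) (T.Sl a)
    (fun x v => R * sr T.ℓ (T.sv e a x) v) (C₁ * Real.log R) hconv.isPreconnected
    (hYd a).continuousOn (fun v hv => (hslope v hv a).1)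
    (fun x => (continuous_const.mul (continuous_sr _ _)).continuousOn) (fun v hv => ?_)
    (fun x y => ?_) v₀ hv₀ (σ a) ?_ v hv
  · obtain ⟨x, hx⟩ := (hslope v hv a).2
    exact ⟨x, hx.trans (mul_le_mul_of_nonneg_right (le_max_right _ _) hlog)⟩
  · by_cases hxy : T.sv e a x - T.sv e a y = 0
    · left
      intro v _
      rw [sub_eq_zero.1 hxy]
    · right
      intro v hv
      have h1 := hgap a x y hxy v (hE v hv).1
      rw [sr_sub] at h1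
      have h2 : |R * sr T.ℓ (T.sv e a x) v - R * sr T.ℓ (T.sv e a y) v| =
          R * |sr T.ℓ (T.sv e a x) v - sr T.ℓ (T.sv e a y) v| := by
        rw [← mul_sub, abs_mul, abs_of_nonneg (by linarith)]
      have h3 := hRg R (((le_max_right _ _).trans hRd1).trans hR)
      rw [pow_zero, pow_one, add_zero] at h3
      rw [h2]
      nlinarith
  · rw [hZ0]
    exact (hσ a).trans (mul_le_mul_of_nonneg_right (le_max_left _ _) hlog)

theorem solve (hDOM : S_DOM2) (hTUBE : S_TUBE) (hHROOT2 : S_HROOT2) (hCONST : S_CONST)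
    (hSLOPE : S_SLOPE) (hVAL : S_VALHOL) (hPATH : S_PATH) (hAVOID : S_AVOID) (hLOG : S_LOG)
    (hSOLVE : S_SOLVE) (hGEN : ∃ ω : β → ℝ, ∀ m : β → ℤ, m ≠ 0 → ∑ b, (m b : ℝ) * ω b ≠ 0)
    (ℓ' : Fin s → Fin s → ℂ) (μ' c' : Fin s → ℂ)
    (hC1 : ∀ (ω : β → ℝ) (ω' : Fin s → ℝ), ∃ ζ : Fin s → ℂ,
      (∀ b, (dot (T.ℓ b) ζ).re = ω b) ∧ ∀ a, (dot (ℓ' a) ζ).re = ω' a)
    (hC2 : ∀ r : Fin s → β → ℚ,
      (Matrix.of fun a j => ℓ' a j - ∑ b, (r a b : ℂ) * T.ℓ b j).det ≠ 0) :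
    ∃ (z : Fin s → ℂ) (t : ℂ), val (fun b => lin (T.ℓ b) (T.μ b)) T.c z T.D ≠ 0 ∧
      val (fun b => lin (T.ℓ b) (T.μ b)) T.c z T.g0 ≠ 0 ∧
      (T.f.map (val (fun b => lin (T.ℓ b) (T.μ b)) T.c z)).eval t = 0 ∧
      ∀ a, ((T.N a).map (val (fun b => lin (T.ℓ b) (T.μ b)) T.c z)).eval t /
        val (fun b => lin (T.ℓ b) (T.μ b)) T.c z T.D =
        Complex.exp (eval z (lin (ℓ' a) (μ' a)) + c' a) := by
  classical
  obtain ⟨ω, hω⟩ := hGEN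
  obtain ⟨e, η₀, hη₀, q, hq, htube⟩ := T.exists_tube hDOM hTUBE ω hω
  obtain ⟨η₁, hη₁, γ, hγ, hgap⟩ := exists_gap T.ℓ ω hω
    (fun x : Σ a : Fin s, T.Sl a × T.Sl a => T.sv e x.1 x.2.1 - T.sv e x.1 x.2.2)
  set η := min η₀ η₁ with hη
  have hη0 : 0 < η := lt_min hη₀ hη₁
  have hgap' : ∀ a (x y : T.Sl a), T.sv e a x - T.sv e a y ≠ 0 → ∀ v ∈ Om T.ℓ ω η,
      γ ≤ |sr T.ℓ (T.sv e a x - T.sv e a y) v| := fun a x y hxy v hv =>
    hgap ⟨a, x, y⟩ hxy v (Om_mono T.ℓ ω (min_le_right _ _) hv)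
  -- the first point
  obtain ⟨ζ₀, hζ₀, -⟩ := hC1 ω 0
  obtain ⟨ζ₁, hζ₁, hqζ₁⟩ := exists_ne_near hAVOID q hq (Om T.ℓ ω η) (isOpen_Om _ _ _) ζ₀ (by
    intro b
    rw [hζ₀ b, sub_self, abs_zero]
    exact hη0)
  obtain ⟨ε₀, hε₀, R₀, hR₀, C₀, hC₀, hest₀⟩ := htube η (min_le_left _ _) {ζ₁} isCompact_singleton
    (by simpa using hζ₁) (by simpa using hqζ₁)
  -- the solution for given slopes
  have hfin : ∀ σ : (∀ a, T.Sl a), ∃ R₂ : ℝ, ∀ R : ℝ, R₂ ≤ R → ∀ u₀ : ℂ,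
      (T.f.map (T.χ R ζ₁)).eval u₀ = 0 →
      (∀ a, |Real.log ‖T.Y R ζ₁ u₀ a‖ - R * sr T.ℓ (T.sv e a (σ a)) ζ₁| ≤
        (2 * C₀ + 1) * Real.log R) →
      ∃ (v : Fin s → ℂ) (t : ℂ), T.χ R v T.D ≠ 0 ∧ T.χ R v T.g0 ≠ 0 ∧
        (T.f.map (T.χ R v)).eval t = 0 ∧
        ∀ a, T.Y R v t a = Complex.exp (eval (sc R v) (lin (ℓ' a) (μ' a)) + c' a) := by
    intro σ
    set r : Fin s → β → ℚ := fun a => T.sv e a (σ a) with hr
    set lam : Fin s → Fin s → ℂ := fun a j => ℓ' a j - ∑ b, (r a b : ℂ) * T.ℓ b j with hlam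
    set nu : Fin s → ℂ := fun a => μ' a - ∑ b, (r a b : ℂ) * T.μ b with hnu
    have hdet : (Matrix.of lam).det ≠ 0 := hC2 r
    have hlam0 : ∀ a, lam a ≠ 0 := by
      intro a h0
      apply hdet
      apply Matrix.det_eq_zero_of_row_eq_zero a
      intro j
      exact congrFun h0 j
    have hdotlam : ∀ a v, dot (lam a) v = dot (ℓ' a) v - ∑ b, (r a b : ℂ) * dot (T.ℓ b) v := by
      intro a v
      simp only [dot, hlam, sub_mul, Finset.sum_sub_distrib, Finset.mul_sum, Finset.sum_mul]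
      congr 1
      rw [Finset.sum_comm]
      exact Finset.sum_congr rfl fun b _ => Finset.sum_congr rfl fun j _ => by ring
    have hre : ∀ a v, (dot (lam a) v).re = (dot (ℓ' a) v).re - sr T.ℓ (r a) v := by
      intro a v
      rw [hdotlam, Complex.sub_re, Complex.re_sum]
      congr 1
      unfold sr
      refine Finset.sum_congr rfl fun b _ => ?_
      have : ((r a b : ℚ) : ℂ) = (((r a b : ℚ) : ℝ) : ℂ) := by norm_cast
      rw [this, Complex.re_ofReal_mul]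
    have htop : ∀ a, top (lin (lam a) (nu a)) = lin (lam a) 0 := fun a => top_lin (hlam0 a) _
    have hjac : ∀ v, jac (fun a => lin (lam a) 0) v = Matrix.of lam := by
      intro v
      ext a j
      simp [jac, pderiv_lin]
    -- the second point
    obtain ⟨ζ', hζ'1, hζ'2⟩ := hC1 ω fun a => ∑ b, (r a b : ℝ) * ω b
    have hζ'Ω : ζ' ∈ Om T.ℓ ω η := by
      intro b
      rw [hζ'1 b, sub_self, abs_zero]
      exact hη0
    have hζ're : ∀ a, (eval ζ' (lin (lam a) 0)).re = 0 := by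
      intro a
      rw [eval_lin, add_zero, hre, hζ'2]
      unfold sr
      simp only [hζ'1]
      ring
    obtain ⟨ε', hε', hball'⟩ := Metric.isOpen_iff.1 (isOpen_Om T.ℓ ω η) ζ' hζ'Ω
    obtain ⟨ζ₂, hζ₂b, hζ₂re, hqζ₂⟩ := hAVOID s (fun a => lin (lam a) 0) ζ' hζ're
      (by rw [hjac]; exact hdet) q hq ε' hε'
    have hζ₂ : ζ₂ ∈ Om T.ℓ ω η := hball' hζ₂b
    obtain ⟨ζ, hζ, hs1, hs2⟩ := hPATH s q (Om T.ℓ ω η) (isOpen_Om _ _ _) (convex_Om _ _ _) ζ₁ hζ₁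
      ζ₂ hζ₂ hqζ₁ hqζ₂
    have hcompact : ∀ x y : Fin s → ℂ, IsCompact (segment ℝ x y) := fun x y => by
      rw [segment_eq_image_lineMap]
      exact isCompact_Icc.image AffineMap.lineMap_continuous
    obtain ⟨ε₁, hε₁, R₁, hR₁, C₁, hC₁, hest₁⟩ := htube η (min_le_left _ _) (segment ℝ ζ₁ ζ)
      (hcompact _ _) ((convex_Om T.ℓ ω η).segment_subset hζ₁ hζ) hs1
    obtain ⟨ε₂, hε₂, R₂, hR₂, C₂, hC₂, hest₂⟩ := htube η (min_le_left _ _) (segment ℝ ζ ζ₂)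
      (hcompact _ _) ((convex_Om T.ℓ ω η).segment_subset hζ hζ₂) hs2
    obtain ⟨R₃, C₃, hR₃, hC₃, hCC₃, hstep₁⟩ := T.tube_step hHROOT2 hCONST hSLOPE hVAL e ω η γ hγ
      hgap' _ (convex_segment ζ₁ ζ) ε₁ R₁ C₁ hR₁ hC₁ hest₁ (2 * C₀ + 1)
    obtain ⟨R₄, C₄, hR₄, hC₄, hCC₄, hstep₂⟩ := T.tube_step hHROOT2 hCONST hSLOPE hVAL e ω η γ hγ
      hgap' _ (convex_segment ζ ζ₂) ε₂ R₂ C₂ hR₂ hC₂ hest₂ C₃
    obtain ⟨κ, hκ, R₅, hR₅, hsol⟩ := hSOLVE s (fun a => lin (lam a) (nu a)) ζ₂ ε₂ hε₂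
      (fun a => by rw [htop]; exact hζ₂re a) (by
        simp only [htop]
        rw [hjac]
        exact hdet)
    set M : Fin s → ℝ := fun a => |∑ b, (r a b : ℝ) * (T.μ b).re| + |(c' a).re| with hM
    choose R₆ hR₆1 hR₆ using fun a => grow 0 1 one_pos C₄ (M a) κ hκ
    obtain ⟨R₇, hR₇, hR₇'⟩ := exists_upper R₆ (max R₃ (max R₄ R₅))
    refine ⟨R₇, fun R hR u₀ hu₀ hslope₀ => ?_⟩
    have hRR₃ : R₃ ≤ R := ((le_max_left _ _).trans hR₇).trans hR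
    have hRR₄ : R₄ ≤ R := (((le_max_left _ _).trans (le_max_right _ _)).trans hR₇).trans hR
    have hRR₅ : R₅ ≤ R := (((le_max_right _ _).trans (le_max_right _ _)).trans hR₇).trans hR
    have hR1 : 1 ≤ R := hR₅.trans hRR₅
    have hlog : 0 ≤ Real.log R := Real.log_nonneg hR1
    have hmem : ∀ (x y v : Fin s → ℂ) (ε : ℝ), 0 < ε → v ∈ segment ℝ x y →
        v ∈ thickening ε (segment ℝ x y) := fun x y v ε hε hv =>
      self_subset_thickening hε _ hv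
    obtain ⟨Z₁, -, hZ₁0, hZ₁r, -, hZ₁⟩ := hstep₁ R hRR₃ ζ₁
      (hmem _ _ _ _ hε₁ (left_mem_segment ℝ ζ₁ ζ)) u₀ hu₀ σ hslope₀
    have hζT₁ := hmem ζ₁ ζ ζ ε₁ hε₁ (right_mem_segment ℝ ζ₁ ζ)
    obtain ⟨Z₂, -, hZ₂0, hZ₂r, hY₂d, hZ₂⟩ := hstep₂ R hRR₄ ζ
      (hmem _ _ _ _ hε₂ (left_mem_segment ℝ ζ ζ₂)) (Z₁ ζ) (hZ₁r ζ hζT₁) σ
      (fun a => (hZ₁ ζ hζT₁ a).2)
    have hbT : ball ζ₂ ε₂ ⊆ thickening ε₂ (segment ℝ ζ ζ₂) := fun v hv =>
      mem_thickening_iff.2 ⟨ζ₂, right_mem_segment ℝ ζ ζ₂, hv⟩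
    choose L hLd hLe using fun a => hLOG s (ball ζ₂ ε₂) (fun v => T.Y R v (Z₂ v) a) isOpen_ball
      (convex_ball ζ₂ ε₂) ((hY₂d a).mono hbT) fun v hv => (hZ₂ v (hbT hv) a).1
    have hLre : ∀ a, ∀ v ∈ ball ζ₂ ε₂, (L a v).re = Real.log ‖T.Y R v (Z₂ v) a‖ := by
      intro a v hv
      rw [← hLe a v hv, Complex.norm_exp, Real.log_exp]
    set L' : Fin s → (Fin s → ℂ) → ℂ := fun a v =>
      L a v - ∑ b, (r a b : ℂ) * (R * dot (T.ℓ b) v + T.μ b) - c' a with hL'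
    have hdotd : ∀ l : Fin s → ℂ, Differentiable ℂ (dot l) := by
      intro l
      unfold dot
      fun_prop
    obtain ⟨v, hv, hv'⟩ := hsol R hRR₅ L' (fun a => by
        simp only [hL']
        refine ((hLd a).sub ?_).sub_const _
        refine (Differentiable.fun_sum fun b _ => ?_).differentiableOn
        exact (((hdotd (T.ℓ b)).const_mul _).add_const _).const_mul _) (by
      intro a v hv
      have h1 := (hZ₂ v (hbT hv) a).2
      have h2 : (L' a v).re = (Real.log ‖T.Y R v (Z₂ v) a‖ - R * sr T.ℓ (r a) v) -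
          ∑ b, (r a b : ℝ) * (T.μ b).re - (c' a).re := by
        simp only [hL', Complex.sub_re, Complex.re_sum, hLre a v hv]
        have h3 : ∑ b, ((r a b : ℂ) * (R * dot (T.ℓ b) v + T.μ b)).re =
            R * sr T.ℓ (r a) v + ∑ b, (r a b : ℝ) * (T.μ b).re := by
          unfold sr
          rw [Finset.mul_sum, ← Finset.sum_add_distrib]
          refine Finset.sum_congr rfl fun b _ => ?_
          have h4 : ((r a b : ℚ) : ℂ) = (((r a b : ℚ) : ℝ) : ℂ) := by norm_cast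
          rw [h4, Complex.re_ofReal_mul, Complex.add_re, Complex.re_ofReal_mul]
          ring
        rw [h3]
        ring
      rw [totalDegree_lin (hlam0 a), pow_one, h2]
      have h5 := hR₆ a R ((hR₇' a).trans hR)
      rw [pow_zero, pow_one] at h5
      have h6 : |Real.log ‖T.Y R v (Z₂ v) a‖ - R * sr T.ℓ (r a) v -
          ∑ b, (r a b : ℝ) * (T.μ b).re - (c' a).re| ≤ C₄ * Real.log R + M a := by
        refine (abs_sub _ _).trans ?_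
        have h7 := abs_sub (Real.log ‖T.Y R v (Z₂ v) a‖ - R * sr T.ℓ (r a) v)
          (∑ b, (r a b : ℝ) * (T.μ b).re)
        simp only [hM]
        linarith
      nlinarith)
    have hEv := hest₂ R (hR₄.trans hRR₄) v (hbT hv)
    refine ⟨v, Z₂ v, hEv.2.1 (Sum.inl 0), hEv.2.1 (Sum.inl 2), hZ₂r v (hbT hv), fun a => ?_⟩
    obtain ⟨k, hk⟩ := hv' a
    rw [← hLe a v hv]
    have h1 : eval (sc R v) (lin (ℓ' a) (μ' a)) + c' a =
        L a v + k * (2 * Real.pi * Complex.I) := by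
      rw [eval_sc_lin, hdotlam] at hk
      rw [eval_sc_lin]
      simp only [hL', hnu, mul_add, Finset.sum_add_distrib] at hk
      have h2 : ∑ b, (r a b : ℂ) * ((R : ℂ) * dot (T.ℓ b) v) =
          R * ∑ b, (r a b : ℂ) * dot (T.ℓ b) v := by
        rw [Finset.mul_sum]
        exact Finset.sum_congr rfl fun b _ => by ring
      rw [h2] at hk
      linear_combination hk
    rw [h1, Complex.exp_add, Complex.exp_int_mul_two_pi_mul_I, mul_one]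
  -- the choice of `R` and of the branch
  choose R₂ hR₂ using hfin
  obtain ⟨R₃, hR₃, hR₃'⟩ := exists_upper R₂ R₀
  obtain ⟨R, hR, hR'⟩ := exists_upper (fun a : Fin s => ((T.g a).natDegree : ℝ) + 1) R₃
  have hζT : ζ₁ ∈ thickening ε₀ {ζ₁} := self_subset_thickening hε₀ _ (mem_singleton _)
  have hE := hest₀ R (hR₃.trans hR) ζ₁ hζT
  obtain ⟨u₀, hu₀⟩ : ∃ u₀ : ℂ, (T.f.map (T.χ R ζ₁)).eval u₀ = 0 := by
    refine IsAlgClosed.exists_root _ ?_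
    rw [T.monic.degree_map, Polynomial.degree_eq_natDegree T.monic.ne_zero]
    exact_mod_cast T.deg.ne'
  have hR1 : 1 ≤ R := hR₀.trans (hR₃.trans hR)
  choose hne σ hσ using fun a => T.slope_at hSLOPE e ω η C₀ R hC₀ hR1 ζ₁ hE u₀ hu₀ a
    (Real.log_le_log (by positivity) (hR' a))
  obtain ⟨v, t, h1, h2, h3, h4⟩ := hR₂ σ R ((hR₃' σ).trans hR) u₀ hu₀ hσ
  exact ⟨sc R v, t, h1, h2, h3, h4⟩

end TData

end Pool.Agent.K3h22.EX
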