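import Pool.Agent.K3h22.EX.TC
import Pool.Agent.K3h22.EX.Fin1
import Pool.Agent.K3h40.EX.Dom2
import Pool.Agent.K3h55.EX.Slope
import Pool.Agent.K3h73.EX.Hroot2
import Pool.Agent.K3h85.EX.Path
import Pool.Agent.K3h85.EX.Surj
import Pool.Agent.K3h87.EX.Tbasis

/-! EX project, linear spaces in general position: the theorem in coordinates. -/

set_option autoImplicit false

namespace Pool.Agent.K3h22.EX

open MvPolynomial

variable {s n : ℕ}

theorem exists_omega (β : Type) [Fintype β] :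
    ∃ ω : β → ℝ, ∀ m : β → ℤ, m ≠ 0 → ∑ b, (m b : ℝ) * ω b ≠ 0 := by
  classical
  obtain ⟨a, -, ha⟩ := Pool.Agent.K3h30.EX.t_GENREAL (Fintype.card β) 1 one_ne_zero
  let E := Fintype.equivFin β
  refine ⟨fun b => a (E b), fun m hm => ?_⟩
  have h1 : (fun i => m (E.symm i)) ≠ 0 := by
    intro h
    apply hm
    funext b
    have := congrFun h (E b)
    simpa using this
  have h2 := ha (fun i => m (E.symm i)) h1
  rw [← E.sum_comp] at h2
  simpa using h2

/-- the linear-space theorem, in coordinates, for the ideal -/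
theorem coreT (P : Ideal (MvPolynomial (Fin n ⊕ Fin n) ℂ)) (hP : P.IsPrime)
    (ι : Fin s → Fin n) (ℓ : Fin n → Fin s → ℂ) (μ : Fin n → ℂ)
    (hι : ∀ a, lin (ℓ (ι a)) (μ (ι a)) = X a)
    (J : Fin s → Fin n) (hJ : Function.Injective J) (B : Finset (Fin n)) (hJB : ∀ a, J a ∉ B)
    (hcov : ∀ i, i ∉ B → ∃ a, J a = i)
    (h2 : ∀ i, X (Sum.inl i) - rename (fun a => Sum.inl (ι a)) (lin (ℓ i) (μ i)) ∈ P)
    (h3 : ∀ a, X (Sum.inr (J a)) ∉ P)
    (h4 : ∀ g : MvPolynomial {i // i ∈ B} (MvPolynomial (Fin s) ℂ),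
      em ι Subtype.val g ∈ P → g = 0)
    (h5 : ∀ a, ∃ g : Polynomial (MvPolynomial {i // i ∈ B} (MvPolynomial (Fin s) ℂ)),
      g ≠ 0 ∧ g.eval₂ (em ι Subtype.val) (X (Sum.inr (J a))) ∈ P)
    (hC1 : ∀ c : Fin n → ℝ, (∀ a, ∑ i, (c i : ℂ) * ℓ i a = 0) → c = 0)
    (hC2 : ∀ M : Matrix (Fin s) (Fin n) ℚ, LinearIndependent ℚ (fun a => M a) →
      (Matrix.of fun a j => ∑ i, (M a i : ℂ) * ℓ i j).det ≠ 0) (c : Fin n → ℂ)
    (H : MvPolynomial (Fin n ⊕ Fin n) ℂ) (hH : H ∉ P) :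
    ∃ z : Fin s → ℂ,
      (∀ F ∈ P, eval (Sum.elim (fun i => eval z (lin (ℓ i) (μ i)))
        fun i => Complex.exp (eval z (lin (ℓ i) (μ i)) + c i)) F = 0) ∧
      eval (Sum.elim (fun i => eval z (lin (ℓ i) (μ i)))
        fun i => Complex.exp (eval z (lin (ℓ i) (μ i)) + c i)) H ≠ 0 := by
  classical
  obtain ⟨f, U, W, D, Δ, g0, N, hf, hfd, hD, hΔ, hg0, hUW, hM⟩ := algmodel
    Pool.Agent.K3h30.EX.t_MODEL P hP ι (fun i => lin (ℓ i) (μ i)) J B hcov
    h2 h4 (fun a => ⟨B, Finset.Subset.refl _, h5 a⟩) H hH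
  choose g hg hgc hgP using fun a => rowpoly P hP _ _ (h3 a) (h5 a)
  let T : TData s {i // i ∈ B} :=
    { ℓ := fun b => ℓ b
      μ := fun b => μ b
      c := fun b => c b
      f := f
      U := U
      W := W
      D := D
      Δ := Δ
      g0 := g0
      N := N
      g := g
      monic := hf
      deg := hfd
      hD := hD
      hΔ := hΔ
      hg0 := hg0
      hUW := hUW
      hg := hg
      hgc := hgc
      row := fun z t h6 h7 a => kill_row P ι (fun i => lin (ℓ i) (μ i)) hι J hJ B hJB hcov f D g0 N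
        H hM g hgP c z t h6 h7 a }
  obtain ⟨z, t, h6, h7, h8, h9⟩ := T.solve (Pool.Agent.K3h40.EX.t_DOM2 tTOP)
    Pool.Agent.K3h55.EX.t_TUBE Pool.Agent.K3h73.EX.t_HROOT2 Pool.Agent.K3h55.EX.t_CONST
    Pool.Agent.K3h55.EX.t_SLOPE Pool.Agent.K3h43.EX.t_VALHOL Pool.Agent.K3h85.EX.t_PATH
    Pool.Agent.K3h33.EX.t_AVOID Pool.Agent.K3h60.EX.t_LOG tSOLVE (exists_omega _)
    (fun a => ℓ (J a)) (fun a => μ (J a)) (fun a => c (J a)) (by
      intro ω ω'
      obtain ⟨ζ, hζ⟩ := Pool.Agent.K3h85.EX.t_SURJ s n ℓ hC1 fun i =>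
        if h : i ∈ B then ω ⟨i, h⟩ else ω' (Classical.choose (hcov i h))
      refine ⟨ζ, fun b => ?_, fun a => ?_⟩
      · have h := hζ b
        rw [dif_pos b.2] at h
        exact h
      · have h := hζ (J a)
        rw [dif_neg (hJB a), hJ (Classical.choose_spec (hcov (J a) (hJB a)))] at h
        exact h) (by
      intro r
      let M : Matrix (Fin s) (Fin n) ℚ := fun a i =>
        if h : i ∈ B then -r a ⟨i, h⟩ else if J a = i then 1 else 0
      have hMli : LinearIndependent ℚ (fun a => M a) := by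
        rw [Fintype.linearIndependent_iff]
        intro k hk a
        have h := congrFun hk (J a)
        rw [Finset.sum_apply, Finset.sum_eq_single a] at h
        · simpa [M, hJB a] using h
        · intro a' _ ha'
          have : J a' ≠ J a := fun h => ha' (hJ h)
          simp [M, hJB a, this]
        · intro h
          exact absurd (Finset.mem_univ a) h
      have h := hC2 M hMli
      have hsum : (Matrix.of fun a j => ∑ i, (M a i : ℂ) * ℓ i j) =
          Matrix.of fun a j => ℓ (J a) j - ∑ b : {i // i ∈ B}, (r a b : ℂ) * ℓ b j := by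
        ext a j
        simp only [Matrix.of_apply]
        have h1 : ∑ i, (M a i : ℂ) * ℓ i j =
            ∑ i ∈ B, (M a i : ℂ) * ℓ i j + ∑ i ∈ Bᶜ, (M a i : ℂ) * ℓ i j :=
          (Finset.sum_add_sum_compl B _).symm
        have h2 : ∑ i ∈ Bᶜ, (M a i : ℂ) * ℓ i j = ℓ (J a) j := by
          rw [Finset.sum_eq_single (J a)]
          · simp [M, hJB a]
          · intro i hi hne
            rw [Finset.mem_compl] at hi
            simp [M, hi, hne.symm]
          · intro h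
            exact absurd (Finset.mem_compl.2 (hJB a)) h
        have h3 : ∑ i ∈ B, (M a i : ℂ) * ℓ i j =
            -∑ b : {i // i ∈ B}, (r a b : ℂ) * ℓ b j := by
          rw [← Finset.sum_coe_sort B, ← Finset.sum_neg_distrib]
          refine Finset.sum_congr rfl fun b _ => ?_
          simp [M, b.2]
        rw [h1, h2, h3]
        ring
      rw [hsum] at h
      exact h)
  refine ⟨z, kill_point P (fun i => lin (ℓ i) (μ i)) J B hcov f D g0 N H hM c z t h6 h7 h8 h9⟩

/-- the linear-space theorem, in coordinates -/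
theorem mainT (P : Ideal (MvPolynomial (Fin n ⊕ Fin n) ℂ)) (V : Set (Fin n ⊕ Fin n → ℂ))
    (hP : P.IsPrime)
    (hV : V = {p | (∀ f ∈ P, eval p f = 0) ∧ ∀ j : Fin n, p (Sum.inr j) ≠ 0})
    (hne : V.Nonempty)
    (hd1 : ∃ J : Finset (Fin n ⊕ Fin n), J.card = n ∧ Indep V J)
    (hd2 : ∀ J : Finset (Fin n ⊕ Fin n), J.card = n + 1 → ¬ Indep V J)
    (ι : Fin s → Fin n) (hι : Function.Injective ι) (ℓ : Fin n → Fin s → ℂ) (μ : Fin n → ℂ)
    (hp : ∀ u ∈ V, ∀ i, u (Sum.inl i) = ∑ a, ℓ i a * u (Sum.inl (ι a)) + μ i)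
    (hind : Indep V (coords ι ∅))
    (hC1 : ∀ c : Fin n → ℝ, (∀ a, ∑ i, (c i : ℂ) * ℓ i a = 0) → c = 0)
    (hC2 : ∀ M : Matrix (Fin s) (Fin n) ℚ, LinearIndependent ℚ (fun a => M a) →
      (Matrix.of fun a j => ∑ i, (M a i : ℂ) * ℓ i j).det ≠ 0)
    (c : Fin n ⊕ Fin n → ℂ) (hc : ∀ i, c (Sum.inr i) ≠ 0)
    (H : MvPolynomial (Fin n ⊕ Fin n) ℂ)
    (hH : ∃ u ∈ V, eval (Sum.elim (fun i => u (Sum.inl i) + c (Sum.inl i))
      (fun i => c (Sum.inr i) * u (Sum.inr i))) H ≠ 0) :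
    ∃ z : Fin n → ℂ, (∃ u ∈ V, (Sum.elim z fun i => Complex.exp (z i) : Fin n ⊕ Fin n → ℂ) =
      Sum.elim (fun i => u (Sum.inl i) + c (Sum.inl i))
        (fun i => c (Sum.inr i) * u (Sum.inr i))) ∧
      eval (Sum.elim z fun i => Complex.exp (z i)) H ≠ 0 := by
  classical
  have hp' : ∀ u ∈ V, ∀ i, u (Sum.inl i) =
      eval (fun a => u (Sum.inl (ι a))) (lin (ℓ i) (μ i)) := by
    intro u hu i
    rw [eval_lin, hp u hu i]
    rfl
  obtain ⟨B, hB, hBind⟩ := Pool.Agent.K3h87.EX.t_TBASIS n s P V hP hV hne ι hι hind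
    (fun i => ⟨lin (ℓ i) (μ i), fun u hu => hp' u hu i⟩) hd1 hd2
  obtain ⟨-, e2, e3, e4, e5⟩ := Pool.Agent.K3h60.EX.t_DER n s P V hP hV hne ι hι
  have hBc : Bᶜ.card = s := by
    rw [Finset.card_compl, Fintype.card_fin]
    omega
  set J : Fin s → Fin n := fun a => Bᶜ.orderEmbOfFin hBc a with hJdef
  have hJ : Function.Injective J := (Bᶜ.orderEmbOfFin hBc).injective
  have hJB : ∀ a, J a ∉ B := fun a =>
    Finset.mem_compl.1 (Finset.orderEmbOfFin_mem _ hBc a)
  have hcov : ∀ i, i ∉ B → ∃ a, J a = i := by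
    intro i hi
    have h : i ∈ Set.range (Bᶜ.orderEmbOfFin hBc) := by
      rw [Finset.range_orderEmbOfFin]
      exact Finset.mem_coe.2 (Finset.mem_compl.2 hi)
    exact h
  have h2 : ∀ i, X (Sum.inl i) - rename (fun a => Sum.inl (ι a)) (lin (ℓ i) (μ i)) ∈ P := fun i =>
    e2 i _ fun u hu => hp' u hu i
  have h4 := e4 B hBind
  have hcard : (coords ι B).card = n := by
    unfold coords
    rw [Finset.card_union_of_disjoint, Finset.card_image_of_injective, Finset.card_image_of_injective,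
      Finset.card_univ, Fintype.card_fin]
    · omega
    · exact Sum.inr_injective
    · exact Sum.inl_injective.comp hι
    · rw [Finset.disjoint_left]
      intro x hx hx'
      rw [Finset.mem_image] at hx hx'
      obtain ⟨a, -, rfl⟩ := hx
      obtain ⟨b, -, hb⟩ := hx'
      cases hb
  have halg : ∀ a, ¬ Indep V (insert (Sum.inr (J a)) (coords ι B)) := by
    intro a
    refine hd2 _ ?_
    rw [Finset.card_insert_of_notMem, hcard]
    unfold coords
    rw [Finset.mem_union, Finset.mem_image, Finset.mem_image]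
    rintro (⟨b, -, hb⟩ | ⟨b, hb, hb'⟩)
    · cases hb
    · have hb2 : b = J a := Sum.inr_injective hb'
      rw [hb2] at hb
      exact hJB a hb
  refine transport P V hV (fun i => lin (ℓ i) (μ i)) (fun c H hH => ?_) c hc H hH
  exact coreT P hP ι ℓ μ (p_iota P ι (fun i => lin (ℓ i) (μ i)) B h2 h4) J hJ B hJB hcov h2
    (fun a => e3 (J a)) h4 (fun a => e5 B (J a) (halg a)) hC1 hC2 c H hH

end Pool.Agent.K3h22.EX
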