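import Pool.Agent.K3h22.EX.TC
import Pool.Agent.K3h22.EX.Dom3

/-! EX project, linear spaces in general position, all dimensions: the branch with given slopes. -/

set_option autoImplicit false

namespace Pool.Agent.K3h22.EX

open MvPolynomial Filter Topology Metric Set

variable {s : ℕ} {β : Type} [Fintype β]

theorem sr_close (ℓ : β → Fin s → ℂ) (ω : β → ℝ) (ρ : β → ℚ) {η : ℝ} {v : Fin s → ℂ}
    (hv : v ∈ Om ℓ ω η) :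
    |sr ℓ ρ v - ∑ b, (ρ b : ℝ) * ω b| ≤ (∑ b, |(ρ b : ℝ)|) * η := by
  unfold sr
  rw [← Finset.sum_sub_distrib, Finset.sum_mul]
  refine (Finset.abs_sum_le_sum_abs _ _).trans (Finset.sum_le_sum fun b _ => ?_)
  rw [← mul_sub, abs_mul]
  exact mul_le_mul_of_nonneg_left (hv b).le (abs_nonneg _)

/-- nonpositive combinations stay nonpositive near `ω` -/
theorem exists_nonpos (ℓ : β → Fin s → ℂ) (ω : β → ℝ)
    (hω : ∀ m : β → ℤ, m ≠ 0 → ∑ b, (m b : ℝ) * ω b ≠ 0) {κ : Type} [Finite κ] (ρ : κ → β → ℚ)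
    (h : ∀ j, ∑ b, (ρ j b : ℝ) * ω b ≤ 0) :
    ∃ η : ℝ, 0 < η ∧ ∀ j, ∀ v ∈ Om ℓ ω η, sr ℓ (ρ j) v ≤ 0 := by
  classical
  have h1 : ∀ j, ∃ δ : ℝ, 0 < δ ∧ ∀ v ∈ Om ℓ ω δ, sr ℓ (ρ j) v ≤ 0 := by
    intro j
    by_cases hj : ρ j = 0
    · refine ⟨1, one_pos, fun v _ => ?_⟩
      rw [hj]
      simp [sr]
    have h2 : ∑ b, (ρ j b : ℝ) * ω b < 0 := lt_of_le_of_ne (h j) (rat_indep hω (ρ j) hj)
    set d := -∑ b, (ρ j b : ℝ) * ω b with hd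
    have hd0 : 0 < d := by linarith
    set M := ∑ b, |(ρ j b : ℝ)| with hM
    have hM0 : 0 ≤ M := Finset.sum_nonneg fun b _ => abs_nonneg _
    refine ⟨d / (M + 1), by positivity, fun v hv => ?_⟩
    have h3 := (abs_le.1 (sr_close ℓ ω (ρ j) hv)).2
    rw [← hM] at h3
    have h4 : d = (M + 1) * (d / (M + 1)) := by field_simp
    have h5 : 0 < d / (M + 1) := by positivity
    nlinarith
  choose δ hδ h1 using h1
  obtain ⟨η, hη, hη'⟩ := exists_lower δ hδ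
  exact ⟨η, hη, fun j v hv => h1 j v (Om_mono ℓ ω (hη' j) hv)⟩

theorem sr_add (ℓ : β → Fin s → ℂ) (ρ ρ' : β → ℚ) (v : Fin s → ℂ) :
    sr ℓ (ρ + ρ') v = sr ℓ ρ v + sr ℓ ρ' v := by
  unfold sr
  rw [← Finset.sum_add_distrib]
  refine Finset.sum_congr rfl fun b _ => ?_
  rw [Pi.add_apply, Rat.cast_add, add_mul]

theorem sr_smul (ℓ : β → Fin s → ℂ) (q : ℚ) (ρ : β → ℚ) (v : Fin s → ℂ) :
    sr ℓ (q • ρ) v = q * sr ℓ ρ v := by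
  unfold sr
  rw [Finset.mul_sum]
  refine Finset.sum_congr rfl fun b _ => ?_
  rw [Pi.smul_apply, smul_eq_mul, Rat.cast_mul, mul_assoc]

theorem sr_sum (ℓ : β → Fin s → ℂ) {κ : Type} (t : Finset κ) (ρ : κ → β → ℚ) (v : Fin s → ℂ) :
    sr ℓ (∑ a ∈ t, ρ a) v = ∑ a ∈ t, sr ℓ (ρ a) v := by
  classical
  induction t using Finset.induction_on with
  | empty => simp [sr]
  | insert a t ha ih => rw [Finset.sum_insert ha, Finset.sum_insert ha, sr_add, ih]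

namespace TData

variable (T : TData s β)

theorem exists_local' (hDOM : S_DOM3) (ω : β → ℝ)
    (hω : ∀ m : β → ℤ, m ≠ 0 → ∑ b, (m b : ℝ) * ω b ≠ 0) :
    ∃ (e : T.Ix → β →₀ ℕ), (∀ j, e j ∈ (T.G j).support) ∧ ∃ (η₀ : ℝ), 0 < η₀ ∧
      ∃ q : MvPolynomial (Fin s) ℂ, q ≠ 0 ∧
      ∀ η, η ≤ η₀ → ∀ ξ ∈ Om T.ℓ ω η, eval ξ q ≠ 0 → ∃ ε : ℝ, 0 < ε ∧ ∃ R₀ C : ℝ,
        ∀ R : ℝ, R₀ ≤ R → ∀ v ∈ ball ξ ε, (v ∈ Om T.ℓ ω η ∧ ∀ j, T.χ R v (T.G j) ≠ 0) ∧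
          ∑ j, |Real.log ‖T.χ R v (T.G j)‖ - R * sr T.ℓ (fun b => (e j b : ℚ)) v| ≤
            C * Real.log R := by
  classical
  choose e he _ η hη h using fun j => hDOM s β T.ℓ T.μ T.c ω hω (T.G j) (T.G_ne j)
  obtain ⟨η₀, hη₀, hη₀'⟩ := exists_lower η hη
  refine ⟨e, he, η₀, hη₀, ∏ j, top (coeff (e j) (T.G j)), ?_, ?_⟩
  · refine Finset.prod_ne_zero_iff.2 fun j _ => ?_
    intro h0
    have h1 : coeff (e j) (T.G j) ≠ 0 := mem_support_iff.1 (he j)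
    exact Pool.Agent.K3h91.EX.top_ne_zero h1 h0
  · intro η' hη' ξ hξ hq
    rw [map_prod] at hq
    have hq' : ∀ j, eval ξ (top (coeff (e j) (T.G j))) ≠ 0 := fun j =>
      (Finset.prod_ne_zero_iff.1 hq) j (Finset.mem_univ j)
    have h1 : ∀ j, ∀ b, |(dot (T.ℓ b) ξ).re - ω b| ≤ η j := fun j b =>
      (hξ b).le.trans (hη'.trans (hη₀' j))
    choose ε hε R₀ hR₀ C hC h2 using fun j => h j ξ (h1 j) (hq' j)
    obtain ⟨ε₁, hε₁, hball⟩ := Metric.isOpen_iff.1 (isOpen_Om T.ℓ ω η') ξ hξ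
    obtain ⟨ε₂, hε₂, hε₂'⟩ := exists_lower ε hε
    obtain ⟨R₁, hR₁, hR₁'⟩ := exists_upper R₀ 1
    refine ⟨min ε₁ ε₂, lt_min hε₁ hε₂, R₁, ∑ j, C j, fun R hR v hv => ⟨⟨?_, fun j => ?_⟩, ?_⟩⟩
    · exact hball (ball_subset_ball (min_le_left _ _) hv)
    · exact (h2 j R ((hR₁' j).trans hR) v
        (ball_subset_ball ((min_le_right _ _).trans (hε₂' j)) hv)).1
    · rw [Finset.sum_mul]
      refine Finset.sum_le_sum fun j _ => ?_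
      have h3 := (h2 j R ((hR₁' j).trans hR) v
        (ball_subset_ball ((min_le_right _ _).trans (hε₂' j)) hv)).2
      simpa [sr, χ] using h3

theorem exists_tube' (hDOM : S_DOM3) (hTUBE : S_TUBE) (ω : β → ℝ)
    (hω : ∀ m : β → ℤ, m ≠ 0 → ∑ b, (m b : ℝ) * ω b ≠ 0) :
    ∃ (e : T.Ix → β →₀ ℕ), (∀ j, e j ∈ (T.G j).support) ∧ ∃ (η₀ : ℝ), 0 < η₀ ∧
      ∃ q : MvPolynomial (Fin s) ℂ, q ≠ 0 ∧
      ∀ η, η ≤ η₀ → ∀ K : Set (Fin s → ℂ), IsCompact K → K ⊆ Om T.ℓ ω η →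
        (∀ ξ ∈ K, eval ξ q ≠ 0) → ∃ ε : ℝ, 0 < ε ∧ ∃ R₀ : ℝ, 1 ≤ R₀ ∧ ∃ C : ℝ, 0 ≤ C ∧
          ∀ R : ℝ, R₀ ≤ R → ∀ v ∈ thickening ε K, T.Est e ω η C R v := by
  obtain ⟨e, he, η₀, hη₀, q, hq, h⟩ := T.exists_local' hDOM ω hω
  refine ⟨e, he, η₀, hη₀, q, hq, fun η hη K hK hKΩ hKq => ?_⟩
  obtain ⟨ε, hε, R₀, hR₀, C, hC, h1⟩ := hTUBE s K _ _ hK fun ξ hξ =>
    h η hη ξ (hKΩ hξ) (hKq ξ hξ)
  refine ⟨ε, hε, R₀, hR₀, C, hC, fun R hR v hv => ?_⟩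
  obtain ⟨⟨h2, h3⟩, h4⟩ := h1 R hR v hv
  refine ⟨h2, h3, fun j => le_trans ?_ h4⟩
  exact Finset.single_le_sum (f := fun j => |Real.log ‖T.χ R v (T.G j)‖ -
    R * sr T.ℓ (fun b => (e j b : ℚ)) v|) (fun _ _ => abs_nonneg _) (Finset.mem_univ j)

/-- the slopes belong to the given finite sets -/
theorem sv_mem (e : T.Ix → β →₀ ℕ) (he : ∀ j, e j ∈ (T.G j).support) (S : Fin s → Finset (β → ℚ))
    (hS : ∀ a, ∀ j ∈ (T.g a).support, ∀ k ∈ (T.g a).support, j < k →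
      ∀ x ∈ ((T.g a).coeff j).support, ∀ y ∈ ((T.g a).coeff k).support,
      (fun b => ((x b : ℚ) - y b) / ((k : ℚ) - j)) ∈ S a) (a : Fin s) (x : T.Sl a) :
    T.sv e a x ∈ S a := by
  obtain ⟨⟨j, k⟩, hx⟩ := x
  have h1 := hx
  rw [Finset.mem_filter, Finset.mem_product] at h1
  obtain ⟨⟨hj, hk⟩, hjk⟩ := h1
  have h2 := hS a j hj k hk hjk _ (he (Sum.inr ⟨a, ⟨j, hj⟩⟩)) _ (he (Sum.inr ⟨a, ⟨k, hk⟩⟩))
  convert h2 using 1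
  funext b
  simp only [sv, E, dif_pos hj, dif_pos hk]

/-- the branch with given slopes -/
theorem branch (hSLOPE : S_SLOPE) (hROOTEX : S_ROOTEX) (e : T.Ix → β →₀ ℕ)
    (he : ∀ j, e j ∈ (T.G j).support) (ω : β → ℝ) (η C₀ : ℝ) (hC₀ : 0 ≤ C₀) (R₀ : ℝ)
    (hR₀ : 1 ≤ R₀) (ζ₁ : Fin s → ℂ) (hE : ∀ R, R₀ ≤ R → T.Est e ω η C₀ R ζ₁)
    (r : Fin s → β → ℚ) (S : Fin s → Finset (β → ℚ)) (hrS : ∀ a, r a ∈ S a)
    (hS : ∀ a, ∀ j ∈ (T.g a).support, ∀ k ∈ (T.g a).support, j < k →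
      ∀ x ∈ ((T.g a).coeff j).support, ∀ y ∈ ((T.g a).coeff k).support,
      (fun b => ((x b : ℚ) - y b) / ((k : ℚ) - j)) ∈ S a)
    (m : Fin s → ℕ)
    (hm : ∀ x y : Fin s → β → ℚ, (∀ a, x a ∈ S a) → (∀ a, y a ∈ S a) →
      (∀ b, ∑ a, (m a : ℚ) * x a b = ∑ a, (m a : ℚ) * y a b) → x = y)
    (qq : Polynomial (MvPolynomial β (MvPolynomial (Fin s) ℂ)))
    (hqq : ∀ (z : Fin s → ℂ) (t : ℂ), val (fun b => lin (T.ℓ b) (T.μ b)) T.c z T.D ≠ 0 →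
      (qq.map (val (fun b => lin (T.ℓ b) (T.μ b)) T.c z)).eval t = 0 →
      ∃ u, (T.f.map (val (fun b => lin (T.ℓ b) (T.μ b)) T.c z)).eval u = 0 ∧
        t = ∏ a, (((T.N a).map (val (fun b => lin (T.ℓ b) (T.μ b)) T.c z)).eval u /
          val (fun b => lin (T.ℓ b) (T.μ b)) T.c z T.D) ^ m a)
    (γ : ℝ) (hγ : 0 < γ)
    (hgap : ∀ σ : ∀ a, T.Sl a, (∑ a, (m a : ℚ) • T.sv e a (σ a)) - ∑ a, (m a : ℚ) • r a ≠ 0 →
      γ ≤ |sr T.ℓ ((∑ a, (m a : ℚ) • T.sv e a (σ a)) - ∑ a, (m a : ℚ) • r a) ζ₁|)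
    (e' : {l // l ∈ qq.support} → β →₀ ℕ) (C₁ R₁ : ℝ) (hC₁ : 0 ≤ C₁)
    (hE' : ∀ R, R₁ ≤ R → ∀ l : {l // l ∈ qq.support}, T.χ R ζ₁ (qq.coeff l) ≠ 0 ∧
      |Real.log ‖T.χ R ζ₁ (qq.coeff l)‖ - R * sr T.ℓ (fun b => (e' l b : ℚ)) ζ₁| ≤ C₁ * Real.log R)
    (j k : {l // l ∈ qq.support}) (hjk : (j : ℕ) ≠ k)
    (hnp : sr T.ℓ (fun b => (e' j b : ℚ)) ζ₁ + j * sr T.ℓ (∑ a, (m a : ℚ) • r a) ζ₁ =
      sr T.ℓ (fun b => (e' k b : ℚ)) ζ₁ + k * sr T.ℓ (∑ a, (m a : ℚ) • r a) ζ₁)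
    (hnp' : ∀ l : {l // l ∈ qq.support},
      sr T.ℓ (fun b => (e' l b : ℚ)) ζ₁ + l * sr T.ℓ (∑ a, (m a : ℚ) • r a) ζ₁ ≤
      sr T.ℓ (fun b => (e' j b : ℚ)) ζ₁ + j * sr T.ℓ (∑ a, (m a : ℚ) • r a) ζ₁) :
    ∃ R₂ : ℝ, ∀ R, R₂ ≤ R → ∃ u₀ : ℂ, (T.f.map (T.χ R ζ₁)).eval u₀ = 0 ∧
      ∃ σ : ∀ a, T.Sl a, (∀ a, T.sv e a (σ a) = r a) ∧
        ∀ a, |Real.log ‖T.Y R ζ₁ u₀ a‖ - R * sr T.ℓ (T.sv e a (σ a)) ζ₁| ≤
          (2 * C₀ + 1) * Real.log R := by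
  classical
  set ρ : β → ℚ := ∑ a, (m a : ℚ) • r a with hρ
  set M : ℝ := ∑ a, (m a : ℝ) * (2 * C₀ + 1) with hM
  have hM0 : 0 ≤ M := Finset.sum_nonneg fun a _ => by positivity
  obtain ⟨Rg, hRg1, hRg⟩ := grow 0 1 one_pos (M + 2 * C₁) (2 * (qq.natDegree + 1)) (γ / 2)
    (by positivity)
  obtain ⟨Rd, hRd1, hRd⟩ := exists_upper (fun a : Fin s => ((T.g a).natDegree : ℝ) + 1)
    (max (max R₀ R₁) Rg)
  refine ⟨Rd, fun R hR => ?_⟩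
  have hRR₀ : R₀ ≤ R := (((le_max_left _ _).trans (le_max_left _ _)).trans hRd1).trans hR
  have hRR₁ : R₁ ≤ R := (((le_max_right _ _).trans (le_max_left _ _)).trans hRd1).trans hR
  have hRRg : Rg ≤ R := ((le_max_right _ _).trans hRd1).trans hR
  have hR1 : 1 ≤ R := hR₀.trans hRR₀
  have hlog : 0 ≤ Real.log R := Real.log_nonneg hR1
  have hER := hE R hRR₀
  set EE : ℕ → ℝ := fun l => if h : l ∈ qq.support then
    R * sr T.ℓ (fun b => (e' ⟨l, h⟩ b : ℚ)) ζ₁ else 0 with hEE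
  have hEEl : ∀ l : {l // l ∈ qq.support}, EE l = R * sr T.ℓ (fun b => (e' l b : ℚ)) ζ₁ := by
    intro l
    simp only [hEE, dif_pos l.2]
  have hsupp : ∀ l : {l // l ∈ qq.support}, (l : ℕ) ∈ (qq.map (T.χ R ζ₁)).support := by
    intro l
    rw [Polynomial.mem_support_iff, Polynomial.coeff_map]
    exact (hE' R hRR₁ l).1
  obtain ⟨t, ht0, htne, ht⟩ := hROOTEX (qq.map (T.χ R ζ₁)) EE (C₁ * Real.log R)
    (R * sr T.ℓ ρ ζ₁) (by positivity) (by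
      intro l hl
      have hl' : l ∈ qq.support := Polynomial.support_map_subset _ _ hl
      rw [Polynomial.coeff_map, hEEl ⟨l, hl'⟩]
      exact (hE' R hRR₁ ⟨l, hl'⟩).2) j (hsupp j) k (hsupp k) hjk (by
      rw [hEEl, hEEl]
      linear_combination R * hnp) (by
      intro l hl
      have hl' : l ∈ qq.support := Polynomial.support_map_subset _ _ hl
      rw [hEEl ⟨l, hl'⟩, hEEl j]
      have h1 := mul_le_mul_of_nonneg_left (hnp' ⟨l, hl'⟩) (by linarith : (0 : ℝ) ≤ R)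
      simp only at h1 ⊢
      linarith)
  obtain ⟨u₀, hu₀, htu⟩ := hqq (sc R ζ₁) t (hER.2.1 (Sum.inl 0)) ht0
  choose hne σ hσ using fun a => T.slope_at hSLOPE e ω η C₀ R hC₀ hR1 ζ₁ hER u₀ hu₀ a
    (Real.log_le_log (by positivity) ((hRd a).trans hR))
  refine ⟨u₀, hu₀, σ, ?_, hσ⟩
  have hlogt : Real.log ‖t‖ = ∑ a, (m a : ℝ) * Real.log ‖T.Y R ζ₁ u₀ a‖ := by
    have h1 : t = ∏ a, T.Y R ζ₁ u₀ a ^ m a := htu
    rw [h1, norm_prod, Real.log_prod (fun a _ => by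
      rw [norm_pow]
      exact pow_ne_zero _ (norm_ne_zero_iff.2 (hne a)))]
    refine Finset.sum_congr rfl fun a _ => ?_
    rw [norm_pow, Real.log_pow]
  have h2 : |∑ a, (m a : ℝ) * Real.log ‖T.Y R ζ₁ u₀ a‖ -
      R * sr T.ℓ (∑ a, (m a : ℚ) • T.sv e a (σ a)) ζ₁| ≤ M * Real.log R := by
    rw [sr_sum, Finset.mul_sum, ← Finset.sum_sub_distrib, hM, Finset.sum_mul]
    refine (Finset.abs_sum_le_sum_abs _ _).trans (Finset.sum_le_sum fun a _ => ?_)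
    rw [sr_smul]
    have h3 : (m a : ℝ) * Real.log ‖T.Y R ζ₁ u₀ a‖ -
        R * (((m a : ℚ) : ℝ) * sr T.ℓ (T.sv e a (σ a)) ζ₁) =
        (m a : ℝ) * (Real.log ‖T.Y R ζ₁ u₀ a‖ - R * sr T.ℓ (T.sv e a (σ a)) ζ₁) := by
      push_cast
      ring
    rw [h3, abs_mul, abs_of_nonneg (by positivity : (0 : ℝ) ≤ m a), mul_assoc]
    exact mul_le_mul_of_nonneg_left (hσ a) (by positivity)
  by_contra hcon
  have h4 : (∑ a, (m a : ℚ) • T.sv e a (σ a)) - ρ ≠ 0 := by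
    intro h5
    apply hcon
    intro a
    have h6 := hm (fun a => T.sv e a (σ a)) r (fun a => T.sv_mem e he S hS a (σ a)) hrS (by
      intro b
      have h7 := congrFun (sub_eq_zero.1 h5) b
      rw [hρ, Finset.sum_apply, Finset.sum_apply] at h7
      simpa using h7)
    exact congrFun h6 a
  have h5 := hgap σ h4
  rw [sr_sub] at h5
  rw [hlogt] at ht
  have h6 : R * γ ≤ |R * sr T.ℓ (∑ a, (m a : ℚ) • T.sv e a (σ a)) ζ₁ - R * sr T.ℓ ρ ζ₁| := by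
    rw [← mul_sub, abs_mul, abs_of_nonneg (by linarith : (0 : ℝ) ≤ R)]
    exact mul_le_mul_of_nonneg_left h5 (by linarith)
  have hdeg : ((qq.map (T.χ R ζ₁)).natDegree : ℝ) ≤ qq.natDegree := by
    exact_mod_cast Polynomial.natDegree_map_le
  have h7 := hRg R hRRg
  rw [pow_zero, pow_one] at h7
  have h8 : |R * sr T.ℓ (∑ a, (m a : ℚ) • T.sv e a (σ a)) ζ₁ - R * sr T.ℓ ρ ζ₁| ≤
      M * Real.log R + (2 * (C₁ * Real.log R) + 2 * ((qq.natDegree : ℝ) + 1)) := by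
    have h9 := abs_le.1 h2
    have h10 := abs_le.1 ht
    rw [abs_le]
    constructor <;> linarith [h9.1, h9.2, h10.1, h10.2]
  nlinarith

end TData

end Pool.Agent.K3h22.EX
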