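import Pool.Agent.K3h22.EX.TE

/-! EX project, linear spaces in general position, all dimensions: solution for given slopes. -/

set_option autoImplicit false

namespace Pool.Agent.K3h22.EX

open MvPolynomial Filter Topology Metric Set

variable {s : ℕ} {β : Type} [Fintype β]

namespace TData

variable (T : TData s β)

theorem solve2 (hDOM : S_DOM3) (hTUBE : S_TUBE) (hHROOT2 : S_HROOT2) (hCONST : S_CONST)
    (hSLOPE : S_SLOPE) (hVAL : S_VALHOL) (hPATH : S_PATH) (hAVOID : S_AVOID) (hLOG : S_LOG)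
    (hSOLVE : S_SOLVE) (hROOTEX : S_ROOTEX) (ω : β → ℝ)
    (hω : ∀ m : β → ℤ, m ≠ 0 → ∑ b, (m b : ℝ) * ω b ≠ 0)
    (ℓ' : Fin s → Fin s → ℂ) (μ' c' : Fin s → ℂ) (r₀ : Fin s → β → ℚ)
    (hζ : ∃ ζ : Fin s → ℂ, (∀ b, (dot (T.ℓ b) ζ).re = ω b) ∧
      ∀ a, (dot (ℓ' a) ζ).re = ∑ b, (r₀ a b : ℝ) * ω b)
    (hC2 : ∀ r : Fin s → β → ℚ,
      (Matrix.of fun a j => ℓ' a j - ∑ b, (r a b : ℂ) * T.ℓ b j).det ≠ 0)
    (S : Fin s → Finset (β → ℚ)) (hrS : ∀ a, r₀ a ∈ S a)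
    (hS : ∀ a, ∀ j ∈ (T.g a).support, ∀ k ∈ (T.g a).support, j < k →
      ∀ x ∈ ((T.g a).coeff j).support, ∀ y ∈ ((T.g a).coeff k).support,
      (fun b => ((x b : ℚ) - y b) / ((k : ℚ) - j)) ∈ S a)
    (m : Fin s → ℕ)
    (hm : ∀ x y : Fin s → β → ℚ, (∀ a, x a ∈ S a) → (∀ a, y a ∈ S a) →
      (∀ b, ∑ a, (m a : ℚ) * x a b = ∑ a, (m a : ℚ) * y a b) → x = y)
    (qq : Polynomial (MvPolynomial β (MvPolynomial (Fin s) ℂ)))
    (hqq : ∀ (z : Fin s → ℂ) (t : ℂ), val (fun b => lin (T.ℓ b) (T.μ b)) T.c z T.D ≠ 0 →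
      (qq.map (val (fun b => lin (T.ℓ b) (T.μ b)) T.c z)).eval t = 0 →
      ∃ u, (T.f.map (val (fun b => lin (T.ℓ b) (T.μ b)) T.c z)).eval u = 0 ∧
        t = ∏ a, (((T.N a).map (val (fun b => lin (T.ℓ b) (T.μ b)) T.c z)).eval u /
          val (fun b => lin (T.ℓ b) (T.μ b)) T.c z T.D) ^ m a)
    (hnp : ∃ j ∈ qq.support, ∃ k ∈ qq.support, j < k ∧ ∃ x ∈ (qq.coeff j).support,
      ∃ y ∈ (qq.coeff k).support,
      ∑ b, (x b : ℝ) * ω b + j * ∑ b, (∑ a, (m a : ℝ) * r₀ a b) * ω b =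
        ∑ b, (y b : ℝ) * ω b + k * ∑ b, (∑ a, (m a : ℝ) * r₀ a b) * ω b ∧
      ∀ l ∈ qq.support, ∀ x' ∈ (qq.coeff l).support,
        ∑ b, (x' b : ℝ) * ω b + l * ∑ b, (∑ a, (m a : ℝ) * r₀ a b) * ω b ≤
        ∑ b, (x b : ℝ) * ω b + j * ∑ b, (∑ a, (m a : ℝ) * r₀ a b) * ω b) :
    ∃ (z : Fin s → ℂ) (t : ℂ), val (fun b => lin (T.ℓ b) (T.μ b)) T.c z T.D ≠ 0 ∧
      val (fun b => lin (T.ℓ b) (T.μ b)) T.c z T.g0 ≠ 0 ∧
      (T.f.map (val (fun b => lin (T.ℓ b) (T.μ b)) T.c z)).eval t = 0 ∧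
      ∀ a, ((T.N a).map (val (fun b => lin (T.ℓ b) (T.μ b)) T.c z)).eval t /
        val (fun b => lin (T.ℓ b) (T.μ b)) T.c z T.D =
        Complex.exp (eval z (lin (ℓ' a) (μ' a)) + c' a) := by
  classical
  obtain ⟨e, he, η₀, hη₀, q, hq, htube⟩ := T.exists_tube' hDOM hTUBE ω hω
  obtain ⟨η₁, hη₁, γ, hγ, hgap⟩ := exists_gap T.ℓ ω hω
    (fun x : Σ a : Fin s, T.Sl a × T.Sl a => T.sv e x.1 x.2.1 - T.sv e x.1 x.2.2)
  set ρ : β → ℚ := ∑ a, (m a : ℚ) • r₀ a with hρ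
  obtain ⟨η₂, hη₂, γ₂, hγ₂, hgap₂⟩ := exists_gap T.ℓ ω hω
    (fun σ : (∀ a, T.Sl a) => (∑ a, (m a : ℚ) • T.sv e a (σ a)) - ρ)
  -- the dominant exponents of the coefficients of `qq`
  choose e' he' hmax' η' hη' hdom' using fun l : {l // l ∈ qq.support} =>
    hDOM s β T.ℓ T.μ T.c ω hω (qq.coeff l) (Polynomial.mem_support_iff.1 l.2)
  obtain ⟨η₃, hη₃, hη₃'⟩ := exists_lower η' hη'
  have hρω : ∑ b, (∑ a, (m a : ℝ) * r₀ a b) * ω b = ∑ b, (ρ b : ℝ) * ω b := by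
    refine Finset.sum_congr rfl fun b _ => ?_
    rw [hρ, Finset.sum_apply]
    push_cast
    simp
  rw [hρω] at hnp
  obtain ⟨j, hj, k, hk, hjk, x, hx, y, hy, hxy, hall⟩ := hnp
  -- exponents of the same size are equal
  have huniq : ∀ x y : β →₀ ℕ, ∑ b, (x b : ℝ) * ω b = ∑ b, (y b : ℝ) * ω b → x = y := by
    intro x y hxy
    by_contra hne
    have h1 : (fun b => ((x b : ℤ) - y b)) ≠ 0 := by
      intro h
      apply hne
      ext b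
      have h2 := congrFun h b
      simp only [Pi.zero_apply] at h2
      omega
    apply hω _ h1
    push_cast
    simp only [sub_mul, Finset.sum_sub_distrib]
    exact sub_eq_zero.2 hxy
  have hxe : x = e' ⟨j, hj⟩ := by
    apply huniq
    have h1 := hall j hj (e' ⟨j, hj⟩) (he' ⟨j, hj⟩)
    have h2 := hmax' ⟨j, hj⟩ x hx
    linarith
  have hye : y = e' ⟨k, hk⟩ := by
    apply huniq
    have h1 := hall k hk (e' ⟨k, hk⟩) (he' ⟨k, hk⟩)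
    have h2 := hmax' ⟨k, hk⟩ y hy
    linarith
  set δ : {l // l ∈ qq.support} → β → ℚ := fun l =>
    ((fun b => (e' l b : ℚ)) + ((l : ℕ) : ℚ) • ρ) -
      ((fun b => (e' ⟨j, hj⟩ b : ℚ)) + ((j : ℕ) : ℚ) • ρ) with hδ
  have hδω : ∀ l : {l // l ∈ qq.support}, ∑ b, (δ l b : ℝ) * ω b =
      (∑ b, (e' l b : ℝ) * ω b + (l : ℕ) * ∑ b, (ρ b : ℝ) * ω b) -
      (∑ b, (e' ⟨j, hj⟩ b : ℝ) * ω b + (j : ℕ) * ∑ b, (ρ b : ℝ) * ω b) := by
    intro l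
    rw [Finset.mul_sum, Finset.mul_sum, ← Finset.sum_add_distrib, ← Finset.sum_add_distrib,
      ← Finset.sum_sub_distrib]
    refine Finset.sum_congr rfl fun b _ => ?_
    simp only [hδ, Pi.sub_apply, Pi.add_apply, Pi.smul_apply, smul_eq_mul]
    push_cast
    ring
  have hδsr : ∀ (l : {l // l ∈ qq.support}) (v : Fin s → ℂ), sr T.ℓ (δ l) v =
      (sr T.ℓ (fun b => (e' l b : ℚ)) v + (l : ℕ) * sr T.ℓ ρ v) -
      (sr T.ℓ (fun b => (e' ⟨j, hj⟩ b : ℚ)) v + (j : ℕ) * sr T.ℓ ρ v) := by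
    intro l v
    simp only [hδ]
    rw [sr_sub, sr_add, sr_add, sr_smul, sr_smul]
    push_cast
    ring
  obtain ⟨η₄, hη₄, hnonpos⟩ := exists_nonpos T.ℓ ω hω δ (by
    intro l
    rw [hδω]
    have h1 := hall l l.2 (e' l) (he' l)
    rw [hxe] at h1
    linarith)
  set η := min (min η₀ η₁) (min η₂ (min η₃ η₄)) with hη
  have hη0 : 0 < η := lt_min (lt_min hη₀ hη₁) (lt_min hη₂ (lt_min hη₃ hη₄))
  have hηη₀ : η ≤ η₀ := (min_le_left _ _).trans (min_le_left _ _)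
  have hηη₁ : η ≤ η₁ := (min_le_left _ _).trans (min_le_right _ _)
  have hηη₂ : η ≤ η₂ := (min_le_right _ _).trans (min_le_left _ _)
  have hηη₃ : η ≤ η₃ := ((min_le_right _ _).trans (min_le_right _ _)).trans (min_le_left _ _)
  have hηη₄ : η ≤ η₄ := ((min_le_right _ _).trans (min_le_right _ _)).trans (min_le_right _ _)
  have hgap' : ∀ a (x y : T.Sl a), T.sv e a x - T.sv e a y ≠ 0 → ∀ v ∈ Om T.ℓ ω η,
      γ ≤ |sr T.ℓ (T.sv e a x - T.sv e a y) v| := fun a x y hxy v hv =>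
    hgap ⟨a, x, y⟩ hxy v (Om_mono T.ℓ ω hηη₁ hv)
  -- the first point
  obtain ⟨ζ₀, hζ₀, -⟩ := id hζ
  set q' : MvPolynomial (Fin s) ℂ := ∏ l : {l // l ∈ qq.support}, top (coeff (e' l) (qq.coeff l))
    with hq'
  have hq'0 : q' ≠ 0 := by
    refine Finset.prod_ne_zero_iff.2 fun l _ => ?_
    intro h0
    have h1 : coeff (e' l) (qq.coeff l) ≠ 0 := mem_support_iff.1 (he' l)
    exact Pool.Agent.K3h91.EX.top_ne_zero h1 h0
  obtain ⟨ζ₁, hζ₁, hqζ₁'⟩ := exists_ne_near hAVOID (q * q') (mul_ne_zero hq hq'0) (Om T.ℓ ω η)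
    (isOpen_Om _ _ _) ζ₀ (by
    intro b
    rw [hζ₀ b, sub_self, abs_zero]
    exact hη0)
  rw [map_mul] at hqζ₁'
  have hqζ₁ : eval ζ₁ q ≠ 0 := left_ne_zero_of_mul hqζ₁'
  have hq'ζ₁ : eval ζ₁ q' ≠ 0 := right_ne_zero_of_mul hqζ₁'
  obtain ⟨ε₀, hε₀, R₀, hR₀, C₀, hC₀, hest₀⟩ := htube η hηη₀ {ζ₁} isCompact_singleton
    (by simpa using hζ₁) (by simpa using hqζ₁)
  -- the solution for given slopes
  have hfin : ∀ σ : (∀ a, T.Sl a), (fun a => T.sv e a (σ a)) = r₀ → ∃ R₂ : ℝ, ∀ R : ℝ, R₂ ≤ R →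
      ∀ u₀ : ℂ, (T.f.map (T.χ R ζ₁)).eval u₀ = 0 →
      (∀ a, |Real.log ‖T.Y R ζ₁ u₀ a‖ - R * sr T.ℓ (T.sv e a (σ a)) ζ₁| ≤
        (2 * C₀ + 1) * Real.log R) →
      ∃ (v : Fin s → ℂ) (t : ℂ), T.χ R v T.D ≠ 0 ∧ T.χ R v T.g0 ≠ 0 ∧
        (T.f.map (T.χ R v)).eval t = 0 ∧
        ∀ a, T.Y R v t a = Complex.exp (eval (sc R v) (lin (ℓ' a) (μ' a)) + c' a) := by
    intro σ hσr
    set r : Fin s → β → ℚ := fun a => T.sv e a (σ a) with hr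
    rw [← hσr] at hζ
    set lam : Fin s → Fin s → ℂ := fun a j => ℓ' a j - ∑ b, (r a b : ℂ) * T.ℓ b j with hlam
    set nu : Fin s → ℂ := fun a => μ' a - ∑ b, (r a b : ℂ) * T.μ b with hnu
    have hdet : (Matrix.of lam).det ≠ 0 := hC2 r
    have hlam0 : ∀ a, lam a ≠ 0 := by
      intro a h0
      apply hdet
      apply Matrix.det_eq_zero_of_row_eq_zero a
      intro j
      exact congrFun h0 j
    have hdotlam : ∀ a v, dot (lam a) v = dot (ℓ' a) v - ∑ b, (r a b : ℂ) * dot (T.ℓ b) v := by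
      intro a v
      simp only [dot, hlam, sub_mul, Finset.sum_sub_distrib, Finset.mul_sum, Finset.sum_mul]
      congr 1
      rw [Finset.sum_comm]
      exact Finset.sum_congr rfl fun b _ => Finset.sum_congr rfl fun j _ => by ring
    have hre : ∀ a v, (dot (lam a) v).re = (dot (ℓ' a) v).re - sr T.ℓ (r a) v := by
      intro a v
      rw [hdotlam, Complex.sub_re, Complex.re_sum]
      congr 1
      unfold sr
      refine Finset.sum_congr rfl fun b _ => ?_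
      have : ((r a b : ℚ) : ℂ) = (((r a b : ℚ) : ℝ) : ℂ) := by norm_cast
      rw [this, Complex.re_ofReal_mul]
    have htop : ∀ a, top (lin (lam a) (nu a)) = lin (lam a) 0 := fun a => top_lin (hlam0 a) _
    have hjac : ∀ v, jac (fun a => lin (lam a) 0) v = Matrix.of lam := by
      intro v
      ext a j
      simp [jac, pderiv_lin]
    -- the second point
    obtain ⟨ζ', hζ'1, hζ'2⟩ := hζ
    have hζ'Ω : ζ' ∈ Om T.ℓ ω η := by
      intro b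
      rw [hζ'1 b, sub_self, abs_zero]
      exact hη0
    have hζ're : ∀ a, (eval ζ' (lin (lam a) 0)).re = 0 := by
      intro a
      rw [eval_lin, add_zero, hre, hζ'2]
      unfold sr
      simp only [hζ'1]
      ring
    obtain ⟨ε', hε', hball'⟩ := Metric.isOpen_iff.1 (isOpen_Om T.ℓ ω η) ζ' hζ'Ω
    obtain ⟨ζ₂, hζ₂b, hζ₂re, hqζ₂⟩ := hAVOID s (fun a => lin (lam a) 0) ζ' hζ're
      (by rw [hjac]; exact hdet) q hq ε' hε'
    have hζ₂ : ζ₂ ∈ Om T.ℓ ω η := hball' hζ₂b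
    obtain ⟨ζ, hζ, hs1, hs2⟩ := hPATH s q (Om T.ℓ ω η) (isOpen_Om _ _ _) (convex_Om _ _ _) ζ₁ hζ₁
      ζ₂ hζ₂ hqζ₁ hqζ₂
    have hcompact : ∀ x y : Fin s → ℂ, IsCompact (segment ℝ x y) := fun x y => by
      rw [segment_eq_image_lineMap]
      exact isCompact_Icc.image AffineMap.lineMap_continuous
    obtain ⟨ε₁, hε₁, R₁, hR₁, C₁, hC₁, hest₁⟩ := htube η hηη₀ (segment ℝ ζ₁ ζ)
      (hcompact _ _) ((convex_Om T.ℓ ω η).segment_subset hζ₁ hζ) hs1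
    obtain ⟨ε₂, hε₂, R₂, hR₂, C₂, hC₂, hest₂⟩ := htube η hηη₀ (segment ℝ ζ ζ₂)
      (hcompact _ _) ((convex_Om T.ℓ ω η).segment_subset hζ hζ₂) hs2
    obtain ⟨R₃, C₃, hR₃, hC₃, hCC₃, hstep₁⟩ := T.tube_step hHROOT2 hCONST hSLOPE hVAL e ω η γ hγ
      hgap' _ (convex_segment ζ₁ ζ) ε₁ R₁ C₁ hR₁ hC₁ hest₁ (2 * C₀ + 1)
    obtain ⟨R₄, C₄, hR₄, hC₄, hCC₄, hstep₂⟩ := T.tube_step hHROOT2 hCONST hSLOPE hVAL e ω η γ hγ
      hgap' _ (convex_segment ζ ζ₂) ε₂ R₂ C₂ hR₂ hC₂ hest₂ C₃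
    obtain ⟨κ, hκ, R₅, hR₅, hsol⟩ := hSOLVE s (fun a => lin (lam a) (nu a)) ζ₂ ε₂ hε₂
      (fun a => by rw [htop]; exact hζ₂re a) (by
        simp only [htop]
        rw [hjac]
        exact hdet)
    set M : Fin s → ℝ := fun a => |∑ b, (r a b : ℝ) * (T.μ b).re| + |(c' a).re| with hM
    choose R₆ hR₆1 hR₆ using fun a => grow 0 1 one_pos C₄ (M a) κ hκ
    obtain ⟨R₇, hR₇, hR₇'⟩ := exists_upper R₆ (max R₃ (max R₄ R₅))
    refine ⟨R₇, fun R hR u₀ hu₀ hslope₀ => ?_⟩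
    have hRR₃ : R₃ ≤ R := ((le_max_left _ _).trans hR₇).trans hR
    have hRR₄ : R₄ ≤ R := (((le_max_left _ _).trans (le_max_right _ _)).trans hR₇).trans hR
    have hRR₅ : R₅ ≤ R := (((le_max_right _ _).trans (le_max_right _ _)).trans hR₇).trans hR
    have hR1 : 1 ≤ R := hR₅.trans hRR₅
    have hlog : 0 ≤ Real.log R := Real.log_nonneg hR1
    have hmem : ∀ (x y v : Fin s → ℂ) (ε : ℝ), 0 < ε → v ∈ segment ℝ x y →
        v ∈ thickening ε (segment ℝ x y) := fun x y v ε hε hv =>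
      self_subset_thickening hε _ hv
    obtain ⟨Z₁, -, hZ₁0, hZ₁r, -, hZ₁⟩ := hstep₁ R hRR₃ ζ₁
      (hmem _ _ _ _ hε₁ (left_mem_segment ℝ ζ₁ ζ)) u₀ hu₀ σ hslope₀
    have hζT₁ := hmem ζ₁ ζ ζ ε₁ hε₁ (right_mem_segment ℝ ζ₁ ζ)
    obtain ⟨Z₂, -, hZ₂0, hZ₂r, hY₂d, hZ₂⟩ := hstep₂ R hRR₄ ζ
      (hmem _ _ _ _ hε₂ (left_mem_segment ℝ ζ ζ₂)) (Z₁ ζ) (hZ₁r ζ hζT₁) σ
      (fun a => (hZ₁ ζ hζT₁ a).2)
    have hbT : ball ζ₂ ε₂ ⊆ thickening ε₂ (segment ℝ ζ ζ₂) := fun v hv =>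
      mem_thickening_iff.2 ⟨ζ₂, right_mem_segment ℝ ζ ζ₂, hv⟩
    choose L hLd hLe using fun a => hLOG s (ball ζ₂ ε₂) (fun v => T.Y R v (Z₂ v) a) isOpen_ball
      (convex_ball ζ₂ ε₂) ((hY₂d a).mono hbT) fun v hv => (hZ₂ v (hbT hv) a).1
    have hLre : ∀ a, ∀ v ∈ ball ζ₂ ε₂, (L a v).re = Real.log ‖T.Y R v (Z₂ v) a‖ := by
      intro a v hv
      rw [← hLe a v hv, Complex.norm_exp, Real.log_exp]
    set L' : Fin s → (Fin s → ℂ) → ℂ := fun a v =>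
      L a v - ∑ b, (r a b : ℂ) * (R * dot (T.ℓ b) v + T.μ b) - c' a with hL'
    have hdotd : ∀ l : Fin s → ℂ, Differentiable ℂ (dot l) := by
      intro l
      unfold dot
      fun_prop
    obtain ⟨v, hv, hv'⟩ := hsol R hRR₅ L' (fun a => by
        simp only [hL']
        refine ((hLd a).sub ?_).sub_const _
        refine (Differentiable.fun_sum fun b _ => ?_).differentiableOn
        exact (((hdotd (T.ℓ b)).const_mul _).add_const _).const_mul _) (by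
      intro a v hv
      have h1 := (hZ₂ v (hbT hv) a).2
      have h2 : (L' a v).re = (Real.log ‖T.Y R v (Z₂ v) a‖ - R * sr T.ℓ (r a) v) -
          ∑ b, (r a b : ℝ) * (T.μ b).re - (c' a).re := by
        simp only [hL', Complex.sub_re, Complex.re_sum, hLre a v hv]
        have h3 : ∑ b, ((r a b : ℂ) * (R * dot (T.ℓ b) v + T.μ b)).re =
            R * sr T.ℓ (r a) v + ∑ b, (r a b : ℝ) * (T.μ b).re := by
          unfold sr
          rw [Finset.mul_sum, ← Finset.sum_add_distrib]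
          refine Finset.sum_congr rfl fun b _ => ?_
          have h4 : ((r a b : ℚ) : ℂ) = (((r a b : ℚ) : ℝ) : ℂ) := by norm_cast
          rw [h4, Complex.re_ofReal_mul, Complex.add_re, Complex.re_ofReal_mul]
          ring
        rw [h3]
        ring
      rw [totalDegree_lin (hlam0 a), pow_one, h2]
      have h5 := hR₆ a R ((hR₇' a).trans hR)
      rw [pow_zero, pow_one] at h5
      have h6 : |Real.log ‖T.Y R v (Z₂ v) a‖ - R * sr T.ℓ (r a) v -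
          ∑ b, (r a b : ℝ) * (T.μ b).re - (c' a).re| ≤ C₄ * Real.log R + M a := by
        refine (abs_sub _ _).trans ?_
        have h7 := abs_sub (Real.log ‖T.Y R v (Z₂ v) a‖ - R * sr T.ℓ (r a) v)
          (∑ b, (r a b : ℝ) * (T.μ b).re)
        simp only [hM]
        linarith
      nlinarith)
    have hEv := hest₂ R (hR₄.trans hRR₄) v (hbT hv)
    refine ⟨v, Z₂ v, hEv.2.1 (Sum.inl 0), hEv.2.1 (Sum.inl 2), hZ₂r v (hbT hv), fun a => ?_⟩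
    obtain ⟨k, hk⟩ := hv' a
    rw [← hLe a v hv]
    have h1 : eval (sc R v) (lin (ℓ' a) (μ' a)) + c' a =
        L a v + k * (2 * Real.pi * Complex.I) := by
      rw [eval_sc_lin, hdotlam] at hk
      rw [eval_sc_lin]
      simp only [hL', hnu, mul_add, Finset.sum_add_distrib] at hk
      have h2 : ∑ b, (r a b : ℂ) * ((R : ℂ) * dot (T.ℓ b) v) =
          R * ∑ b, (r a b : ℂ) * dot (T.ℓ b) v := by
        rw [Finset.mul_sum]
        exact Finset.sum_congr rfl fun b _ => by ring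
      rw [h2] at hk
      linear_combination hk
    rw [h1, Complex.exp_add, Complex.exp_int_mul_two_pi_mul_I, mul_one]
  -- the branch
  have hζT : ζ₁ ∈ thickening ε₀ {ζ₁} := self_subset_thickening hε₀ _ (mem_singleton _)
  rw [hq', map_prod] at hq'ζ₁
  choose ε₁ hε₁ R₁ hR₁ C₁ hC₁ hb using fun l : {l // l ∈ qq.support} => hdom' l ζ₁
    (fun b => (hζ₁ b).le.trans (hηη₃.trans (hη₃' l)))
    ((Finset.prod_ne_zero_iff.1 hq'ζ₁) l (Finset.mem_univ l))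
  obtain ⟨R₂, hR₂, hR₂'⟩ := exists_upper R₁ 1
  have hC₁s : ∀ l, C₁ l ≤ ∑ l, C₁ l := fun l =>
    Finset.single_le_sum (f := C₁) (fun l _ => hC₁ l) (Finset.mem_univ l)
  obtain ⟨R₃, hR₃⟩ := T.branch hSLOPE hROOTEX e he ω η C₀ hC₀ R₀ hR₀ ζ₁
    (fun R hR => hest₀ R hR ζ₁ hζT) r₀ S hrS hS m hm qq hqq γ₂ hγ₂
    (fun σ hσ => hgap₂ σ hσ ζ₁ (Om_mono T.ℓ ω hηη₂ hζ₁)) e' (∑ l, C₁ l) R₂
    (Finset.sum_nonneg fun l _ => hC₁ l) (fun R hR l => by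
      have h1 := hb l R ((hR₂' l).trans hR) ζ₁ (mem_ball_self (hε₁ l))
      refine ⟨h1.1, ?_⟩
      have h2 : 0 ≤ Real.log R := Real.log_nonneg (hR₂.trans hR)
      have h3 := h1.2.trans (mul_le_mul_of_nonneg_right (hC₁s l) h2)
      simpa [sr, χ] using h3) ⟨j, hj⟩ ⟨k, hk⟩ hjk.ne (by
      have h1 : δ ⟨k, hk⟩ = 0 := by
        by_contra h0
        apply rat_indep hω _ h0
        rw [hδω]
        rw [hxe, hye] at hxy
        simp only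
        linarith
      have h2 := hδsr ⟨k, hk⟩ ζ₁
      rw [h1] at h2
      have h3 : sr T.ℓ (0 : β → ℚ) ζ₁ = 0 := by simp [sr]
      rw [h3] at h2
      simp only at h2 ⊢
      linarith) (fun l => by
      have h1 := hnonpos l ζ₁ (Om_mono T.ℓ ω hηη₄ hζ₁)
      rw [hδsr] at h1
      simp only at h1 ⊢
      linarith)
  have hfin' : ∀ σ : (∀ a, T.Sl a), ∃ R₂ : ℝ, ∀ R : ℝ, R₂ ≤ R →
      (fun a => T.sv e a (σ a)) = r₀ → ∀ u₀ : ℂ, (T.f.map (T.χ R ζ₁)).eval u₀ = 0 →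
      (∀ a, |Real.log ‖T.Y R ζ₁ u₀ a‖ - R * sr T.ℓ (T.sv e a (σ a)) ζ₁| ≤
        (2 * C₀ + 1) * Real.log R) →
      ∃ (v : Fin s → ℂ) (t : ℂ), T.χ R v T.D ≠ 0 ∧ T.χ R v T.g0 ≠ 0 ∧
        (T.f.map (T.χ R v)).eval t = 0 ∧
        ∀ a, T.Y R v t a = Complex.exp (eval (sc R v) (lin (ℓ' a) (μ' a)) + c' a) := by
    intro σ
    by_cases hσ : (fun a => T.sv e a (σ a)) = r₀
    · obtain ⟨R₂, h⟩ := hfin σ hσ
      exact ⟨R₂, fun R hR _ => h R hR⟩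
    · exact ⟨0, fun R _ h => absurd h hσ⟩
  choose R₄ hR₄ using hfin'
  obtain ⟨R, hR, hR'⟩ := exists_upper R₄ R₃
  obtain ⟨u₀, hu₀, σ, hσr, hσ⟩ := hR₃ R hR
  obtain ⟨v, t, h1, h2, h3, h4⟩ := hR₄ σ R (hR' σ) (funext hσr) u₀ hu₀ hσ
  exact ⟨sc R v, t, h1, h2, h3, h4⟩

end TData

end Pool.Agent.K3h22.EX
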