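import Pool.Agent.K3h22.EX.TI
import Pool.Agent.K3h22.EX.TD

/-! EX project, linear spaces in general position, all dimensions: the theorem for the ideal. -/

set_option autoImplicit false

namespace Pool.Agent.K3h22.EX

open MvPolynomial

variable {s n : ℕ}

/-- the linear-space theorem for the ideal -/
theorem coreT2 (hFLAG : S_FLAG) (hCONE1 : S_CONE1) (hCONE2 : S_CONE2) (hGPQ : S_GPQ)
    (hSUPP : S_SUPP) (hSEP : S_SEP) (hRESQ : S_RESQ) (hROOTEX : S_ROOTEX)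
    (P : Ideal (MvPolynomial (Fin n ⊕ Fin n) ℂ)) (hP : P.IsPrime)
    (ι : Fin s → Fin n) (ℓ : Fin n → Fin s → ℂ) (μ : Fin n → ℂ)
    (hι : ∀ a, lin (ℓ (ι a)) (μ (ι a)) = X a)
    (h2 : ∀ i, X (Sum.inl i) - rename (fun a => Sum.inl (ι a)) (lin (ℓ i) (μ i)) ∈ P)
    (h3 : ∀ i, X (Sum.inr i) ∉ P) (d : ℕ) (hd : d + 1 + s = n) (hs : 1 ≤ s)
    (hB1 : ∃ B : Finset (Fin n), B.card = d + 1 ∧
      ∀ g : MvPolynomial {i // i ∈ B} (MvPolynomial (Fin s) ℂ), em ι Subtype.val g ∈ P → g = 0)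
    (hB2 : ∀ B : Finset (Fin n), B.card = d + 2 →
      ∃ g : MvPolynomial {i // i ∈ B} (MvPolynomial (Fin s) ℂ), g ≠ 0 ∧ em ι Subtype.val g ∈ P)
    (hB3 : ∀ B : Finset (Fin n), B.card = d + 1 →
      (∀ g : MvPolynomial {i // i ∈ B} (MvPolynomial (Fin s) ℂ), em ι Subtype.val g ∈ P → g = 0) →
      ∀ j, j ∉ B → ∃ g : Polynomial (MvPolynomial {i // i ∈ B} (MvPolynomial (Fin s) ℂ)),
        g ≠ 0 ∧ g.eval₂ (em ι Subtype.val) (X (Sum.inr j)) ∈ P)
    (hC1 : ∀ (k : ℕ) (M : Fin k → Fin n → ℚ) (c : Fin k → ℝ), k ≤ 2 * s →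
      LinearIndependent ℚ M →
      (∀ a, ∑ i, (c i : ℂ) * ∑ j, (M i j : ℂ) * ℓ j a = 0) → c = 0)
    (hC2 : ∀ M : Matrix (Fin s) (Fin n) ℚ, LinearIndependent ℚ (fun a => M a) →
      (Matrix.of fun a j => ∑ i, (M a i : ℂ) * ℓ i j).det ≠ 0) (c : Fin n → ℂ)
    (H : MvPolynomial (Fin n ⊕ Fin n) ℂ) (hH : H ∉ P) :
    ∃ z : Fin s → ℂ,
      (∀ F ∈ P, eval (Sum.elim (fun i => eval z (lin (ℓ i) (μ i)))
        fun i => Complex.exp (eval z (lin (ℓ i) (μ i)) + c i)) F = 0) ∧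
      eval (Sum.elim (fun i => eval z (lin (ℓ i) (μ i)))
        fun i => Complex.exp (eval z (lin (ℓ i) (μ i)) + c i)) H ≠ 0 := by
  classical
  have := hP
  let F := FractionRing (MvPolynomial (Fin n ⊕ Fin n) ℂ ⧸ P)
  let ψ : MvPolynomial (Fin n ⊕ Fin n) ℂ →+* F :=
    (algebraMap (MvPolynomial (Fin n ⊕ Fin n) ℂ ⧸ P) F).comp (Ideal.Quotient.mk P)
  have hψ0 : ∀ f, ψ f = 0 ↔ f ∈ P := by
    intro f
    rw [← Ideal.Quotient.eq_zero_iff_mem]
    exact map_eq_zero_iff _ (IsFractionRing.injective (MvPolynomial (Fin n ⊕ Fin n) ℂ ⧸ P) F)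
  letI : Algebra (MvPolynomial (Fin s) ℂ) F :=
    (ψ.comp (rename (R := ℂ) fun a => (Sum.inl (ι a) : Fin n ⊕ Fin n)).toRingHom).toAlgebra
  have halg : ∀ g : MvPolynomial (Fin s) ℂ, algebraMap (MvPolynomial (Fin s) ℂ) F g =
      ψ (rename (fun a => Sum.inl (ι a)) g) := fun g => rfl
  let y : Fin n → F := fun i => ψ (X (Sum.inr i))
  have haev : ∀ (β : Type) (b : β → Fin n) (g : MvPolynomial β (MvPolynomial (Fin s) ℂ)),
      aeval (fun i => y (b i)) g = ψ (em ι b g) := by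
    intro β b g
    have h : (aeval (fun i => y (b i)) :
        MvPolynomial β (MvPolynomial (Fin s) ℂ) →ₐ[MvPolynomial (Fin s) ℂ] F).toRingHom =
        ψ.comp (em ι b) := by
      apply MvPolynomial.ringHom_ext
      · intro r
        simp [em, halg]
      · intro i
        simp [em, y]
    exact congrArg (fun φ => φ g) h
  have hind : ∀ B : Finset (Fin n),
      AlgebraicIndependent (MvPolynomial (Fin s) ℂ) (fun b : {i // i ∈ B} => y b) ↔
      ∀ g : MvPolynomial {i // i ∈ B} (MvPolynomial (Fin s) ℂ),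
        em ι Subtype.val g ∈ P → g = 0 := by
    intro B
    rw [algebraicIndependent_iff]
    refine forall_congr' fun g => ?_
    rw [haev {i // i ∈ B} Subtype.val g, hψ0]
  have hinj : Function.Injective (algebraMap (MvPolynomial (Fin s) ℂ) F) := by
    rw [injective_iff_map_eq_zero]
    intro g hg
    obtain ⟨B, -, hB⟩ := hB1
    have h := hB (C g) (by
      rw [halg, hψ0] at hg
      simpa [em] using hg)
    exact C_eq_zero.1 h
  have hy : ∀ j, y j ≠ 0 := fun j h => h3 j ((hψ0 _).1 h)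
  -- the complements
  have hJex : ∀ B : {B : Finset (Fin n) // B.card = d + 1}, ∃ J : Fin s → Fin n,
      Function.Injective J ∧ (∀ a, J a ∉ B.1) ∧ ∀ i, i ∉ B.1 → ∃ a, J a = i := by
    rintro ⟨B, hB⟩
    have hBc : Bᶜ.card = s := by
      rw [Finset.card_compl, Fintype.card_fin]
      omega
    refine ⟨fun a => Bᶜ.orderEmbOfFin hBc a, (Bᶜ.orderEmbOfFin hBc).injective, fun a =>
      Finset.mem_compl.1 (Finset.orderEmbOfFin_mem _ hBc a), fun i hi => ?_⟩
    have h : i ∈ Set.range (Bᶜ.orderEmbOfFin hBc) := by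
      rw [Finset.range_orderEmbOfFin]
      exact Finset.mem_coe.2 (Finset.mem_compl.2 hi)
    exact h
  choose J hJ hJB hcov using hJex
  have hloc : ∀ B : {B : Finset (Fin n) // B.card = d + 1}, _ := fun B =>
    local_B hSUPP P ι ℓ μ c H hs B.1 (J B) (hJ B) (hJB B) (by
      by_cases h : ∀ g : MvPolynomial {i // i ∈ B.1} (MvPolynomial (Fin s) ℂ),
        em ι Subtype.val g ∈ P → g = 0
      · left
        exact exists_pk Pool.Agent.K3h30.EX.t_MODEL hRESQ hSEP P hP ι ℓ μ hι (J B) (hJ B) B.1 (hJB B)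
          (hcov B) h2 (fun a => h3 (J B a)) h (fun a => hB3 B.1 B.2 h (J B a) (hJB B a)) c H hH
      · right
        push Not at h
        obtain ⟨G, hG1, hG2⟩ := h
        exact ⟨G, hG2, hG1⟩)
  choose p hp hpw using hloc
  obtain ⟨Q, N, hQ, hQζ, hN⟩ := hGPQ s n ℓ hC1
  have hcn : n - 2 * s ≤ d := by omega
  obtain ⟨w, hwQ, htw, B, hB, hBw⟩ := cone_all hCONE1 hCONE2 n d (n - 2 * s) Q hQ N hN
    ({B : Finset (Fin n) // B.card = d + 1} × Option (Fin s)) (fun k => (p k.1 k.2).support)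
    (fun m => hFLAG (MvPolynomial (Fin s) ℂ) F n d (n - 2 * s) y hinj hy
      (by
        obtain ⟨B, hB, h⟩ := hB1
        exact ⟨B, hB, (hind B).2 h⟩)
      (fun B hB h => by
        obtain ⟨g, hg, hgP⟩ := hB2 B hB
        exact hg ((hind B).1 h g hgP))
      hcn m ({B : Finset (Fin n) // B.card = d + 1} × Option (Fin s))
      (fun k => p k.1 k.2) (fun k => ⟨(hp k.1 k.2).1, by
        rw [show (aeval y : MvPolynomial (Fin n) (MvPolynomial (Fin s) ℂ) →ₐ[_] F) =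
          aeval (fun i => y (id i)) from rfl, haev (Fin n) id, hψ0]
        exact (hp k.1 k.2).2⟩))
  obtain ⟨pk, r, hrS, hrw, hnp⟩ := hpw ⟨B, hB⟩ w hBw fun o => htw (⟨B, hB⟩, o)
  obtain ⟨ζ, hζ⟩ := hQζ w hwQ
  obtain ⟨z, t, h6, h7, h8, h9⟩ := pk.T.solve2 (t_DOM3 tTOP)
    Pool.Agent.K3h55.EX.t_TUBE Pool.Agent.K3h73.EX.t_HROOT2 Pool.Agent.K3h55.EX.t_CONST
    Pool.Agent.K3h55.EX.t_SLOPE Pool.Agent.K3h43.EX.t_VALHOL Pool.Agent.K3h85.EX.t_PATH
    Pool.Agent.K3h33.EX.t_AVOID Pool.Agent.K3h60.EX.t_LOG tSOLVE hROOTEX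
    (fun b : {i // i ∈ B} => w b) hBw
    (fun a => ℓ (J ⟨B, hB⟩ a)) (fun a => μ (J ⟨B, hB⟩ a)) (fun a => c (J ⟨B, hB⟩ a)) r
    ⟨ζ, fun b => by
      rw [pk.hℓ]
      exact hζ b, fun a => by
      rw [hζ]
      exact hrw a⟩ (by
      intro r
      rw [pk.hℓ]
      let M : Matrix (Fin s) (Fin n) ℚ := fun a i =>
        if h : i ∈ B then -r a ⟨i, h⟩ else if J ⟨B, hB⟩ a = i then 1 else 0
      have hJB' : ∀ a, J ⟨B, hB⟩ a ∉ B := hJB ⟨B, hB⟩
      have hMli : LinearIndependent ℚ (fun a => M a) := by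
        rw [Fintype.linearIndependent_iff]
        intro k hk a
        have h := congrFun hk (J ⟨B, hB⟩ a)
        rw [Finset.sum_apply, Finset.sum_eq_single a] at h
        · simpa [M, hJB' a] using h
        · intro a' _ ha'
          have : J ⟨B, hB⟩ a' ≠ J ⟨B, hB⟩ a := fun h => ha' (hJ ⟨B, hB⟩ h)
          simp [M, hJB' a, this]
        · intro h
          exact absurd (Finset.mem_univ a) h
      have h := hC2 M hMli
      have hsum : (Matrix.of fun a j => ∑ i, (M a i : ℂ) * ℓ i j) =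
          Matrix.of fun a j => ℓ (J ⟨B, hB⟩ a) j - ∑ b : {i // i ∈ B}, (r a b : ℂ) * ℓ b j := by
        ext a j
        simp only [Matrix.of_apply]
        have h1 : ∑ i, (M a i : ℂ) * ℓ i j =
            ∑ i ∈ B, (M a i : ℂ) * ℓ i j + ∑ i ∈ Bᶜ, (M a i : ℂ) * ℓ i j :=
          (Finset.sum_add_sum_compl B _).symm
        have h2 : ∑ i ∈ Bᶜ, (M a i : ℂ) * ℓ i j = ℓ (J ⟨B, hB⟩ a) j := by
          rw [Finset.sum_eq_single (J ⟨B, hB⟩ a)]
          · simp [M, hJB' a]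
          · intro i hi hne
            rw [Finset.mem_compl] at hi
            simp [M, hi, hne.symm]
          · intro h
            exact absurd (Finset.mem_compl.2 (hJB' a)) h
        have h3 : ∑ i ∈ B, (M a i : ℂ) * ℓ i j =
            -∑ b : {i // i ∈ B}, (r a b : ℂ) * ℓ b j := by
          rw [← Finset.sum_coe_sort B, ← Finset.sum_neg_distrib]
          refine Finset.sum_congr rfl fun b _ => ?_
          simp [M, b.2]
        rw [h1, h2, h3]
        ring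
      rw [hsum] at h
      exact h)
    pk.S hrS pk.hS pk.m pk.hm pk.qq pk.hqq hnp
  exact ⟨z, pk.hfin z t h6 h7 h8 h9⟩

end Pool.Agent.K3h22.EX
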