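import Pool.Agent.K3h22.EX.TJ

/-! EX project, linear spaces in general position, all dimensions: the theorem in coordinates. -/

set_option autoImplicit false

namespace Pool.Agent.K3h22.EX

open MvPolynomial

variable {s n : ℕ}

theorem indep_of_em (P : Ideal (MvPolynomial (Fin n ⊕ Fin n) ℂ)) (V : Set (Fin n ⊕ Fin n → ℂ))
    (e1 : ∀ f : MvPolynomial (Fin n ⊕ Fin n) ℂ, (∀ p ∈ V, eval p f = 0) → f ∈ P)
    (ι : Fin s → Fin n) (hι : Function.Injective ι) (B : Finset (Fin n))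
    (h : ∀ g : MvPolynomial {i // i ∈ B} (MvPolynomial (Fin s) ℂ),
      em ι Subtype.val g ∈ P → g = 0) : Indep V (coords ι B) := by
  classical
  intro f hf hfV
  have hinj : Function.Injective (Sum.elim (fun i : {i // i ∈ B} =>
      (Sum.inr i.1 : Fin n ⊕ Fin n)) fun a => Sum.inl (ι a)) := by
    rintro (i | a) (j | c) h
    · exact congrArg _ (Subtype.ext (by simpa using h))
    · simp at h
    · simp at h
    · exact congrArg _ (hι (by simpa using h))
  have h1 : (f.vars : Set (Fin n ⊕ Fin n)) ⊆ Set.range (Sum.elim (fun i : {i // i ∈ B} =>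
      (Sum.inr i.1 : Fin n ⊕ Fin n)) fun a => Sum.inl (ι a)) := by
    intro v hv
    have hv' := hf hv
    unfold coords at hv'
    rw [Finset.mem_union, Finset.mem_image, Finset.mem_image] at hv'
    rcases hv' with ⟨a, -, rfl⟩ | ⟨i, hi, rfl⟩
    · exact ⟨Sum.inr a, rfl⟩
    · exact ⟨Sum.inl ⟨i, hi⟩, rfl⟩
  obtain ⟨g, hg⟩ := exists_rename_eq_of_vars_subset_range f _ hinj h1
  have h2 := em_sum ι (Subtype.val : {i // i ∈ B} → Fin n) g
  have h3 : sumAlgEquiv ℂ {i // i ∈ B} (Fin s) g = 0 := by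
    apply h
    rw [h2]
    have : (rename (Sum.elim (fun i : {i // i ∈ B} =>
      (Sum.inr i.1 : Fin n ⊕ Fin n)) fun a => Sum.inl (ι a))) g = f := hg
    rw [this]
    exact e1 f hfV
  have h4 : g = 0 := by
    apply (sumAlgEquiv ℂ {i // i ∈ B} (Fin s)).injective
    rw [h3, map_zero]
  have : (rename (Sum.elim (fun i : {i // i ∈ B} =>
      (Sum.inr i.1 : Fin n ⊕ Fin n)) fun a => Sum.inl (ι a))) g = f := hg
  rw [← this, h4, map_zero]

theorem card_coords (ι : Fin s → Fin n) (hι : Function.Injective ι) (B : Finset (Fin n)) :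
    (coords ι B).card = s + B.card := by
  classical
  unfold coords
  rw [Finset.card_union_of_disjoint, Finset.card_image_of_injective, Finset.card_image_of_injective,
    Finset.card_univ, Fintype.card_fin]
  · exact Sum.inr_injective
  · exact Sum.inl_injective.comp hι
  · rw [Finset.disjoint_left]
    intro x hx hx'
    rw [Finset.mem_image] at hx hx'
    obtain ⟨a, -, rfl⟩ := hx
    obtain ⟨b, -, hb⟩ := hx'
    cases hb

/-- the linear-space theorem for all dimensions, in coordinates -/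
theorem mainT2 (hFLAG : S_FLAG) (hCONE1 : S_CONE1) (hCONE2 : S_CONE2) (hGPQ : S_GPQ)
    (hSUPP : S_SUPP) (hSEP : S_SEP) (hRESQ : S_RESQ) (hROOTEX : S_ROOTEX)
    (P : Ideal (MvPolynomial (Fin n ⊕ Fin n) ℂ)) (V : Set (Fin n ⊕ Fin n → ℂ))
    (hP : P.IsPrime)
    (hV : V = {p | (∀ f ∈ P, eval p f = 0) ∧ ∀ j : Fin n, p (Sum.inr j) ≠ 0})
    (hne : V.Nonempty)
    (hd1 : ∃ J : Finset (Fin n ⊕ Fin n), J.card = n ∧ Indep V J)
    (hd2 : ∀ J : Finset (Fin n ⊕ Fin n), J.card = n + 1 → ¬ Indep V J) (hs : 1 ≤ s)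
    (ι : Fin s → Fin n) (hι : Function.Injective ι) (ℓ : Fin n → Fin s → ℂ) (μ : Fin n → ℂ)
    (hp : ∀ u ∈ V, ∀ i, u (Sum.inl i) = ∑ a, ℓ i a * u (Sum.inl (ι a)) + μ i)
    (hind : Indep V (coords ι ∅))
    (hC1 : ∀ (k : ℕ) (M : Fin k → Fin n → ℚ) (c : Fin k → ℝ), k ≤ 2 * s →
      LinearIndependent ℚ M →
      (∀ a, ∑ i, (c i : ℂ) * ∑ j, (M i j : ℂ) * ℓ j a = 0) → c = 0)
    (hC2 : ∀ M : Matrix (Fin s) (Fin n) ℚ, LinearIndependent ℚ (fun a => M a) →
      (Matrix.of fun a j => ∑ i, (M a i : ℂ) * ℓ i j).det ≠ 0)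
    (c : Fin n ⊕ Fin n → ℂ) (hc : ∀ i, c (Sum.inr i) ≠ 0)
    (H : MvPolynomial (Fin n ⊕ Fin n) ℂ)
    (hH : ∃ u ∈ V, eval (Sum.elim (fun i => u (Sum.inl i) + c (Sum.inl i))
      (fun i => c (Sum.inr i) * u (Sum.inr i))) H ≠ 0) :
    ∃ z : Fin n → ℂ, (∃ u ∈ V, (Sum.elim z fun i => Complex.exp (z i) : Fin n ⊕ Fin n → ℂ) =
      Sum.elim (fun i => u (Sum.inl i) + c (Sum.inl i))
        (fun i => c (Sum.inr i) * u (Sum.inr i))) ∧
      eval (Sum.elim z fun i => Complex.exp (z i)) H ≠ 0 := by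
  classical
  by_cases hn : n ≤ 2 * s
  · refine mainT P V hP hV hne hd1 hd2 ι hι ℓ μ hp hind (fun c hc => ?_) hC2 c hc H hH
    refine hC1 n (fun i => Pi.single i 1) c hn (by
      have h := (Pi.basisFun ℚ (Fin n)).linearIndependent
      convert h using 1
      funext i
      simp) ?_
    intro a
    rw [← hc a]
    refine Finset.sum_congr rfl fun i _ => ?_
    congr 1
    rw [Finset.sum_eq_single i]
    · simp
    · intro j _ hj
      simp [hj]
    · intro h
      exact absurd (Finset.mem_univ i) h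
  · have hp' : ∀ u ∈ V, ∀ i, u (Sum.inl i) =
        eval (fun a => u (Sum.inl (ι a))) (lin (ℓ i) (μ i)) := by
      intro u hu i
      rw [eval_lin, hp u hu i]
      rfl
    obtain ⟨B, hB, hBind⟩ := Pool.Agent.K3h87.EX.t_TBASIS n s P V hP hV hne ι hι hind
      (fun i => ⟨lin (ℓ i) (μ i), fun u hu => hp' u hu i⟩) hd1 hd2
    obtain ⟨e1, e2, e3, e4, e5⟩ := Pool.Agent.K3h60.EX.t_DER n s P V hP hV hne ι hι
    have h2 : ∀ i, X (Sum.inl i) - rename (fun a => Sum.inl (ι a)) (lin (ℓ i) (μ i)) ∈ P :=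
      fun i => e2 i _ fun u hu => hp' u hu i
    have h4 := e4 B hBind
    obtain ⟨d, hd⟩ : ∃ d, d + 1 + s = n := ⟨n - s - 1, by omega⟩
    refine transport P V hV (fun i => lin (ℓ i) (μ i)) (fun c H hH => ?_) c hc H hH
    refine coreT2 hFLAG hCONE1 hCONE2 hGPQ hSUPP hSEP hRESQ hROOTEX P hP ι ℓ μ
      (p_iota P ι (fun i => lin (ℓ i) (μ i)) B h2 h4) h2 e3 d hd hs ⟨B, by omega, h4⟩ ?_ ?_
      hC1 hC2 c H hH
    · intro B' hB'
      by_contra hcon
      push Not at hcon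
      refine hd2 (coords ι B') (by rw [card_coords ι hι, hB']; omega)
        (indep_of_em P V e1 ι hι B' fun g hg => ?_)
      by_contra hg0
      exact hcon g hg0 hg
    · intro B' hB' hB'ind j hj
      refine e5 B' j (hd2 _ ?_)
      rw [Finset.card_insert_of_notMem, card_coords ι hι, hB']
      · omega
      · unfold coords
        rw [Finset.mem_union, Finset.mem_image, Finset.mem_image]
        rintro (⟨b, -, hb⟩ | ⟨b, hb, hb'⟩)
        · cases hb
        · have hb2 : b = j := Sum.inr_injective hb'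
          rw [hb2] at hb
          exact hj hb

end Pool.Agent.K3h22.EX
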