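import Pool.Agent.K3h22.EX.TK
import Pool.Agent.K3h22.EX.Stm7

/-! EX project, linear spaces in general position, all dimensions: varieties of larger dimension. -/

set_option autoImplicit false

namespace Pool.Agent.K3h22.EX

open MvPolynomial

variable {s n : ℕ}

/-- sections of dimension `n` -/
theorem exists_section (hCUT1 : S_CUT1) (hCUT2 : S_CUT2) {σ : Type} [Fintype σ] [DecidableEq σ]
    (n : ℕ) (P : Ideal (MvPolynomial σ ℂ)) (hP : P.IsPrime) (T : Finset σ) (hT : IndepI P T)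
    (hTn : T.card ≤ n) (hJ : ∃ J : Finset σ, J.card = n ∧ IndepI P J)
    (H : MvPolynomial σ ℂ) (hH : H ∉ P) :
    ∃ P' : Ideal (MvPolynomial σ ℂ), P'.IsPrime ∧ P ≤ P' ∧ H ∉ P' ∧ IndepI P' T ∧
      ∃ B : Finset σ, B.card = n ∧ BasisI P' B := by
  obtain ⟨J, hJn, hJ⟩ := hJ
  obtain ⟨B, hTB, hB, hbas⟩ := (hCUT2 σ P hP).2 T J hT hJ
  obtain ⟨k, hk⟩ : ∃ k, B.card = n + k := ⟨B.card - n, by omega⟩
  clear hJ hJn J hB hT
  induction k generalizing P B with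
  | zero =>
    exact ⟨P, hP, le_rfl, hH, fun f hf => hbas.1 f (hf.trans hTB), B, by omega, hbas⟩
  | succ k ih =>
    obtain ⟨b, hb, hbT⟩ : ∃ b ∈ B, b ∉ T := by
      by_contra hcon
      push Not at hcon
      have := Finset.card_le_card (show B ⊆ T from hcon)
      omega
    obtain ⟨P₁, h1, h2, h3, h4⟩ := hCUT1 σ P hP B hbas b hb H hH
    obtain ⟨P', h5, h6, h7, h8⟩ := ih P₁ h1 h3 (B.erase b)
      (fun t ht => Finset.mem_erase.2 ⟨fun h => hbT (h ▸ ht), hTB ht⟩) h4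
      (by rw [Finset.card_erase_of_mem hb]; omega)
    exact ⟨P', h5, h2.trans h6, h7, h8⟩

/-- points where a polynomial outside a prime ideal does not vanish -/
theorem exists_point {σ : Type} [Fintype σ] (P : Ideal (MvPolynomial σ ℂ)) (hP : P.IsPrime)
    (H : MvPolynomial σ ℂ) (hH : H ∉ P) :
    ∃ p : σ → ℂ, (∀ f ∈ P, eval p f = 0) ∧ eval p H ≠ 0 := by
  by_contra hcon
  push Not at hcon
  apply hH
  rw [← hP.radical, ← vanishingIdeal_zeroLocus_eq_radical (K := ℂ), mem_vanishingIdeal_iff]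
  intro p hp
  rw [mem_zeroLocus_iff] at hp
  exact hcon p hp

/-- the linear-space theorem for varieties of dimension at least `n` -/
theorem mainT3 (hCUT1 : S_CUT1) (hCUT2 : S_CUT2)
    (hFLAG : S_FLAG) (hCONE1 : S_CONE1) (hCONE2 : S_CONE2) (hGPQ : S_GPQ)
    (hSUPP : S_SUPP) (hSEP : S_SEP) (hRESQ : S_RESQ) (hROOTEX : S_ROOTEX)
    (P : Ideal (MvPolynomial (Fin n ⊕ Fin n) ℂ)) (V : Set (Fin n ⊕ Fin n → ℂ))
    (hP : P.IsPrime)
    (hV : V = {p | (∀ f ∈ P, eval p f = 0) ∧ ∀ j : Fin n, p (Sum.inr j) ≠ 0})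
    (hne : V.Nonempty)
    (hd1 : ∃ J : Finset (Fin n ⊕ Fin n), J.card = n ∧ Indep V J) (hs : 1 ≤ s)
    (ι : Fin s → Fin n) (hι : Function.Injective ι) (ℓ : Fin n → Fin s → ℂ) (μ : Fin n → ℂ)
    (hp : ∀ u ∈ V, ∀ i, u (Sum.inl i) = ∑ a, ℓ i a * u (Sum.inl (ι a)) + μ i)
    (hind : Indep V (coords ι ∅))
    (hC1 : ∀ (k : ℕ) (M : Fin k → Fin n → ℚ) (c : Fin k → ℝ), k ≤ 2 * s →
      LinearIndependent ℚ M →
      (∀ a, ∑ i, (c i : ℂ) * ∑ j, (M i j : ℂ) * ℓ j a = 0) → c = 0)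
    (hC2 : ∀ M : Matrix (Fin s) (Fin n) ℚ, LinearIndependent ℚ (fun a => M a) →
      (Matrix.of fun a j => ∑ i, (M a i : ℂ) * ℓ i j).det ≠ 0)
    (c : Fin n ⊕ Fin n → ℂ) (hc : ∀ i, c (Sum.inr i) ≠ 0)
    (H : MvPolynomial (Fin n ⊕ Fin n) ℂ)
    (hH : ∃ u ∈ V, eval (Sum.elim (fun i => u (Sum.inl i) + c (Sum.inl i))
      (fun i => c (Sum.inr i) * u (Sum.inr i))) H ≠ 0) :
    ∃ z : Fin n → ℂ, (∃ u ∈ V, (Sum.elim z fun i => Complex.exp (z i) : Fin n ⊕ Fin n → ℂ) =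
      Sum.elim (fun i => u (Sum.inl i) + c (Sum.inl i))
        (fun i => c (Sum.inr i) * u (Sum.inr i))) ∧
      eval (Sum.elim z fun i => Complex.exp (z i)) H ≠ 0 := by
  classical
  -- the polynomial after the translation
  set H' : MvPolynomial (Fin n ⊕ Fin n) ℂ := aeval (Sum.elim
    (fun i => X (Sum.inl i) + C (c (Sum.inl i))) (fun i => C (c (Sum.inr i)) * X (Sum.inr i))) H
    with hH'
  have hev : ∀ u : Fin n ⊕ Fin n → ℂ, eval u H' =
      eval (Sum.elim (fun i => u (Sum.inl i) + c (Sum.inl i))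
        (fun i => c (Sum.inr i) * u (Sum.inr i))) H := by
    intro u
    rw [hH', aeval_def, algebraMap_eq, ← eval_assoc]
    congr 2
    funext v
    rcases v with i | i <;> simp
  have hVP : ∀ u ∈ V, ∀ f ∈ P, eval u f = 0 := by
    intro u hu
    rw [hV] at hu
    exact hu.1
  have hVy : ∀ u ∈ V, ∀ j : Fin n, u (Sum.inr j) ≠ 0 := by
    intro u hu
    rw [hV] at hu
    exact hu.2
  have hH'P : H' ∉ P := by
    obtain ⟨u, hu, h⟩ := hH
    intro hmem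
    exact h ((hev u).symm.trans (hVP u hu _ hmem))
  have hYP : (∏ j : Fin n, X (Sum.inr j) : MvPolynomial (Fin n ⊕ Fin n) ℂ) ∉ P := by
    obtain ⟨u, hu⟩ := hne
    intro hmem
    have h := hVP u hu _ hmem
    rw [map_prod] at h
    obtain ⟨j, -, hj⟩ := Finset.prod_eq_zero_iff.1 h
    rw [eval_X] at hj
    exact hVy u hu j hj
  have hI : ∀ J : Finset (Fin n ⊕ Fin n), Indep V J → IndepI P J := fun J hJ f hf hfP =>
    hJ f hf fun u hu => hVP u hu f hfP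
  obtain ⟨J, hJ, hJi⟩ := hd1
  have hsn : s ≤ n := by
    have := Fintype.card_le_of_injective ι hι
    simpa using this
  obtain ⟨P', hP', hPP', hHP', hT', B, hB, hBas⟩ := exists_section hCUT1 hCUT2 n P hP (coords ι ∅)
    (hI _ hind) (by rw [card_coords ι hι]; simpa using hsn) ⟨J, hJ, hI J hJi⟩
    (H' * ∏ j : Fin n, X (Sum.inr j)) (fun h => (hP.mem_or_mem h).elim hH'P hYP)
  set V' : Set (Fin n ⊕ Fin n → ℂ) := {p | (∀ f ∈ P', eval p f = 0) ∧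
    ∀ j : Fin n, p (Sum.inr j) ≠ 0} with hV'
  have hV'V : V' ⊆ V := by
    intro u hu
    rw [hV]
    exact ⟨fun f hf => hu.1 f (hPP' hf), hu.2⟩
  obtain ⟨u, hu1, hu2⟩ := exists_point P' hP' _ hHP'
  rw [map_mul, map_prod] at hu2
  have hu3 : u ∈ V' := by
    refine ⟨hu1, fun j h => ?_⟩
    apply right_ne_zero_of_mul hu2
    exact Finset.prod_eq_zero (Finset.mem_univ j) (by rw [eval_X, h])
  have hne' : V'.Nonempty := ⟨u, hu3⟩
  obtain ⟨e1, -⟩ := Pool.Agent.K3h60.EX.t_DER n s P' V' hP' hV' hne' ι hι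
  have hI' : ∀ J : Finset (Fin n ⊕ Fin n), IndepI P' J → Indep V' J := fun J hJ f hf hfV =>
    hJ f hf (e1 f hfV)
  have hI'' : ∀ J : Finset (Fin n ⊕ Fin n), Indep V' J → IndepI P' J := fun J hJ f hf hfP =>
    hJ f hf fun u hu => hu.1 f hfP
  obtain ⟨z, ⟨w, hw, hzw⟩, hz⟩ := mainT2 hFLAG hCONE1 hCONE2 hGPQ hSUPP hSEP hRESQ hROOTEX P' V' hP'
    hV' hne' ⟨B, hB, hI' B hBas.1⟩ (fun J hJ hJi => by
      have h := (hCUT2 _ P' hP').1 B J hBas (hI'' J hJi)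
      omega) hs ι hι ℓ μ (fun u hu => hp u (hV'V hu)) (hI' _ hT') hC1 hC2 c hc H
    ⟨u, hu3, by
      rw [← hev]
      exact left_ne_zero_of_mul hu2⟩
  exact ⟨z, ⟨w, hV'V hw, hzw⟩, hz⟩

end Pool.Agent.K3h22.EX
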